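import Pool.Agent.H90.BU.Lim

/-!
# Blow-ups of Lefschetz structures
-/

set_option autoImplicit false

namespace Pool.Agent.H90.BU

open Module Filter Topology

variable {V₁ V₂ VT : Type*} [AddCommGroup V₁] [Module ℚ V₁] [AddCommGroup V₂] [Module ℚ V₂]
  [AddCommGroup VT] [Module ℚ VT]

/-- The map of the sum decomposition. -/
def Phi {m : ℕ} (P : V₁ →ₗ[ℚ] VT) (e : ℕ → V₂ →ₗ[ℚ] VT) :
    (V₁ × (Fin (m + 1) → V₂)) →ₗ[ℚ] VT :=
  P ∘ₗ LinearMap.fst ℚ _ _ +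
    ∑ r : Fin (m + 1), e r ∘ₗ LinearMap.proj r ∘ₗ LinearMap.snd ℚ V₁ (Fin (m + 1) → V₂)

lemma Phi_apply {m : ℕ} (P : V₁ →ₗ[ℚ] VT) (e : ℕ → V₂ →ₗ[ℚ] VT)
    (u : V₁ × (Fin (m + 1) → V₂)) : Phi P e u = P u.1 + ∑ r : Fin (m + 1), e r (u.2 r) := by
  simp [Phi]

/-- The data of a blow-up. -/
structure Blow (n : ℤ) (m : ℕ) (GX : ℤ → Submodule ℚ V₁) (BX : V₁ →ₗ[ℚ] V₁ →ₗ[ℚ] ℚ)
    (C : Module.End ℚ V₁) (GZ : ℤ → Submodule ℚ V₂) (BZ : V₂ →ₗ[ℚ] V₂ →ₗ[ℚ] ℚ)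
    (C' : Module.End ℚ V₂) (GT : ℤ → Submodule ℚ VT) (BT : VT →ₗ[ℚ] VT →ₗ[ℚ] ℚ)
    (D E : Module.End ℚ VT) (P : V₁ →ₗ[ℚ] VT) (e : ℕ → V₂ →ₗ[ℚ] VT) (ι : V₁ →ₗ[ℚ] V₂)
    (a : V₂ →ₗ[ℚ] V₁) (b : ℕ → V₂ →ₗ[ℚ] V₂) : Prop where
  lsX : LS n GX BX C
  lsZ : LS (n - 2 - m) GZ BZ C'
  lsT : ∀ t : ℚ, LS n GT BT (D - t • E)
  DP : ∀ x, D (P x) = P (C x)
  EP : ∀ x, E (P x) = e 0 (ι x)
  De : ∀ r w, r ≤ m → D (e r w) = e r (C' w)
  Ee : ∀ r w, r ≤ m → E (e r w) = e (r + 1) w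
  top : ∀ w, e (m + 1) w = P (a w) + ∑ r : Fin (m + 1), e r (b r w)
  BPP : ∀ x y, BT (P x) (P y) = BX x y
  BPe : ∀ x r w, r ≤ m → BT (P x) (e r w) = 0
  Bee_lt : ∀ r q w w', r + q < m → BT (e r w) (e q w') = 0
  Bee_eq : ∀ r q w w', r + q = m → BT (e r w) (e q w') = (-1) ^ (m + 1) * BZ w w'
  grade : ∀ j, (smG GX (spG GZ m) j).map (Phi P e) = GT j

lemma LS.negB {V : Type*} [AddCommGroup V] [Module ℚ V] {n : ℤ} {G : ℤ → Submodule ℚ V}
    {B : V →ₗ[ℚ] V →ₗ[ℚ] ℚ} {L : Module.End ℚ V} (S : LS n G B L) : LS n G (-B) L where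
  fin := S.fin
  symm x y := by simp [S.symm x y]
  adj x y := by simp [S.adj x y]
  map := S.map
  neg := S.neg
  nondeg j x hx h := S.nondeg j x hx (fun y hy => by
    have := h y hy
    rwa [LinearMap.neg_apply, LinearMap.neg_apply, neg_eq_zero] at this)

namespace Blow

variable {n : ℤ} {m : ℕ} {GX : ℤ → Submodule ℚ V₁} {BX : V₁ →ₗ[ℚ] V₁ →ₗ[ℚ] ℚ}
    {C : Module.End ℚ V₁} {GZ : ℤ → Submodule ℚ V₂} {BZ : V₂ →ₗ[ℚ] V₂ →ₗ[ℚ] ℚ}
    {C' : Module.End ℚ V₂} {GT : ℤ → Submodule ℚ VT} {BT : VT →ₗ[ℚ] VT →ₗ[ℚ] ℚ}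
    {D E : Module.End ℚ VT} {P : V₁ →ₗ[ℚ] VT} {e : ℕ → V₂ →ₗ[ℚ] VT} {ι : V₁ →ₗ[ℚ] V₂}
    {a : V₂ →ₗ[ℚ] V₁} {b : ℕ → V₂ →ₗ[ℚ] V₂}

lemma neg (H : Blow n m GX BX C GZ BZ C' GT BT D E P e ι a b) :
    Blow n m GX (-BX) C GZ (-BZ) C' GT (-BT) D E P e ι a b where
  lsX := H.lsX.negB
  lsZ := H.lsZ.negB
  lsT t := (H.lsT t).negB
  DP := H.DP
  EP := H.EP
  De := H.De
  Ee := H.Ee
  top := H.top
  BPP x y := by simp [H.BPP x y]
  BPe x r w h := by simp [H.BPe x r w h]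
  Bee_lt r q w w' h := by simp [H.Bee_lt r q w w' h]
  Bee_eq r q w w' h := by simp [H.Bee_eq r q w w' h]
  grade := H.grade

/-- The contribution of the top relation in the component of `X`. -/
def opA (m : ℕ) (a : V₂ →ₗ[ℚ] V₁) : Module.End ℚ (V₁ × (Fin (m + 1) → V₂)) :=
  LinearMap.inl ℚ _ _ ∘ₗ a ∘ₗ LinearMap.proj (Fin.last m) ∘ₗ LinearMap.snd ℚ _ _

/-- The contribution of the top relation in the components of `Z`. -/
def opB (m : ℕ) (b : ℕ → V₂ →ₗ[ℚ] V₂) (r : Fin (m + 1)) :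
    Module.End ℚ (V₁ × (Fin (m + 1) → V₂)) :=
  LinearMap.inr ℚ _ _ ∘ₗ LinearMap.single ℚ (fun _ => V₂) r ∘ₗ b r ∘ₗ
    LinearMap.proj (Fin.last m) ∘ₗ LinearMap.snd ℚ _ _

/-- The contribution of the restriction to `Z`. -/
def opI (m : ℕ) (ι : V₁ →ₗ[ℚ] V₂) : Module.End ℚ (V₁ × (Fin (m + 1) → V₂)) :=
  LinearMap.inr ℚ _ _ ∘ₗ LinearMap.single ℚ (fun _ => V₂) 0 ∘ₗ ι ∘ₗ LinearMap.fst ℚ _ _

/-- The Lefschetz operator in scaled coordinates. -/
noncomputable def Lp (m : ℕ) (C : Module.End ℚ V₁) (C' : Module.End ℚ V₂) (ι : V₁ →ₗ[ℚ] V₂)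
    (a : V₂ →ₗ[ℚ] V₁) (b : ℕ → V₂ →ₗ[ℚ] V₂) (t : ℚ) : Module.End ℚ (V₁ × (Fin (m + 1) → V₂)) :=
  smL C (spL C' m) + (-t) ^ (m + 1) • opA m a +
    ∑ r : Fin (m + 1), (-t) ^ (m + 1 - (r : ℕ)) • opB m b r + (-t) ^ 1 • opI m ι

/-- The scaling. -/
noncomputable def scal (m : ℕ) (t : ℚ) :
    (V₁ × (Fin (m + 1) → V₂)) →ₗ[ℚ] (V₁ × (Fin (m + 1) → V₂)) :=
  LinearMap.prodMap LinearMap.id
    (LinearMap.pi fun r : Fin (m + 1) => (-t) ^ (r : ℕ) • LinearMap.proj r)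

lemma scal_apply (t : ℚ) (u : V₁ × (Fin (m + 1) → V₂)) :
    scal m t u = (u.1, fun r : Fin (m + 1) => (-t) ^ (r : ℕ) • u.2 r) := rfl

/-- The scaled sum decomposition. -/
noncomputable def Ph (m : ℕ) (P : V₁ →ₗ[ℚ] VT) (e : ℕ → V₂ →ₗ[ℚ] VT) (t : ℚ) :
    (V₁ × (Fin (m + 1) → V₂)) →ₗ[ℚ] VT := Phi P e ∘ₗ scal m t

lemma Ph_apply (t : ℚ) (u : V₁ × (Fin (m + 1) → V₂)) :
    Ph m P e t u = P u.1 + ∑ r : Fin (m + 1), (-t) ^ (r : ℕ) • e r (u.2 r) := by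
  rw [Ph, LinearMap.comp_apply, Phi_apply, scal_apply]
  simp only [map_smul]

lemma Lp_apply (t : ℚ) (u : V₁ × (Fin (m + 1) → V₂)) :
    Lp m C C' ι a b t u = (C u.1 + (-t) ^ (m + 1) • a (u.2 (Fin.last m)),
      fun r : Fin (m + 1) => C' (u.2 r) + shift m u.2 r +
        (-t) ^ (m + 1 - (r : ℕ)) • b r (u.2 (Fin.last m)) +
          (if r = 0 then (-t) ^ 1 • ι u.1 else 0)) := by
  classical
  apply Prod.ext
  · simp [Lp, opA, opB, opI]
    rw [Prod.fst_sum]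
    simp
  · funext s
    simp only [Lp, opA, opB, opI, LinearMap.add_apply, LinearMap.smul_apply,
      LinearMap.comp_apply, LinearMap.sum_apply, Prod.snd_add, Prod.smul_snd, Pi.add_apply,
      Prod.snd_sum, Finset.sum_apply, Pi.smul_apply, LinearMap.inl_apply, LinearMap.inr_apply,
      LinearMap.fst_apply, LinearMap.snd_apply, LinearMap.proj_apply, smL_apply, spL_apply,
      smul_zero, add_zero, LinearMap.coe_single]
    congr 1
    · congr 1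
      rw [Finset.sum_eq_single s]
      · rw [Pi.single_eq_same]
      · intro r _ hr
        rw [Pi.single_eq_of_ne (Ne.symm hr), smul_zero]
      · intro h; exact absurd (Finset.mem_univ s) h
    · split_ifs with h
      · subst h
        rw [Pi.single_eq_same]
      · rw [Pi.single_eq_of_ne h, smul_zero]

/-- The intertwining relation. -/
lemma intertwine (H : Blow n m GX BX C GZ BZ C' GT BT D E P e ι a b) (t : ℚ)
    (u : V₁ × (Fin (m + 1) → V₂)) :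
    Ph m P e t (Lp m C C' ι a b t u) = (D - t • E) (Ph m P e t u) := by
  rw [Ph_apply, Lp_apply, Ph_apply]
  simp only [LinearMap.sub_apply, LinearMap.smul_apply, map_add, map_sum, map_smul]
  rw [H.DP, H.EP]
  have e1 : ∀ r : Fin (m + 1), D (e r (u.2 r)) = e r (C' (u.2 r)) := fun r =>
    H.De r _ (Nat.lt_succ_iff.1 r.2)
  have e2 : ∀ r : Fin (m + 1), E (e r (u.2 r)) = e (r + 1) (u.2 r) := fun r =>
    H.Ee r _ (Nat.lt_succ_iff.1 r.2)
  simp only [e1, e2]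
  -- split the left-hand side
  have f1 : ∑ r : Fin (m + 1), (-t) ^ (r : ℕ) • (e r (C' (u.2 r)) + e r (shift m u.2 r) +
      (-t) ^ (m + 1 - (r : ℕ)) • e r (b r (u.2 (Fin.last m))) +
        e r (if r = 0 then (-t) ^ 1 • ι u.1 else 0)) =
      ∑ r : Fin (m + 1), (-t) ^ (r : ℕ) • e r (C' (u.2 r)) +
      ∑ r : Fin (m + 1), (-t) ^ (r : ℕ) • e r (shift m u.2 r) +
      (-t) ^ (m + 1) • ∑ r : Fin (m + 1), e r (b r (u.2 (Fin.last m))) +
      (-t) • e 0 (ι u.1) := by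
    rw [Finset.smul_sum, ← Finset.sum_add_distrib, ← Finset.sum_add_distrib]
    have g1 : (-t) • e 0 (ι u.1) = ∑ r : Fin (m + 1), (-t) ^ (r : ℕ) •
        e r (if r = 0 then (-t) ^ 1 • ι u.1 else 0) := by
      rw [Finset.sum_eq_single 0]
      · simp
      · intro r _ hr
        rw [if_neg hr, map_zero, smul_zero]
      · intro h; exact absurd (Finset.mem_univ _) h
    rw [g1, ← Finset.sum_add_distrib]
    apply Finset.sum_congr rfl
    intro r _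
    rw [smul_add, smul_add, smul_add, smul_smul, ← pow_add]
    have : (r : ℕ) + (m + 1 - (r : ℕ)) = m + 1 := by have := r.2; omega
    rw [this]
  rw [f1]
  have f2 : ∑ r : Fin (m + 1), (-t) ^ (r : ℕ) • e r (shift m u.2 r) +
      (-t) ^ (m + 1) • e (m + 1) (u.2 (Fin.last m)) =
      (-t) • ∑ r : Fin (m + 1), (-t) ^ (r : ℕ) • e (r + 1) (u.2 r) := by
    rw [Fin.sum_univ_succ, Fin.sum_univ_castSucc (f := fun r : Fin (m + 1) =>
      (-t) ^ (r : ℕ) • e (r + 1) (u.2 r)), shift_zero, map_zero, smul_zero, zero_add, smul_add,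
      Finset.smul_sum]
    congr 1
    · apply Finset.sum_congr rfl
      intro r _
      rw [shift_succ, Fin.val_succ, Fin.val_castSucc, smul_smul, ← pow_succ']
    · rw [Fin.val_last, smul_smul, ← pow_succ']
  rw [H.top, smul_add] at f2
  have f3 : t • (∑ r : Fin (m + 1), (-t) ^ (r : ℕ) • e (r + 1) (u.2 r)) =
      - ((-t) • ∑ r : Fin (m + 1), (-t) ^ (r : ℕ) • e (r + 1) (u.2 r)) := by
    rw [neg_smul, neg_neg]
  have f4 : ∑ r : Fin (m + 1), (-t) ^ (r : ℕ) • (e r (C' (u.2 r)) - t • e (r + 1) (u.2 r)) =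
      ∑ r : Fin (m + 1), (-t) ^ (r : ℕ) • e r (C' (u.2 r)) -
        t • ∑ r : Fin (m + 1), (-t) ^ (r : ℕ) • e (r + 1) (u.2 r) := by
    rw [Finset.smul_sum, ← Finset.sum_sub_distrib]
    apply Finset.sum_congr rfl
    intro r _
    rw [smul_sub, smul_comm t]
  rw [f4, f3, ← f2, neg_smul]
  abel

lemma intertwine_pow (H : Blow n m GX BX C GZ BZ C' GT BT D E P e ι a b) (t : ℚ) (l : ℕ)
    (u : V₁ × (Fin (m + 1) → V₂)) :
    Ph m P e t ((Lp m C C' ι a b t ^ l) u) = ((D - t • E) ^ l) (Ph m P e t u) :=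
  pow_comm_of (H.intertwine t) l u

/-- The coefficient of the term with the indices `r`, `q` in the scaled form. -/
noncomputable def kap' (m r q : ℕ) (t : ℚ) : ℚ :=
  if m ≤ r + q then (-1) ^ (r + q) * t ^ (r + q - m) else 0

/-- The limit of the coefficient. -/
noncomputable def kap0 (m r q : ℕ) : ℚ := if r + q = m then (-1) ^ m else 0

lemma kap'_lim (m r q : ℕ) : Tendsto (kap' m r q) small (𝓝 (kap0 m r q)) := by
  unfold kap' kap0
  by_cases h1 : m ≤ r + q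
  · simp only [if_pos h1]
    by_cases h2 : r + q = m
    · rw [if_pos h2, h2]
      simp only [Nat.sub_self, pow_zero, mul_one]
      exact tendsto_const_nhds
    · rw [if_neg h2]
      have := (tendsto_pow_small' (r + q - m) (by omega)).const_mul ((-1 : ℚ) ^ (r + q))
      rwa [mul_zero] at this
  · simp only [if_neg h1]
    rw [if_neg (by omega)]
    exact tendsto_const_nhds

/-- The scaled form on the part coming from `Z`. -/
noncomputable def gam (m : ℕ) (BT : VT →ₗ[ℚ] VT →ₗ[ℚ] ℚ) (e : ℕ → V₂ →ₗ[ℚ] VT) (t : ℚ) :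
    (Fin (m + 1) → V₂) →ₗ[ℚ] (Fin (m + 1) → V₂) →ₗ[ℚ] ℚ :=
  ∑ r : Fin (m + 1), ∑ q : Fin (m + 1), kap' m r q t •
    BT.compl₁₂ (e r ∘ₗ LinearMap.proj r) (e q ∘ₗ LinearMap.proj q)

lemma gam_apply (t : ℚ) (w w' : Fin (m + 1) → V₂) : gam m BT e t w w' =
    ∑ r : Fin (m + 1), ∑ q : Fin (m + 1), kap' m r q t * BT (e r (w r)) (e q (w' q)) := by
  simp [gam]

/-- The form in scaled coordinates. -/
lemma form (H : Blow n m GX BX C GZ BZ C' GT BT D E P e ι a b) (t : ℚ)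
    (u v : V₁ × (Fin (m + 1) → V₂)) :
    BT (Ph m P e t u) (Ph m P e t v) = BX u.1 v.1 + t ^ m * gam m BT e t u.2 v.2 := by
  rw [Ph_apply, Ph_apply]
  have hs := (H.lsT 0).symm
  simp only [map_add, LinearMap.add_apply, map_sum, map_smul, LinearMap.sum_apply,
    LinearMap.smul_apply, smul_eq_mul]
  rw [H.BPP]
  have e1 : ∑ r : Fin (m + 1), (-t) ^ (r : ℕ) * BT (P u.1) (e r (v.2 r)) = 0 :=
    Finset.sum_eq_zero fun r _ => by rw [H.BPe _ _ _ (Nat.lt_succ_iff.1 r.2), mul_zero]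
  have e2 : ∑ r : Fin (m + 1), (-t) ^ (r : ℕ) * BT (e r (u.2 r)) (P v.1) = 0 :=
    Finset.sum_eq_zero fun r _ => by rw [hs, H.BPe _ _ _ (Nat.lt_succ_iff.1 r.2), mul_zero]
  simp only [mul_add, Finset.sum_add_distrib]
  rw [e1, e2, gam_apply, Finset.mul_sum, zero_add, add_zero]
  have e3 : ∑ q : Fin (m + 1), (-t) ^ (q : ℕ) *
        ∑ r : Fin (m + 1), (-t) ^ (r : ℕ) * BT (e r (u.2 r)) (e q (v.2 q)) =
      ∑ r : Fin (m + 1), t ^ m * ∑ q : Fin (m + 1),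
        kap' m r q t * BT (e r (u.2 r)) (e q (v.2 q)) := by
    simp only [Finset.mul_sum]
    rw [Finset.sum_comm]
    apply Finset.sum_congr rfl
    intro r _
    apply Finset.sum_congr rfl
    intro q _
    unfold kap'
    by_cases h : m ≤ (r : ℕ) + q
    · rw [if_pos h]
      have h1 : (-t) ^ (q : ℕ) * (-t) ^ (r : ℕ) = t ^ m * ((-1) ^ ((r : ℕ) + q) *
          t ^ ((r : ℕ) + q - m)) := by
        rw [← pow_add, mul_left_comm, ← pow_add, show m + ((r : ℕ) + q - m) = (r : ℕ) + q by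
          omega, neg_pow t, add_comm (q : ℕ)]
      rw [← mul_assoc, h1]
      ring
    · rw [if_neg h, H.Bee_lt _ _ _ _ (by omega)]
      ring
  rw [e3]

lemma gam_lim (H : Blow n m GX BX C GZ BZ C' GT BT D E P e ι a b) (w : Fin (m + 1) → V₂)
    {f : ℚ → Fin (m + 1) → V₂} {v : Fin (m + 1) → V₂} (hf : Lim f v) :
    Tendsto (fun t => gam m BT e t w (f t)) small (𝓝 (-(spB BZ m w v))) := by
  simp only [gam_apply]
  have h1 : Tendsto (fun t => ∑ r : Fin (m + 1), ∑ q : Fin (m + 1),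
      kap' m r q t * BT (e r (w r)) (e q (f t q))) small
      (𝓝 (∑ r : Fin (m + 1), ∑ q : Fin (m + 1),
        kap0 m r q * BT (e r (w r)) (e q (v q)))) := by
    apply tendsto_finsetSum
    intro r _
    apply tendsto_finsetSum
    intro q _
    exact (kap'_lim m r q).mul (hf (BT (e r (w r)) ∘ₗ e q ∘ₗ LinearMap.proj q))
  have h2 : ∑ r : Fin (m + 1), ∑ q : Fin (m + 1),
      kap0 m r q * BT (e r (w r)) (e q (v q)) = -(spB BZ m w v) := by
    rw [spB_apply, ← Finset.sum_neg_distrib]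
    apply Finset.sum_congr rfl
    intro r _
    rw [Finset.sum_eq_single r.rev]
    · have h3 : (r : ℕ) + (r.rev : ℕ) = m := by rw [Fin.val_rev]; have := r.2; omega
      rw [kap0, if_pos h3, H.Bee_eq _ _ _ _ h3, ← mul_assoc, ← pow_add,
        show m + (m + 1) = 2 * m + 1 by ring, pow_succ, pow_mul]
      simp
    · intro q _ hq
      rw [kap0, if_neg, zero_mul]
      intro h3
      apply hq
      apply Fin.ext
      rw [Fin.val_rev]
      omega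
    · intro h; exact absurd (Finset.mem_univ _) h
  rwa [h2] at h1

lemma Lp_lim {f : ℚ → V₁ × (Fin (m + 1) → V₂)} {v : V₁ × (Fin (m + 1) → V₂)} (hf : Lim f v) :
    Lim (fun t => Lp m C C' ι a b t (f t)) (smL C (spL C' m) v) := by
  have h0 : smL C (spL C' m) v = smL C (spL C' m) v + (0 : ℚ) • opA m a v +
      ∑ r : Fin (m + 1), (0 : ℚ) • opB m b r v + (0 : ℚ) • opI m ι v := by simp
  rw [h0]
  have h1 : (fun t => Lp m C C' ι a b t (f t)) = fun t => smL C (spL C' m) (f t) +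
      (-t) ^ (m + 1) • opA m a (f t) +
      ∑ r : Fin (m + 1), (-t) ^ (m + 1 - (r : ℕ)) • opB m b r (f t) +
      (-t) ^ 1 • opI m ι (f t) := by
    funext t
    simp [Lp]
  rw [h1]
  refine (((hf.map _).add ((hf.map _).smul (tendsto_pow_small _ (by omega)))).add
    (Lim.sum fun r _ => (hf.map _).smul (tendsto_pow_small _ ?_))).add
    ((hf.map _).smul (tendsto_pow_small _ (by omega)))
  have := r.2
  omega

lemma Lp_pow_lim (v : V₁ × (Fin (m + 1) → V₂)) (l : ℕ) :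
    Lim (fun t => (Lp m C C' ι a b t ^ l) v) ((smL C (spL C' m) ^ l) v) := by
  induction l with
  | zero => simpa using lim_const v
  | succ l ih =>
    simp only [pow_succ_apply]
    exact Lp_lim ih

/-- Positivity in scaled coordinates. -/
theorem key (H : Blow n m GX BX C GZ BZ C' GT BT D E P e ι a b) (l : ℕ)
    {A₁ : Submodule ℚ V₁} {A₂ : Submodule ℚ (Fin (m + 1) → V₂)} [Module.Finite ℚ A₁]
    [Module.Finite ℚ A₂] (h₁ : PD (qf BX C l) A₁) (h₂ : ND (qf (spB BZ m) (spL C' m) l) A₂) :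
    ∀ᶠ t in small, ∀ u ∈ A₁.prod A₂, u ≠ 0 →
      0 < BT (Ph m P e t u) (((D - t • E) ^ l) (Ph m P e t u)) := by
  set Lt : ℚ → Module.End ℚ (V₁ × (Fin (m + 1) → V₂)) := fun t => Lp m C C' ι a b t with hLt
  set FX : ℚ → V₁ →ₗ[ℚ] V₁ := fun t =>
    LinearMap.fst ℚ V₁ (Fin (m + 1) → V₂) ∘ₗ (Lt t ^ l) ∘ₗ LinearMap.inl ℚ _ _ with hFX
  set FZ : ℚ → V₁ →ₗ[ℚ] (Fin (m + 1) → V₂) := fun t =>
    LinearMap.snd ℚ V₁ (Fin (m + 1) → V₂) ∘ₗ (Lt t ^ l) ∘ₗ LinearMap.inl ℚ _ _ with hFZ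
  set HZ : ℚ → (Fin (m + 1) → V₂) →ₗ[ℚ] (Fin (m + 1) → V₂) := fun t =>
    LinearMap.snd ℚ V₁ (Fin (m + 1) → V₂) ∘ₗ (Lt t ^ l) ∘ₗ LinearMap.inr ℚ _ _ with hHZ
  have lFX : ∀ x, Lim (fun t => FX t x) ((C ^ l) x) := by
    intro x
    have := (Lp_pow_lim (C := C) (C' := C') (ι := ι) (a := a) (b := b)
      ((x, 0) : V₁ × (Fin (m + 1) → V₂)) l).map (LinearMap.fst ℚ _ _)
    rw [smL_pow] at this
    exact this
  have lFZ : ∀ x, Lim (fun t => FZ t x) 0 := by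
    intro x
    have := (Lp_pow_lim (C := C) (C' := C') (ι := ι) (a := a) (b := b)
      ((x, 0) : V₁ × (Fin (m + 1) → V₂)) l).map (LinearMap.snd ℚ _ _)
    rw [smL_pow] at this
    have h2 : (LinearMap.snd ℚ V₁ (Fin (m + 1) → V₂)) ((C ^ l) x, (spL C' m ^ l) 0) = 0 := by
      rw [LinearMap.snd_apply]
      exact map_zero _
    rw [← h2]
    exact this
  have lHZ : ∀ w, Lim (fun t => HZ t w) ((spL C' m ^ l) w) := by
    intro w
    have := (Lp_pow_lim (C := C) (C' := C') (ι := ι) (a := a) (b := b)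
      ((0, w) : V₁ × (Fin (m + 1) → V₂)) l).map (LinearMap.snd ℚ _ _)
    rw [smL_pow] at this
    exact this
  have hsX := H.lsX.symm
  have lsP := H.lsZ.sp m
  -- the first family
  have p1 : ∀ᶠ t in small, PD (BX.compl₂ (FX t)) A₁ := by
    refine PD.persist (R₀ := qf BX C l) (fun x _ y _ => H.lsX.qf_symm l x y) ?_ h₁
    intro x _ y _
    exact lFX y (BX x)
  -- the second family
  set M : ℚ → (V₁ × (Fin (m + 1) → V₂)) →ₗ[ℚ] (V₁ × (Fin (m + 1) → V₂)) →ₗ[ℚ] ℚ := fun t =>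
    (gam m BT e t).compl₁₂ (LinearMap.snd ℚ _ _) (FZ t ∘ₗ LinearMap.fst ℚ _ _) with hM
  set R : ℚ → (V₁ × (Fin (m + 1) → V₂)) →ₗ[ℚ] (V₁ × (Fin (m + 1) → V₂)) →ₗ[ℚ] ℚ := fun t =>
    BX.compl₁₂ (LinearMap.fst ℚ _ _) (FX t ∘ₗ LinearMap.fst ℚ _ _) + M t + (M t).flip +
      (gam m BT e t).compl₁₂ (LinearMap.snd ℚ _ _) (HZ t ∘ₗ LinearMap.snd ℚ _ _) with hR
  have hRa : ∀ t u v, R t u v = BX u.1 (FX t v.1) + gam m BT e t u.2 (FZ t v.1) +
      gam m BT e t v.2 (FZ t u.1) + gam m BT e t u.2 (HZ t v.2) := fun t u v => rfl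
  have p2 : ∀ᶠ t in small, PD (R t) (A₁.prod A₂) := by
    have : Module.Finite ℚ (A₁.prod A₂) := by
      have f : (A₁.prod A₂) ≃ₗ[ℚ] (A₁ × A₂) :=
        { toFun := fun w => (⟨w.1.1, w.2.1⟩, ⟨w.1.2, w.2.2⟩)
          map_add' := fun _ _ => rfl
          map_smul' := fun _ _ => rfl
          invFun := fun u => ⟨(u.1.1, u.2.1), ⟨u.1.2, u.2.2⟩⟩
          left_inv := fun _ => rfl
          right_inv := fun _ => rfl }
      exact Module.Finite.equiv f.symm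
    refine PD.persist (R₀ := smB (qf BX C l) (qf (spB BZ m) (spL C' m) l)) ?_ ?_ ?_
    · intro x _ y _
      rw [smB_apply, smB_apply, H.lsX.qf_symm, lsP.qf_symm]
    · intro u _ v _
      simp only [hRa]
      have g1 := lFX v.1 (BX u.1)
      have g2 := H.gam_lim u.2 (lFZ v.1)
      have g3 := H.gam_lim v.2 (lFZ u.1)
      have g4 := H.gam_lim u.2 (lHZ v.2)
      have g5 := ((g1.add g2).add g3).add g4
      rw [smB_apply, qf_apply, qf_apply]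
      have g6 : BX u.1 ((C ^ l) v.1) + -(spB BZ m u.2) 0 + -(spB BZ m v.2) 0 +
          -(spB BZ m u.2) ((spL C' m ^ l) v.2) =
          BX u.1 ((C ^ l) v.1) - spB BZ m u.2 ((spL C' m ^ l) v.2) := by
        rw [map_zero, map_zero]; ring
      rw [← g6]
      exact g5
    · intro u hu hu0
      rw [smB_apply]
      obtain ⟨hu1, hu2⟩ := hu
      by_cases k1 : u.1 = 0
      · have k2 : u.2 ≠ 0 := fun k2 => hu0 (Prod.ext k1 k2)
        have := h₂ u.2 hu2 k2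
        rw [k1, map_zero]
        linarith
      · have k3 := h₁ u.1 hu1 k1
        by_cases k2 : u.2 = 0
        · rw [k2, map_zero, sub_zero]
          exact k3
        · have := h₂ u.2 hu2 k2
          linarith
  have p3 : ∀ᶠ t in small, 0 < t := eventually_mem_nhdsWithin
  have p4 : ∀ᶠ t in small, t < 1 := nhdsWithin_le_nhds (gt_mem_nhds zero_lt_one)
  filter_upwards [p1, p2, p3, p4] with t h1 h2 h3 h4 u hu hu0
  rw [← H.intertwine_pow, H.form]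
  -- decompose `u`
  have hdec : (Lt t ^ l) u = (Lt t ^ l) (u.1, 0) + (Lt t ^ l) (0, u.2) := by
    rw [← map_add]
    congr 1
    ext <;> simp
  have hadj : ∀ u v, BX u.1 ((Lt t ^ l) v).1 + t ^ m * gam m BT e t u.2 ((Lt t ^ l) v).2 =
      BX ((Lt t ^ l) u).1 v.1 + t ^ m * gam m BT e t ((Lt t ^ l) u).2 v.2 := by
    intro u v
    rw [← H.form, ← H.form, hLt, H.intertwine_pow, H.intertwine_pow, (H.lsT t).adj_pow]
  have hsy : ∀ w w', t ^ m * gam m BT e t w w' = t ^ m * gam m BT e t w' w := by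
    intro w w'
    have k1 := H.form t (0, w) (0, w')
    have k2 := H.form t (0, w') (0, w)
    rw [(H.lsT t).symm, k2] at k1
    simp only [map_zero, zero_add] at k1
    exact k1.symm
  have hcross : BX u.1 ((Lt t ^ l) ((0, u.2) : V₁ × (Fin (m + 1) → V₂))).1 =
      t ^ m * gam m BT e t u.2 (FZ t u.1) := by
    have k1 := hadj (u.1, 0) (0, u.2)
    simp only [map_zero, LinearMap.zero_apply, mul_zero, add_zero, zero_add] at k1
    rw [k1, hsy]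
    rfl
  have hval : BX u.1 ((Lt t ^ l) u).1 + t ^ m * gam m BT e t u.2 ((Lt t ^ l) u).2 =
      (1 - t ^ m) * BX u.1 (FX t u.1) + t ^ m * R t u u := by
    rw [hdec]
    simp only [Prod.fst_add, Prod.snd_add, map_add]
    rw [hcross, hRa]
    have k1 : ((Lt t ^ l) ((u.1, 0) : V₁ × (Fin (m + 1) → V₂))).1 = FX t u.1 := rfl
    have k2 : ((Lt t ^ l) ((u.1, 0) : V₁ × (Fin (m + 1) → V₂))).2 = FZ t u.1 := rfl
    have k3 : ((Lt t ^ l) ((0, u.2) : V₁ × (Fin (m + 1) → V₂))).2 = HZ t u.2 := rfl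
    rw [k1, k2, k3]
    ring
  change 0 < BX u.1 ((Lt t ^ l) u).1 + t ^ m * gam m BT e t u.2 ((Lt t ^ l) u).2
  rw [hval]
  have q1 : 0 < t ^ m := pow_pos h3 m
  have q2 : t ^ m ≤ 1 := pow_le_one₀ h3.le h4.le
  have q3 : 0 < R t u u := h2 u hu hu0
  have q4 : 0 ≤ BX u.1 (FX t u.1) := by
    by_cases k1 : u.1 = 0
    · rw [k1, map_zero, LinearMap.zero_apply]
    · exact (h1 u.1 hu.1 k1).le
  have q5 := mul_pos q1 q3
  have q6 := mul_nonneg (sub_nonneg.2 q2) q4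
  linarith

end Blow

end Pool.Agent.H90.BU
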