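import Pool.Agent.H90.BU.Blow

/-!
# The blow-up formula for the indices
-/

set_option autoImplicit false

namespace Pool.Agent.H90.BU

open Module Filter Topology

section hr

variable {V : Type*} [AddCommGroup V] [Module ℚ V]
  {n : ℤ} {G : ℤ → Submodule ℚ V} {B : V →ₗ[ℚ] V →ₗ[ℚ] ℚ} {L : Module.End ℚ V}

/-- The Hodge-Riemann relations say that there are no negative squares. -/
lemma HRat_iff (S : LS n G B L) (h : HL n G L) {j : ℤ} (hj : 2 * j ≤ n) :
    HRat n G B L j ↔ pidx n G B L j = 0 := by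
  have hja : 2 * j + ((n - 2 * j).toNat : ℤ) = n := by omega
  have := S.fin_prim j
  unfold pidx
  generalize (n - 2 * j).toNat = a at hja ⊢
  constructor
  · intro h1
    have h2 : HasSg (sg j • qf B L a) (prim n G L j) (finrank ℚ (prim n G L j)) 0 := by
      refine ⟨prim n G L j, ⊥, sup_bot_eq _, ?_, ?_, rfl, finrank_bot _ _⟩
      · intro x hx hx0
        exact h1 a hja x hx.1 (hx.2 a hja) hx0
      · intro x hx hx0
        exact absurd ((Submodule.mem_bot ℚ).1 hx) hx0
    exact h2.negIdx_eq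
  · intro h1
    obtain ⟨p, q, h2⟩ := exists_hasSg (Q := sg j • qf B L a) (S := prim n G L j)
      (fun x _ y _ => by
        rw [LinearMap.smul_apply, LinearMap.smul_apply, LinearMap.smul_apply,
          LinearMap.smul_apply, S.qf_symm])
      (fun x hx h0 => by
        apply S.prim_nondeg h hja hx
        intro y hy
        have := h0 y hy
        rw [LinearMap.smul_apply, LinearMap.smul_apply, smul_eq_mul] at this
        exact (mul_eq_zero.1 this).resolve_left (sg_ne j))
    rw [h2.negIdx_eq] at h1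
    subst h1
    obtain ⟨P, N, e1, e2, e3, e4, e5⟩ := h2
    have hN : N ≤ prim n G L j := e1 ▸ le_sup_right
    have : Module.Finite ℚ N :=
      Module.Finite.of_injective (Submodule.inclusion hN) (Submodule.inclusion_injective hN)
    have hN0 : N = ⊥ := Submodule.finrank_eq_zero.1 e5
    rw [hN0, sup_bot_eq] at e1
    intro a' ha' x hx hxp hx0
    obtain rfl : a' = a := by omega
    have := e2 x (by rw [e1]; exact (mem_prim hja).2 ⟨hx, hxp⟩) hx0
    exact this

lemma HRat_of_neg (S : LS n G B L) {j : ℤ} (hj : j < 0) : HRat n G B L j := by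
  intro a _ x hx _ hx0
  rw [S.neg j hj, Submodule.mem_bot] at hx
  exact absurd hx hx0

lemma HRat_of_gt {j : ℤ} (hj : n < 2 * j) : HRat n G B L j := by
  intro a ha
  omega

end hr

variable {V₁ V₂ VT : Type*} [AddCommGroup V₁] [Module ℚ V₁] [AddCommGroup V₂] [Module ℚ V₂]
  [AddCommGroup VT] [Module ℚ VT] {n : ℤ} {m : ℕ} {GX : ℤ → Submodule ℚ V₁}
  {BX : V₁ →ₗ[ℚ] V₁ →ₗ[ℚ] ℚ}
  {C : Module.End ℚ V₁} {GZ : ℤ → Submodule ℚ V₂} {BZ : V₂ →ₗ[ℚ] V₂ →ₗ[ℚ] ℚ}
  {C' : Module.End ℚ V₂} {GT : ℤ → Submodule ℚ VT} {BT : VT →ₗ[ℚ] VT →ₗ[ℚ] ℚ}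
  {D E : Module.End ℚ VT} {P : V₁ →ₗ[ℚ] VT} {e : ℕ → V₂ →ₗ[ℚ] VT} {ι : V₁ →ₗ[ℚ] V₂}
  {a : V₂ →ₗ[ℚ] V₁} {b : ℕ → V₂ →ₗ[ℚ] V₂}

namespace Blow

/-- The image of the graded pieces under the scaled map. -/
lemma grade' (H : Blow n m GX BX C GZ BZ C' GT BT D E P e ι a b) {t : ℚ} (ht : t ≠ 0) (j : ℤ) :
    (smG GX (spG GZ m) j).map (Ph m P e t) = GT j := by
  rw [← H.grade j, Ph, Submodule.map_comp]
  congr 1
  apply le_antisymm
  · rintro _ ⟨u, hu, rfl⟩
    rw [SetLike.mem_coe, mem_smG, mem_spG] at hu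
    rw [mem_smG, mem_spG, scal_apply]
    exact ⟨hu.1, fun r => Submodule.smul_mem _ _ (hu.2 r)⟩
  · intro u hu
    rw [mem_smG, mem_spG] at hu
    refine ⟨(u.1, fun r : Fin (m + 1) => ((-t) ^ (r : ℕ))⁻¹ • u.2 r), ?_, ?_⟩
    · rw [SetLike.mem_coe, mem_smG, mem_spG]
      exact ⟨hu.1, fun r => Submodule.smul_mem _ _ (hu.2 r)⟩
    · rw [scal_apply]
      apply Prod.ext
      · rfl
      · funext r
        show (-t) ^ (r : ℕ) • ((-t) ^ (r : ℕ))⁻¹ • u.2 r = u.2 r
        rw [smul_smul, mul_inv_cancel₀ (pow_ne_zero _ (neg_ne_zero.2 ht)), one_smul]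

/-- The limit structure. -/
lemma lsLim (H : Blow n m GX BX C GZ BZ C' GT BT D E P e ι a b) :
    LS n (smG GX (spG GZ m)) (smB BX (spB BZ m)) (smL C (spL C' m)) := by
  refine H.lsX.sm ?_
  have := H.lsZ.sp m
  rwa [sub_add_cancel] at this

lemma splitLim (H : Blow n m GX BX C GZ BZ C' GT BT D E P e ι a b)
    {Gp Gm : ℤ → Submodule ℚ V₁} {Gp' Gm' : ℤ → Submodule ℚ V₂} (TX : Split n GX BX C Gp Gm)
    (TZ : Split (n - 2 - m) GZ BZ C' Gp' Gm') :
    Split n (smG GX (spG GZ m)) (smB BX (spB BZ m)) (smL C (spL C' m)) (smG Gp (spG Gp' m))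
      (smG Gm (spG Gm' m)) := by
  refine TX.sm ?_
  have := TZ.sp H.lsZ m
  rwa [sub_add_cancel] at this

/-- The signatures for small values of the parameter. -/
theorem sgn (H : Blow n m GX BX C GZ BZ C' GT BT D E P e ι a b) (hX : HL n GX C)
    (hZ : HL (n - 2 - m) GZ C') {j : ℤ} {l : ℕ} (hjl : 2 * j + l = n) :
    ∃ p q, HasSg (qf (smB BX (spB BZ m)) (smL C (spL C' m)) l) (smG GX (spG GZ m) j) p q ∧
      ∀ᶠ t in small, HasSg (qf BT (D - t • E) l) (GT j) p q := by
  have SZ : LS (n - 2) (spG GZ m) (spB BZ m) (spL C' m) := by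
    have := H.lsZ.sp m
    rwa [sub_add_cancel] at this
  obtain ⟨Zp, Zm, TZ⟩ := H.lsZ.exists_split hZ
  have hSZ : HL (n - 2) (spG GZ m) (spL C' m) := by
    have := (TZ.sp H.lsZ m).hl (H.lsZ.sp m)
    rwa [sub_add_cancel] at this
  have := H.lsX.fin j
  have := SZ.fin (j - 1)
  obtain ⟨p₁, q₁, P₁, N₁, a1, a2, a3, a4, a5⟩ := exists_hasSg (Q := qf BX C l) (S := GX j)
    (fun x _ y _ => H.lsX.qf_symm _ x y) (fun x hx h0 => H.lsX.qf_nondeg hX hjl hx h0)
  obtain ⟨p₂, q₂, P₂, N₂, b1, b2, b3, b4, b5⟩ := exists_hasSg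
    (Q := qf (spB BZ m) (spL C' m) l) (S := spG GZ m (j - 1))
    (fun x _ y _ => SZ.qf_symm _ x y)
    (fun x hx h0 => SZ.qf_nondeg hSZ (by omega) hx h0)
  have hP₁ : P₁ ≤ GX j := a1 ▸ le_sup_left
  have hN₁ : N₁ ≤ GX j := a1 ▸ le_sup_right
  have hP₂ : P₂ ≤ spG GZ m (j - 1) := b1 ▸ le_sup_left
  have hN₂ : N₂ ≤ spG GZ m (j - 1) := b1 ▸ le_sup_right
  have : Module.Finite ℚ P₁ :=
    Module.Finite.of_injective (Submodule.inclusion hP₁) (Submodule.inclusion_injective hP₁)
  have : Module.Finite ℚ N₁ :=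
    Module.Finite.of_injective (Submodule.inclusion hN₁) (Submodule.inclusion_injective hN₁)
  have : Module.Finite ℚ P₂ :=
    Module.Finite.of_injective (Submodule.inclusion hP₂) (Submodule.inclusion_injective hP₂)
  have : Module.Finite ℚ N₂ :=
    Module.Finite.of_injective (Submodule.inclusion hN₂) (Submodule.inclusion_injective hN₂)
  have hfr : ∀ (A₁ : Submodule ℚ V₁) (A₂ : Submodule ℚ (Fin (m + 1) → V₂))
      [Module.Finite ℚ A₁] [Module.Finite ℚ A₂],
      finrank ℚ (A₁.prod A₂) = finrank ℚ A₁ + finrank ℚ A₂ := by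
    intro A₁ A₂ _ _
    have f : (A₁.prod A₂) ≃ₗ[ℚ] (A₁ × A₂) :=
      { toFun := fun w => (⟨w.1.1, w.2.1⟩, ⟨w.1.2, w.2.2⟩)
        map_add' := fun _ _ => rfl
        map_smul' := fun _ _ => rfl
        invFun := fun u => ⟨(u.1.1, u.2.1), ⟨u.1.2, u.2.2⟩⟩
        left_inv := fun _ => rfl
        right_inv := fun _ => rfl }
    rw [f.finrank_eq, Module.finrank_prod]
  have hsup : (P₁.prod N₂) ⊔ (N₁.prod P₂) = smG GX (spG GZ m) j := by
    rw [Submodule.prod_sup_prod, a1, sup_comm, b1]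
    rfl
  refine ⟨p₁ + q₂, q₁ + p₂, ⟨P₁.prod N₂, N₁.prod P₂, hsup, ?_, ?_, ?_, ?_⟩, ?_⟩
  · rintro u ⟨hu1, hu2⟩ hu0
    rw [qf_apply, smL_pow, smB_apply]
    by_cases k1 : u.1 = 0
    · have k2 : u.2 ≠ 0 := fun k2 => hu0 (Prod.ext k1 k2)
      have := b3 u.2 hu2 k2
      rw [qf_apply] at this
      simp only [k1, map_zero]
      linarith
    · have k3 := a2 u.1 hu1 k1
      rw [qf_apply] at k3
      by_cases k2 : u.2 = 0
      · simp only [k2, map_zero, sub_zero]
        exact k3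
      · have := b3 u.2 hu2 k2
        rw [qf_apply] at this
        simp only
        linarith
  · rintro u ⟨hu1, hu2⟩ hu0
    rw [qf_apply, smL_pow, smB_apply]
    by_cases k1 : u.1 = 0
    · have k2 : u.2 ≠ 0 := fun k2 => hu0 (Prod.ext k1 k2)
      have := b2 u.2 hu2 k2
      rw [qf_apply] at this
      simp only [k1, map_zero]
      linarith
    · have k3 := a3 u.1 hu1 k1
      rw [qf_apply] at k3
      by_cases k2 : u.2 = 0
      · simp only [k2, map_zero, sub_zero]
        exact k3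
      · have := b2 u.2 hu2 k2
        rw [qf_apply] at this
        simp only
        linarith
  · rw [hfr, a4, b5]
  · rw [hfr, a5, b4]
  · have e1 := H.key l a2 b3
    have e2 := H.neg.key l (A₁ := N₁) (A₂ := P₂) (by
      intro x hx hx0
      have := a3 x hx hx0
      rw [qf_apply] at this ⊢
      rw [LinearMap.neg_apply, LinearMap.neg_apply]
      linarith) (by
      intro x hx hx0
      have := b2 x hx hx0
      rw [qf_apply] at this ⊢
      rw [spB_neg, LinearMap.neg_apply, LinearMap.neg_apply]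
      linarith)
    have e3 : ∀ᶠ t in small, 0 < t := eventually_mem_nhdsWithin
    filter_upwards [e1, e2, e3] with t h1 h2 h3
    have h4 : HasSg ((BT.compl₁₂ (Ph m P e t) (((D - t • E) ^ l) ∘ₗ Ph m P e t)))
        (smG GX (spG GZ m) j) (p₁ + q₂) (q₁ + p₂) := by
      refine ⟨P₁.prod N₂, N₁.prod P₂, hsup, ?_, ?_, ?_, ?_⟩
      · intro u hu hu0
        exact h1 u hu hu0
      · intro u hu hu0
        have := h2 u hu hu0
        rw [LinearMap.neg_apply, LinearMap.neg_apply] at this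
        show BT (Ph m P e t u) (((D - t • E) ^ l) (Ph m P e t u)) < 0
        linarith
      · rw [hfr, a4, b5]
      · rw [hfr, a5, b4]
    exact h4.map (Ph m P e t) (H.grade' h3.ne' j) (fun x _ => rfl)

lemma hasSg_bot {V : Type*} [AddCommGroup V] [Module ℚ V] {Q : V →ₗ[ℚ] V →ₗ[ℚ] ℚ} {p q : ℕ}
    (h : HasSg Q ⊥ p q) : p = 0 ∧ q = 0 := by
  have := h.finrank_eq
  rw [finrank_bot] at this
  omega

lemma hasSg_bot' {V : Type*} [AddCommGroup V] [Module ℚ V] {Q : V →ₗ[ℚ] V →ₗ[ℚ] ℚ} :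
    HasSg Q ⊥ 0 0 := by
  refine ⟨⊥, ⊥, sup_bot_eq _, ?_, ?_, finrank_bot _ _, finrank_bot _ _⟩
  · intro x hx hx0
    exact absurd ((Submodule.mem_bot ℚ).1 hx) hx0
  · intro x hx hx0
    exact absurd ((Submodule.mem_bot ℚ).1 hx) hx0

/-- **The indices for small values of the parameter are those of the limit.** -/
theorem main (H : Blow n m GX BX C GZ BZ C' GT BT D E P e ι a b) (hX : HL n GX C)
    (hZ : HL (n - 2 - m) GZ C') :
    ∀ᶠ t in small, HL n GT (D - t • E) ∧ ∀ j, 2 * j ≤ n →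
      pidx n (smG GX (spG GZ m)) (smB BX (spB BZ m)) (smL C (spL C' m)) j =
        pidx n GT BT (D - t • E) j := by
  obtain ⟨Xp, Xm, TX⟩ := H.lsX.exists_split hX
  obtain ⟨Zp, Zm, TZ⟩ := H.lsZ.exists_split hZ
  have T0 := H.splitLim TX TZ
  have S0 := H.lsLim
  have h1 : ∀ᶠ t in small, ∀ i ∈ Finset.range (n.toNat + 1), ∀ l : ℕ, 2 * (i : ℤ) + l = n →
      ∀ p q, HasSg (qf (smB BX (spB BZ m)) (smL C (spL C' m)) l) (smG GX (spG GZ m) i) p q →
      HasSg (qf BT (D - t • E) l) (GT i) p q := by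
    rw [eventually_all_finset]
    intro i _
    by_cases hi : 2 * (i : ℤ) ≤ n
    · obtain ⟨l, hl⟩ : ∃ l : ℕ, 2 * (i : ℤ) + l = n := ⟨(n - 2 * i).toNat, by omega⟩
      obtain ⟨p, q, e1, e2⟩ := H.sgn hX hZ hl
      filter_upwards [e2] with t ht l' hl' p' q' h'
      obtain rfl : l' = l := by omega
      have := S0.fin i
      obtain ⟨rfl, rfl⟩ := h'.unique e1
      exact ht
    · filter_upwards with t l' hl'
      omega
  filter_upwards [h1] with t ht
  have hsg : ∀ (j : ℤ) (l : ℕ), 2 * j + l = n → ∀ p q,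
      HasSg (qf (smB BX (spB BZ m)) (smL C (spL C' m)) l) (smG GX (spG GZ m) j) p q →
      HasSg (qf BT (D - t • E) l) (GT j) p q := by
    intro j l hjl p q h2
    by_cases hj : 0 ≤ j
    · obtain ⟨i, rfl⟩ := Int.eq_ofNat_of_zero_le hj
      exact ht i (Finset.mem_range.2 (by omega)) l hjl p q h2
    · rw [S0.neg j (by omega)] at h2
      obtain ⟨rfl, rfl⟩ := hasSg_bot h2
      rw [(H.lsT t).neg j (by omega)]
      exact hasSg_bot'
  have hHL : HL n GT (D - t • E) := by
    intro j l hjl x hx h0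
    have := S0.fin j
    obtain ⟨p, q, h2⟩ := exists_hasSg
      (Q := qf (smB BX (spB BZ m)) (smL C (spL C' m)) l) (S := smG GX (spG GZ m) j)
      (fun x _ y _ => S0.qf_symm _ x y) (fun x hx h0 => S0.qf_nondeg (T0.hl S0) hjl hx h0)
    refine (hsg j l hjl p q h2).nondeg (fun x _ y _ => (H.lsT t).qf_symm _ x y) hx ?_
    intro y _
    rw [qf_apply, ← (H.lsT t).adj_pow, h0, map_zero, LinearMap.zero_apply]
  exact ⟨hHL, fun j hj => pidx_congr S0 (T0.hl S0) (H.lsT t) hHL hsg hj⟩

lemma finrank_neg {V : Type*} [AddCommGroup V] [Module ℚ V] {n : ℤ} {G : ℤ → Submodule ℚ V}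
    {B : V →ₗ[ℚ] V →ₗ[ℚ] ℚ} {L : Module.End ℚ V} (S : LS n G B L) {j : ℤ} (hj : j < 0) :
    finrank ℚ (G j) = 0 := by
  rw [S.neg j hj, finrank_bot]

/-- **The blow-up formula for the total indices, and the Hodge-Riemann relations.** -/
theorem formula (H : Blow n m GX BX C GZ BZ C' GT BT D E P e ι a b) (hX : HL n GX C)
    (hZ : HL (n - 2 - m) GZ C') :
    ∀ᶠ t in small, HL n GT (D - t • E) ∧
      (∀ j : ℕ, tidx n GT BT (D - t • E) j = tidx n GX BX C j +
        ∑ r ∈ (Finset.range (m + 1)).filter (· < j), tidx (n - 2 - m) GZ BZ C' (j - 1 - r)) ∧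
      ∀ J : ℕ, (∀ j : ℕ, j ≤ J → HRat n GT BT (D - t • E) j) ↔
        (∀ j : ℕ, j ≤ J → HRat n GX BX C j) ∧
          ∀ j : ℕ, j < J → HRat (n - 2 - m) GZ BZ C' j := by
  obtain ⟨Xp, Xm, TX⟩ := H.lsX.exists_split hX
  obtain ⟨Zp, Zm, TZ⟩ := H.lsZ.exists_split hZ
  have T0 := H.splitLim TX TZ
  have S0 := H.lsLim
  filter_upwards [H.main hX hZ] with t ht
  obtain ⟨hHL, hidx⟩ := ht
  have hform : ∀ j : ℕ, tidx n GT BT (D - t • E) j = tidx n GX BX C j +
        ∑ r ∈ (Finset.range (m + 1)).filter (· < j), tidx (n - 2 - m) GZ BZ C' (j - 1 - r) := by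
    intro j
    have h1 : tidx n GT BT (D - t • E) j =
        tidx n (smG GX (spG GZ m)) (smB BX (spB BZ m)) (smL C (spL C' m)) j := by
      unfold tidx
      apply Finset.sum_congr rfl
      intro i hi
      rw [Finset.mem_filter, Finset.mem_range] at hi
      exact (hidx i (by omega)).symm
    rw [h1, T0.tidx_eq S0, TX.tidx_eq H.lsX]
    have SZm : LS (n - 2) (spG Zm m) (spB (-BZ) m) (spL C' m) := by
      have := (TZ.lsm H.lsZ).sp m
      rwa [sub_add_cancel] at this
    rw [finrank_smG (TX.lsm H.lsX) SZm]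
    congr 1
    rw [finrank_spG (TZ.lsm H.lsZ), Finset.sum_filter, Finset.sum_range]
    apply Finset.sum_congr rfl
    intro r _
    split_ifs with hr
    · have hr' : (r : ℕ) < j := hr
      have h3 : (((j - 1 - (r : ℕ) : ℕ)) : ℤ) = (j : ℤ) - 1 - ((r : ℕ) : ℤ) := by omega
      rw [TZ.tidx_eq H.lsZ, h3]
    · exact finrank_neg (TZ.lsm H.lsZ) (by omega)
  refine ⟨hHL, hform, ?_⟩
  -- reduction to the range up to the middle
  have hmid : ∀ J : ℕ, 2 * (J : ℤ) ≤ n → ((∀ j : ℕ, j ≤ J → HRat n GT BT (D - t • E) j) ↔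
        (∀ j : ℕ, j ≤ J → HRat n GX BX C j) ∧
          ∀ j : ℕ, j < J → HRat (n - 2 - m) GZ BZ C' j) := by
    intro J hJ
    have g1 : (∀ j : ℕ, j ≤ J → HRat n GT BT (D - t • E) j) ↔
        tidx n GT BT (D - t • E) J = 0 := by
      unfold tidx
      rw [Finset.sum_eq_zero_iff]
      constructor
      · intro h i hi
        rw [Finset.mem_filter, Finset.mem_range] at hi
        exact (HRat_iff (H.lsT t) hHL (by omega)).1 (h i (by omega))
      · intro h i hi
        exact (HRat_iff (H.lsT t) hHL (by omega)).2 (h i (by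
          rw [Finset.mem_filter, Finset.mem_range]; omega))
    have g2 : (∀ j : ℕ, j ≤ J → HRat n GX BX C j) ↔ tidx n GX BX C J = 0 := by
      unfold tidx
      rw [Finset.sum_eq_zero_iff]
      constructor
      · intro h i hi
        rw [Finset.mem_filter, Finset.mem_range] at hi
        exact (HRat_iff H.lsX hX (by omega)).1 (h i (by omega))
      · intro h i hi
        exact (HRat_iff H.lsX hX (by omega)).2 (h i (by
          rw [Finset.mem_filter, Finset.mem_range]; omega))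
    have g3 : (∀ j : ℕ, j < J → HRat (n - 2 - m) GZ BZ C' j) ↔
        ∑ r ∈ (Finset.range (m + 1)).filter (· < J),
          tidx (n - 2 - m) GZ BZ C' (J - 1 - r) = 0 := by
      rw [Finset.sum_eq_zero_iff]
      constructor
      · intro h r hr
        rw [Finset.mem_filter, Finset.mem_range] at hr
        unfold tidx
        rw [Finset.sum_eq_zero_iff]
        intro i hi
        rw [Finset.mem_filter, Finset.mem_range] at hi
        exact (HRat_iff H.lsZ hZ (by omega)).1 (h i (by omega))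
      · intro h i hi
        by_cases hiz : 2 * (i : ℤ) ≤ n - 2 - m
        · rw [HRat_iff H.lsZ hZ hiz]
          by_cases hm : J - 1 - i ≤ m
          · have h1 := h (J - 1 - i) (by rw [Finset.mem_filter, Finset.mem_range]; omega)
            unfold tidx at h1
            rw [Finset.sum_eq_zero_iff] at h1
            exact h1 i (by rw [Finset.mem_filter, Finset.mem_range]; omega)
          · have h1 := h m (by rw [Finset.mem_filter, Finset.mem_range]; omega)
            unfold tidx at h1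
            rw [Finset.sum_eq_zero_iff] at h1
            exact h1 i (by rw [Finset.mem_filter, Finset.mem_range]; omega)
        · exact HRat_of_gt (by omega)
    rw [g1, g2, g3, hform, Nat.add_eq_zero_iff]
  intro J
  by_cases hJ : 2 * (J : ℤ) ≤ n
  · exact hmid J hJ
  · by_cases hn : 0 ≤ n
    · set J' := (n / 2).toNat with hJ'
      have h2 : 2 * (J' : ℤ) ≤ n := by omega
      have h3 := hmid J' h2
      have k1 : (∀ j : ℕ, j ≤ J → HRat n GT BT (D - t • E) j) ↔
          (∀ j : ℕ, j ≤ J' → HRat n GT BT (D - t • E) j) := by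
        constructor
        · intro h j hj
          exact h j (by omega)
        · intro h j _
          by_cases hj' : 2 * (j : ℤ) ≤ n
          · exact h j (by omega)
          · exact HRat_of_gt (by omega)
      have k2 : (∀ j : ℕ, j ≤ J → HRat n GX BX C j) ↔
          (∀ j : ℕ, j ≤ J' → HRat n GX BX C j) := by
        constructor
        · intro h j hj
          exact h j (by omega)
        · intro h j _
          by_cases hj' : 2 * (j : ℤ) ≤ n
          · exact h j (by omega)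
          · exact HRat_of_gt (by omega)
      have k3 : (∀ j : ℕ, j < J → HRat (n - 2 - m) GZ BZ C' j) ↔
          (∀ j : ℕ, j < J' → HRat (n - 2 - m) GZ BZ C' j) := by
        constructor
        · intro h j hj
          exact h j (by omega)
        · intro h j _
          by_cases hj' : 2 * (j : ℤ) ≤ n - 2 - m
          · exact h j (by omega)
          · exact HRat_of_gt (by omega)
      rw [k1, k2, k3, h3]
    · constructor
      · intro _
        exact ⟨fun j _ => HRat_of_gt (by omega), fun j _ => HRat_of_gt (by omega)⟩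
      · intro _ j _
        exact HRat_of_gt (by omega)

end Blow

end Pool.Agent.H90.BU
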