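import Pool.Agent.H90.G.S8.H914R2.HodgeDefs

/-!
# The blow-up formula for the Hodge indices: definitions
-/

set_option autoImplicit false

open CategoryTheory AlgebraicGeometry

universe u v

namespace Pool.Agent.H90.BU.Geo

section Alg

variable {K : Type*} [Field K] {A B C H : Type*} [Ring A] [Algebra K A] [Ring B] [Algebra K B]
  [Ring C] [Algebra K C] [Ring H] [Algebra K H]

/-- The self-intersection formula `j^* j_* y = ζ y`. -/
def SelfIntersection (j' : H →ₐ[K] B) (j : B →ₗ[K] H) (ζ : B) : Prop := ∀ y, j' (j y) = ζ * y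

/-- The formula `g_*(ζ ^ c) = (-1) ^ c` for the class `ζ` of `O(-1)` on a bundle `g` of projective
spaces of dimension `c`. -/
def SegreFormula (g' : B →ₗ[K] C) (ζ : B) (c : ℕ) : Prop := g' (ζ ^ c) = (-1) ^ c

/-- The element `π^* x + ∑ r < c, j_*(g^* y_r · ζ ^ r)` of the cohomology of a blow-up. -/
def blowSum (π : A →ₐ[K] H) (j : B →ₗ[K] H) (g : C →ₐ[K] B) (ζ : B) {c : ℕ} (x : A)
    (y : Fin c → C) : H :=
  π x + ∑ r : Fin c, j (g (y r) * ζ ^ (r : ℕ))

end Alg

open Pool.Agent.H914 VarClass Obj

variable {k : Type u} [Field k] {𝒱 : VarClass k} {ops : CycleOps 𝒱}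

/-- The cycle `z` of codimension `q` is numerically equivalent to zero: its intersection numbers
with all cycles of the complementary codimension vanish. -/
def NumZero (ops : CycleOps 𝒱) (X : 𝒱.Obj) (q : ℕ) (z : X.Cycles) : Prop :=
  ∀ l w, q + l = X.dim → X.IsCyc l w → X.V.degCycle (ops.mul z w) = 0

/-- The cycle `z` is of codimension `p`, where `2 p ≤ n = dim X`, and is primitive with respect to the
divisor `D`: the product with `D ^ (n - 2 p + 1)` is numerically equivalent to zero. -/
def IsPrimitive (ops : CycleOps 𝒱) (X : 𝒱.Obj) (D : X.Cycles) (p : ℕ) (z : X.Cycles) : Prop :=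
  2 * p ≤ X.dim ∧ X.IsCyc p z ∧
    NumZero ops X (X.dim - p + 1) (divPow ops D (X.dim - 2 * p + 1) z)

/-- The number `(-1) ^ p deg (z · z · D ^ (n - 2 p))`, where `n = dim X`. -/
noncomputable def hodgeForm (ops : CycleOps 𝒱) (X : 𝒱.Obj) (D : X.Cycles) (p : ℕ)
    (z : X.Cycles) : ℚ :=
  (-1) ^ p * X.V.degCycle (ops.mul z (divPow ops D (X.dim - 2 * p) z))

/-- The standard conjecture of Hodge type for `X` and the divisor `D` in codimension `p`, modulo
numerical equivalence: `(-1) ^ p deg (z · z · D ^ (n - 2 p)) > 0` for every primitive cycle `z` of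
codimension `p` which is not numerically equivalent to zero. -/
def HodgeTypeIn (ops : CycleOps 𝒱) (X : 𝒱.Obj) (D : X.Cycles) (p : ℕ) : Prop :=
  ∀ z, IsPrimitive ops X D p z → ¬ NumZero ops X p z → 0 < hodgeForm ops X D p z

/-- Hard Lefschetz modulo numerical equivalence: for `2 p ≤ n = dim X` the product with
`D ^ (n - 2 p)` is a bijection of the cycles of codimension `p` onto those of codimension `n - p`,
modulo numerical equivalence. It holds if the conjecture `A` of Lefschetz type holds for `X` and
`D`. -/
def NumLefschetz (ops : CycleOps 𝒱) (X : 𝒱.Obj) (D : X.Cycles) : Prop :=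
  ∀ p, 2 * p ≤ X.dim →
    (∀ z, X.IsCyc p z → NumZero ops X (X.dim - p) (divPow ops D (X.dim - 2 * p) z) →
      NumZero ops X p z) ∧
    ∀ z', X.IsCyc (X.dim - p) z' →
      ∃ z, X.IsCyc p z ∧ NumZero ops X (X.dim - p) (divPow ops D (X.dim - 2 * p) z - z')

/-- The number of negative squares of the form of the conjecture of Hodge type on the primitive
cycles of codimension `p`: the largest number of primitive cycles such that the form is negative on
all their nontrivial rational linear combinations. -/
noncomputable def negSquares (ops : CycleOps 𝒱) (X : 𝒱.Obj) (D : X.Cycles) (p : ℕ) : ℕ :=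
  sSup {m | ∃ z : Fin m → X.Cycles, ∀ c : Fin m → ℚ, c ≠ 0 →
    IsPrimitive ops X D p (∑ i, c i • z i) ∧ hodgeForm ops X D p (∑ i, c i • z i) < 0}

/-- The sum of the numbers of negative squares in all codimensions `q ≤ min (p, n - p)`,
`n = dim X`; it is the number of negative squares of the form on the space of all cycles of
codimension `p` modulo numerical equivalence which is given by the primitive decomposition. -/
noncomputable def totalNegSquares (ops : CycleOps 𝒱) (X : 𝒱.Obj) (D : X.Cycles) (p : ℕ) : ℕ :=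
  ∑ q ∈ (Finset.range (p + 1)).filter (fun q => q + p ≤ X.dim), negSquares ops X D q

/-- The exceptional divisor `j_*[F]`. -/
noncomputable def exc (ops : CycleOps 𝒱) {F T : 𝒱.Obj} (j : F ⟶ T) : T.Cycles :=
  ops.push j F.V.fundCycle

/-- The divisor `π^* D - t j_*[F]`. -/
noncomputable def blowDiv (ops : CycleOps 𝒱) {X T F : 𝒱.Obj} (π : T ⟶ X) (j : F ⟶ T)
    (D : X.Cycles) (t : ℚ) : T.Cycles :=
  ops.pull π D - t • exc ops j

/-- The restriction `ζ` to `F` of the class of the exceptional divisor. -/
noncomputable def zeta (W : WeilCohomology.{u, v} ops) {F T : 𝒱.Obj} (j : F ⟶ T) : W.H F :=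
  W.map j (W.cl T (exc ops j))

/-- The formula for the classes of algebraic cycles on the blow-up `T` of `X` along the centre `Z` of
codimension `c + 1`: the class of every cycle of codimension `p` on `T` is
`π^* x + ∑ r < c, j_*(g^* y_r · ζ ^ r)`, where `x` is the class of a cycle of codimension `p` on `X`, and
`y_r` is the class of a cycle of codimension `p - 1 - r` on `Z` (zero if `p < r + 1`). -/
def CyclesGenerated (W : WeilCohomology.{u, v} ops) {X Z T F : 𝒱.Obj} (π : T ⟶ X) (j : F ⟶ T)
    (g : F ⟶ Z) (c : ℕ) : Prop :=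
  ∀ p u, T.IsCyc p u → ∃ x, X.IsCyc p x ∧ ∃ y : Fin c → Z.Cycles,
    (∀ r : Fin c, ((r : ℕ) < p ∧ Z.IsCyc (p - 1 - r) (y r)) ∨ y r = 0) ∧
      W.cl T u = blowSum (W.map π) (W.push j) (W.map g) (zeta W j) (W.cl X x)
        (fun r => W.cl Z (y r))

/-- The morphism `π : T ⟶ X` looks like the blow-up of `X` along the smooth centre `i : Z ⟶ X` of
codimension `c + 1 ≥ 2`, with the exceptional divisor `j : F ⟶ T`, a bundle `g : F ⟶ Z` of
projective spaces of dimension `c`: the push-forward of `[T]` is `[X]`, and the self-intersection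
formula, the formula for the top power of `ζ` and the formula for the algebraic classes hold. -/
structure IsBlowup (W : WeilCohomology.{u, v} ops) {X Z T F : 𝒱.Obj} (i : Z ⟶ X) (π : T ⟶ X)
    (j : F ⟶ T) (g : F ⟶ Z) (c : ℕ) : Prop where
  comm : j ≫ π = g ≫ i
  codim : 1 ≤ c ∧ X.dim = Z.dim + c + 1
  dims : T.dim = X.dim ∧ F.dim = Z.dim + c
  birational : W.cl X (ops.push π T.V.fundCycle) = W.cl X X.V.fundCycle
  selfInt : SelfIntersection (W.map j) (W.push j) (zeta W j)
  segre : SegreFormula (W.push g) (zeta W j) c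
  generated : CyclesGenerated W π j g c

/-- The numerical classes of cycles on `P` are generated by the divisor `H` of positive degree, as for
a projective space with a hyperplane: every cycle of codimension `p` is numerically equivalent to
a rational multiple of `H ^ p`. -/
def IsSpaceLike (ops : CycleOps 𝒱) (P : 𝒱.Obj) (H : P.Cycles) : Prop :=
  0 < P.V.degCycle (divPow ops H P.dim P.V.fundCycle) ∧
    ∀ p z, P.IsCyc p z → ∃ q : ℚ, NumZero ops P p (z - q • divPow ops H p P.V.fundCycle)

end Pool.Agent.H90.BU.Geo
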