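import Pool.Agent.H90.BU.StmtDefs

/-!
# Iterated blow-ups: definitions
-/

set_option autoImplicit false

open CategoryTheory AlgebraicGeometry

universe u v

namespace Pool.Agent.H90.BU.Geo

open Pool.Agent.H914 VarClass Obj

variable {k : Type u} [Field k] {𝒱 : VarClass k} {ops : CycleOps 𝒱}

/-- A blow-up for which the sets `Amp` of divisors behave like the sets of ample divisors: the
restriction of a divisor `D` in `Amp X` to the centre `Z` is in `Amp Z`, and the divisor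
`π^* D - t j_*[F]` on the blow-up `T` is in `Amp T` for all small `t > 0`. -/
structure IsAmpleBlowup (W : WeilCohomology.{u, v} ops) (Amp : ∀ X : 𝒱.Obj, Set X.Cycles)
    {X Z T F : 𝒱.Obj} (i : Z ⟶ X) (π : T ⟶ X) (j : F ⟶ T) (g : F ⟶ Z) (c : ℕ) : Prop
    extends IsBlowup W i π j g c where
  restrict : ∀ D ∈ Amp X, ops.pull i D ∈ Amp Z
  perturb : ∀ D ∈ Amp X, ∃ δ : ℚ, 0 < δ ∧ ∀ t : ℚ, 0 < t → t < δ → blowDiv ops π j D t ∈ Amp T

/-- The varieties obtained from `X` by successive blow-ups along centres in the set `𝒵`. -/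
inductive IteratedBlowup (W : WeilCohomology.{u, v} ops) (Amp : ∀ X : 𝒱.Obj, Set X.Cycles)
    (𝒵 : Set 𝒱.Obj) (X : 𝒱.Obj) : 𝒱.Obj → Prop
  | refl : IteratedBlowup W Amp 𝒵 X X
  | blow {Y Z T F : 𝒱.Obj} (i : Z ⟶ Y) (π : T ⟶ Y) (j : F ⟶ T) (g : F ⟶ Z) (c : ℕ)
      (hY : IteratedBlowup W Amp 𝒵 X Y) (hZ : Z ∈ 𝒵) (h : IsAmpleBlowup W Amp i π j g c) :
      IteratedBlowup W Amp 𝒵 X T

end Pool.Agent.H90.BU.Geo
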