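import Pool.Agent.H90.G.Tb0a926ef.R910.Num.Ring
import Pool.Agent.H90.BU.StmtDefs
import Pool.Agent.H90.BU.TowerDefs
import Pool.Agent.H90.BU.BlowM

/-!
# The numerical rings: pull-backs and push-forwards
-/

open CategoryTheory AlgebraicGeometry

set_option autoImplicit false
set_option linter.unusedSectionVars false

universe u v

namespace Pool.Agent.H90.BU.Geo

open Pool.Agent.H914 Pool.Agent.H447 VarClass Obj WeilCohomology
open Pool.Agent.R910.Mix (ratAlg algSet AQ retr AQj mkA degQ degQ_apply resA resA_coe coe_smul')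
open Pool.Agent.R910.Num (numI NA mkN degN grN mem_grN mem_numI mkN_surj mkN_eq_zero degN_mk
  AQ_induction cl_eq_zero numI_iff grN_mul nondegN finN coe_pow_mul)
open Pool.Agent.R910.Dom (alg_zero alg_add alg_smul alg_sub alg_mul alg_map alg_push)

variable {k : Type u} [Field k] {𝒱 : VarClass k} {ops : CycleOps 𝒱}
  (W : WeilCohomology.{u, v} ops) (X : 𝒱.Obj)

attribute [local instance] ratAlg

/-- The graded pieces with integral indices. -/
noncomputable def gz (j : ℤ) : Submodule ℚ (NA W X) := if 0 ≤ j then grN W X j.toNat else ⊥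

/-- The intersection form. -/
noncomputable def bN : NA W X →ₗ[ℚ] NA W X →ₗ[ℚ] ℚ :=
  (LinearMap.mul ℚ (NA W X)).compr₂ (degN W X)

variable {W X}

lemma bN_apply (x y : NA W X) : bN W X x y = degN W X (x * y) := rfl

lemma gz_nat (j : ℕ) : gz W X (j : ℤ) = grN W X j := by
  unfold gz
  rw [if_pos (by omega), Int.toNat_natCast]

lemma gz_neg {j : ℤ} (hj : j < 0) : gz W X j = ⊥ := by
  unfold gz
  rw [if_neg (by omega)]

lemma grN_eq_bot {j : ℕ} (hj : X.dim < j) : grN W X j = ⊥ := by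
  rw [eq_bot_iff]
  intro x hx
  obtain ⟨z, hz, rfl⟩ := mem_grN.1 hx
  rw [Submodule.mem_bot]
  have : mkA (W := W) (j := j) ⟨z, hz, rfl⟩ = 0 := Subtype.ext (cl_eq_zero hj hz)
  rw [this, map_zero]

lemma gz_gt {j : ℤ} (hj : (X.dim : ℤ) < j) : gz W X j = ⊥ := by
  obtain ⟨p, rfl⟩ : ∃ p : ℕ, j = p := ⟨j.toNat, by omega⟩
  rw [gz_nat, grN_eq_bot (by omega)]

lemma mem_gz {j : ℤ} {x : NA W X} (hj : 0 ≤ j) : x ∈ gz W X j ↔ x ∈ grN W X j.toNat := by
  unfold gz
  rw [if_pos hj]

/-- The Lefschetz structure on the numerical ring. -/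
lemma lsN {δ : NA W X} (hδ : δ ∈ grN W X 1) :
    LS (X.dim : ℤ) (gz W X) (bN W X) (LinearMap.mulLeft ℚ δ) where
  fin j := by
    by_cases hj : j < 0
    · rw [gz_neg hj]; infer_instance
    · by_cases hj' : (X.dim : ℤ) < j
      · rw [gz_gt hj']; infer_instance
      · obtain ⟨p, rfl⟩ : ∃ p : ℕ, j = p := ⟨j.toNat, by omega⟩
        rw [gz_nat]
        exact finN p (by omega)
  symm x y := by rw [bN_apply, bN_apply, mul_comm]
  adj x y := by
    rw [bN_apply, bN_apply, LinearMap.mulLeft_apply, LinearMap.mulLeft_apply]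
    congr 1
    ring
  map j x hx := by
    by_cases hj : j < 0
    · rw [gz_neg hj, Submodule.mem_bot] at hx
      rw [hx, map_zero]
      exact Submodule.zero_mem _
    · obtain ⟨p, rfl⟩ : ∃ p : ℕ, j = p := ⟨j.toNat, by omega⟩
      rw [gz_nat] at hx
      rw [show ((p : ℤ) + 1) = ((p + 1 : ℕ) : ℤ) by push_cast; rfl, gz_nat,
        LinearMap.mulLeft_apply, mul_comm]
      exact grN_mul hx hδ
  neg j hj := gz_neg hj
  nondeg j x hx h := by
    by_cases hj : j < 0
    · rw [gz_neg hj, Submodule.mem_bot] at hx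
      exact hx
    · by_cases hj' : (X.dim : ℤ) < j
      · rw [gz_gt hj', Submodule.mem_bot] at hx
        exact hx
      · obtain ⟨p, rfl⟩ : ∃ p : ℕ, j = p := ⟨j.toNat, by omega⟩
        rw [gz_nat] at hx
        have hp : X.dim - (X.dim - p) = p := by omega
        apply nondegN (j := X.dim - p) (by omega) (by rw [hp]; exact hx)
        intro y hy
        have h1 := h y (by
          rw [show (X.dim : ℤ) - (p : ℤ) = ((X.dim - p : ℕ) : ℤ) by omega, gz_nat]
          exact hy)
        rw [bN_apply, mul_comm] at h1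
        exact h1

section pushpull

variable {Y Z : 𝒱.Obj} (f : Z ⟶ X)

lemma push_eq_zero {p : ℕ} {a : W.H Z} (ha : a ∈ W.gr Z (2 * p)) (h : p + X.dim < Z.dim) :
    W.push f a = 0 := by
  apply W.nondeg
  intro b
  rw [W.tr_push]
  refine gr_induction (W.isInternal X) (p := fun b => W.tr Z (a * W.map f b) = 0) ?_ ?_ b
  · intro t b hb
    by_cases ht : 2 * X.dim < t
    · rw [W.gr_eq_bot X t ht, Submodule.mem_bot] at hb
      rw [hb, map_zero, mul_zero, map_zero]
    · exact W.tr_eq_zero (W.mul_mem ha (W.map_mem f hb)) (by omega)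
  · intro c d hc hd
    rw [map_add, mul_add, map_add, hc, hd, add_zero]

lemma push_adjoin {a : W.H Z} (ha : a ∈ Algebra.adjoin ℚ (algSet W Z)) :
    W.push f a ∈ Algebra.adjoin ℚ (algSet W X) := by
  have key : ∀ a : AQ W Z, W.push f (a : W.H Z) ∈ Algebra.adjoin ℚ (algSet W X) := by
    intro a
    refine AQ_induction (p := fun a : AQ W Z =>
      W.push f (a : W.H Z) ∈ Algebra.adjoin ℚ (algSet W X)) ?_ ?_ ?_ a
    · intro j z hz
      show W.push f (W.cl Z z) ∈ _
      by_cases hj : j + X.dim < Z.dim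
      · rw [push_eq_zero f (W.cl_mem hz) hj]
        exact Subalgebra.zero_mem _
      · exact Algebra.subset_adjoin (Set.mem_iUnion.2 ⟨j + X.dim - Z.dim,
          alg_push f ⟨z, hz, rfl⟩ (by omega)⟩)
    · intro a b ha hb
      rw [Subalgebra.coe_add, map_add]
      exact Subalgebra.add_mem _ ha hb
    · intro q a ha
      rw [coe_smul', map_smul]
      exact Subalgebra.smul_mem _ ha q
  exact key ⟨a, ha⟩

variable (W)

/-- Push-forward of the rings. -/
noncomputable def pushA : AQ W Z →ₗ[ℚ] AQ W X where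
  toFun a := ⟨W.push f (a : W.H Z), push_adjoin f a.2⟩
  map_add' a b := by
    apply Subtype.ext
    show W.push f ((a + b : AQ W Z) : W.H Z) = _
    rw [Subalgebra.coe_add, map_add]
    rfl
  map_smul' q a := by
    apply Subtype.ext
    show W.push f ((q • a : AQ W Z) : W.H Z) = _
    rw [coe_smul', map_smul]
    rfl

variable {W}

lemma pushA_coe (a : AQ W Z) : (pushA W f a : W.H X) = W.push f (a : W.H Z) := rfl

lemma degQ_push (a : AQ W Z) (b : AQ W X) :
    degQ W X (pushA W f a * b) = degQ W Z (a * resA W f b) := by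
  rw [degQ_apply, degQ_apply]
  congr 1
  exact W.tr_push f _ _

lemma pushA_mul (a : AQ W Z) (b : AQ W X) : pushA W f a * b = pushA W f (a * resA W f b) := by
  apply Subtype.ext
  apply W.tr_ext
  intro c
  show W.tr X (W.push f (a : W.H Z) * (b : W.H X) * c) =
    W.tr X (W.push f ((a : W.H Z) * W.map f (b : W.H X)) * c)
  rw [mul_assoc, W.tr_push, W.tr_push, map_mul (W.map f), mul_assoc]

lemma res_numI {a : AQ W X} (ha : a ∈ numI W X) : resA W f a ∈ numI W Z := by
  intro b
  rw [mul_comm, ← degQ_push, mul_comm]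
  exact ha _

lemma push_numI {a : AQ W Z} (ha : a ∈ numI W Z) : pushA W f a ∈ numI W X := by
  intro b
  rw [degQ_push]
  exact ha _

variable (W)

/-- Pull-back of the numerical rings. -/
noncomputable def pullN : NA W X →ₐ[ℚ] NA W Z :=
  Ideal.quotientMapₐ (numI W Z) (resA W f) (fun _ ha => res_numI f ha)

/-- Push-forward of the numerical rings. -/
noncomputable def pushN : NA W Z →ₗ[ℚ] NA W X :=
  (((numI W Z).restrictScalars ℚ).liftQ ((mkN W X).toLinearMap ∘ₗ pushA W f) (by
    intro a ha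
    exact mkN_eq_zero.2 (push_numI f ha))) ∘ₗ
      (Submodule.Quotient.restrictScalarsEquiv ℚ (numI W Z)).symm.toLinearMap

variable {W}

lemma pullN_mk (a : AQ W X) : pullN W f (mkN W X a) = mkN W Z (resA W f a) := rfl

lemma pushN_mk (a : AQ W Z) : pushN W f (mkN W Z a) = mkN W X (pushA W f a) := rfl

/-- The projection formula. -/
lemma pushN_mul (x : NA W Z) (y : NA W X) : pushN W f x * y = pushN W f (x * pullN W f y) := by
  obtain ⟨a, rfl⟩ := mkN_surj x
  obtain ⟨b, rfl⟩ := mkN_surj y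
  rw [pullN_mk, pushN_mk, ← map_mul, ← map_mul, pushN_mk, pushA_mul]

lemma degN_push (x : NA W Z) : degN W X (pushN W f x) = degN W Z x := by
  obtain ⟨a, rfl⟩ := mkN_surj x
  rw [pushN_mk, degN_mk, degN_mk]
  have := degQ_push f a 1
  rw [mul_one, map_one, mul_one] at this
  exact this

lemma pullN_comp (g : X ⟶ Y) (y : NA W Y) : pullN W (f ≫ g) y = pullN W f (pullN W g y) := by
  obtain ⟨b, rfl⟩ := mkN_surj y
  rw [pullN_mk, pullN_mk, pullN_mk]
  congr 1
  exact Subtype.ext (W.map_comp f g _)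

lemma pullN_mem {j : ℕ} {x : NA W X} (hx : x ∈ grN W X j) : pullN W f x ∈ grN W Z j := by
  obtain ⟨z, hz, rfl⟩ := mem_grN.1 hx
  refine mem_grN.2 ⟨ops.pull f z, ops.pull_mem f hz, ?_⟩
  rw [pullN_mk]
  congr 1
  exact Subtype.ext (W.cl_pull f z)

lemma pushN_mem {j l : ℕ} {x : NA W Z} (hx : x ∈ grN W Z j) (h : j + X.dim = l + Z.dim) :
    pushN W f x ∈ grN W X l := by
  obtain ⟨z, hz, rfl⟩ := mem_grN.1 hx
  refine mem_grN.2 ⟨ops.push f z, ops.push_mem f hz h, ?_⟩
  rw [pushN_mk]
  congr 1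
  exact Subtype.ext (W.cl_push f z)

lemma pushN_zero {j : ℕ} {x : NA W Z} (hx : x ∈ grN W Z j) (h : j + X.dim < Z.dim) :
    pushN W f x = 0 := by
  obtain ⟨z, hz, rfl⟩ := mem_grN.1 hx
  rw [pushN_mk]
  have : pushA W f (mkA (W := W) (j := j) ⟨z, hz, rfl⟩) = 0 :=
    Subtype.ext (push_eq_zero f (W.cl_mem hz) h)
  rw [this, map_zero]

end pushpull

lemma one_memN : (1 : NA W X) ∈ grN W X 0 := by
  refine mem_grN.2 ⟨X.V.fundCycle, X.V.fundCycle_mem, ?_⟩
  have : mkA (W := W) (j := 0) ⟨X.V.fundCycle, X.V.fundCycle_mem, rfl⟩ = 1 :=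
    Subtype.ext (W.cl_fund X)
  rw [this, map_one]

lemma powN_mem {x : NA W X} (hx : x ∈ grN W X 1) (r : ℕ) : x ^ r ∈ grN W X r := by
  induction r with
  | zero => rw [pow_zero]; exact one_memN
  | succ r ih => rw [pow_succ]; exact grN_mul ih hx

/-- The ring is spanned by its graded pieces. -/
lemma NA_induction {p : NA W X → Prop} (h1 : ∀ (j : ℕ), ∀ x ∈ grN W X j, p x)
    (h2 : ∀ a b, p a → p b → p (a + b)) (x : NA W X) : p x := by
  obtain ⟨a, rfl⟩ := mkN_surj x
  have key : ∀ a : AQ W X, ∀ q : ℚ, p (mkN W X (q • a)) := by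
    intro a
    refine AQ_induction (p := fun a : AQ W X => ∀ q : ℚ, p (mkN W X (q • a))) ?_ ?_ ?_ a
    · intro j z hz q
      rw [map_smul]
      exact h1 j _ (Submodule.smul_mem _ _ (mem_grN.2 ⟨z, hz, rfl⟩))
    · intro a b ha hb q
      rw [smul_add, map_add]
      exact h2 _ _ (ha q) (hb q)
    · intro q a ha q'
      rw [smul_smul]
      exact ha _
  have := key a 1
  rwa [one_smul] at this

end Pool.Agent.H90.BU.Geo
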