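import Pool.Agent.H90.BU.GeoA

/-!
# Blow-ups: the numerical rings
-/

open CategoryTheory AlgebraicGeometry

set_option autoImplicit false
set_option linter.unusedSectionVars false

universe u v

namespace Pool.Agent.H90.BU.Geo

open Pool.Agent.H914 Pool.Agent.H447 VarClass Obj WeilCohomology
open Pool.Agent.R910.Mix (ratAlg algSet AQ retr AQj mkA degQ degQ_apply resA resA_coe coe_smul')
open Pool.Agent.R910.Num (numI NA mkN degN grN mem_grN mem_numI mkN_surj mkN_eq_zero degN_mk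
  AQ_induction cl_eq_zero numI_iff grN_mul nondegN finN coe_pow_mul)
open Pool.Agent.R910.Dom (alg_zero alg_add alg_smul alg_sub alg_mul alg_map alg_push)

variable {k : Type u} [Field k] {𝒱 : VarClass k} {ops : CycleOps 𝒱}
  (W : WeilCohomology.{u, v} ops) (X : 𝒱.Obj)

attribute [local instance] ratAlg

/-- The numerical class of a cycle. -/
noncomputable def cN {j : ℕ} {z : X.Cycles} (hz : X.IsCyc j z) : NA W X :=
  mkN W X (mkA (W := W) ⟨z, hz, rfl⟩)

variable {W X}

lemma cN_mem {j : ℕ} {z : X.Cycles} (hz : X.IsCyc j z) : cN W X hz ∈ grN W X j :=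
  mem_grN.2 ⟨z, hz, rfl⟩

lemma cN_congr {j l : ℕ} {z w : X.Cycles} (hz : X.IsCyc j z) (hw : X.IsCyc l w)
    (h : W.cl X z = W.cl X w) : cN W X hz = cN W X hw := by
  unfold cN
  congr 1
  exact Subtype.ext h

lemma cN_mk {j : ℕ} {z : X.Cycles} (hz : X.IsCyc j z) {a : AQ W X}
    (h : (a : W.H X) = W.cl X z) : mkN W X a = cN W X hz := by
  unfold cN
  congr 1
  exact Subtype.ext h

variable {Z T F : 𝒱.Obj} {i : Z ⟶ X} {π : T ⟶ X} {j : F ⟶ T} {g : F ⟶ Z} {m : ℕ}

section

variable (H : IsBlowup W i π j g (m + 1))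
include H

lemma exc_cyc : T.IsCyc 1 (exc ops j) := by
  have := ops.push_mem j (q := 1) F.V.fundCycle_mem (by
    have h1 := H.dims.1
    have h2 := H.dims.2
    have h3 := H.codim.2
    omega)
  exact this

/-- The class of the exceptional divisor. -/
noncomputable def εN : NA W T := cN W T (exc_cyc H)

/-- Its restriction. -/
noncomputable def ζN : NA W F := pullN W j (εN H)

lemma εN_mem : εN H ∈ grN W T 1 := cN_mem _

lemma ζN_mem : ζN H ∈ grN W F 1 := pullN_mem j (εN_mem H)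

lemma εN_eq : εN H = pushN W j 1 := by
  have h1 : (1 : NA W F) = mkN W F 1 := (map_one _).symm
  rw [h1, pushN_mk]
  symm
  apply cN_mk
  rw [pushA_coe]
  show W.push j 1 = W.cl T (ops.push j F.V.fundCycle)
  rw [W.cl_push, W.cl_fund]

lemma ζN_pow (s : ℕ) : ∃ a : AQ W F, ζN H ^ s = mkN W F a ∧ (a : W.H F) = zeta W j ^ s := by
  refine ⟨(resA W j (mkA (W := W) ⟨exc ops j, exc_cyc H, rfl⟩)) ^ s, ?_, ?_⟩
  · rw [map_pow]; rfl
  · rw [SubmonoidClass.coe_pow]; rfl

lemma self_int (y : NA W F) : pullN W j (pushN W j y) = ζN H * y := by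
  obtain ⟨a, rfl⟩ := mkN_surj y
  rw [pushN_mk, pullN_mk]
  have h1 : ζN H = mkN W F (resA W j (mkA (W := W) ⟨exc ops j, exc_cyc H, rfl⟩)) := rfl
  rw [h1, ← map_mul]
  congr 1
  apply Subtype.ext
  exact H.selfInt (a : W.H F)

lemma push_pow_lt {s : ℕ} (hs : s < m + 1) : pushN W g (ζN H ^ s) = 0 := by
  apply pushN_zero g (powN_mem (ζN_mem H) s)
  have h2 := H.dims.2
  omega

lemma push_pow_eq : pushN W g (ζN H ^ (m + 1)) = (-1) ^ (m + 1) := by
  obtain ⟨a, ha, ha'⟩ := ζN_pow H (m + 1)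
  rw [ha, pushN_mk]
  have h1 : pushA W g a = (-1) ^ (m + 1) := by
    apply Subtype.ext
    rw [pushA_coe, ha']
    have := H.segre
    unfold SegreFormula at this
    rw [this, SubmonoidClass.coe_pow]
    rfl
  rw [h1, map_pow, map_neg, map_one]

lemma push_π : pushN W π (1 : NA W T) = 1 := by
  have h1 : (1 : NA W T) = mkN W T 1 := (map_one _).symm
  rw [h1, pushN_mk]
  have h2 : pushA W π (1 : AQ W T) = 1 := by
    apply Subtype.ext
    rw [pushA_coe]
    show W.push π 1 = 1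
    have := H.birational
    rw [W.cl_push, W.cl_fund, W.cl_fund] at this
    exact this
  rw [h2, map_one]

lemma comm_pull (x : NA W X) : pullN W j (pullN W π x) = pullN W g (pullN W i x) := by
  rw [← pullN_comp, ← pullN_comp, H.comm]

/-- The maps into the numerical ring of the blow-up. -/
noncomputable def eN (r : ℕ) : NA W Z →ₗ[ℚ] NA W T :=
  pushN W j ∘ₗ LinearMap.mulRight ℚ (ζN H ^ r) ∘ₗ (pullN W g).toLinearMap

lemma eN_apply (r : ℕ) (w : NA W Z) : eN H r w = pushN W j (pullN W g w * ζN H ^ r) := rfl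

lemma deg_e (r q : ℕ) (w w' : NA W Z) : degN W T (eN H r w * eN H q w') =
    degN W Z (w * w' * pushN W g (ζN H ^ (r + q + 1))) := by
  rw [eN_apply, eN_apply, pushN_mul, degN_push, self_int H, mul_comm (w * w'), pushN_mul,
    degN_push, map_mul (pullN W g)]
  congr 1
  ring

lemma deg_Pe (x : NA W X) (r : ℕ) (w : NA W Z) : degN W T (pullN W π x * eN H r w) =
    degN W Z (w * pullN W i x * pushN W g (ζN H ^ r)) := by
  rw [eN_apply, mul_comm (pullN W π x), pushN_mul, degN_push, comm_pull H,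
    mul_comm (w * pullN W i x), pushN_mul, degN_push, map_mul (pullN W g)]
  congr 1
  ring

lemma eN_mem {r p : ℕ} {w : NA W Z} (hw : w ∈ grN W Z p) : eN H r w ∈ grN W T (p + r + 1) := by
  rw [eN_apply]
  apply pushN_mem j (grN_mul (pullN_mem g hw) (powN_mem (ζN_mem H) r))
  have h1 := H.dims.1
  have h2 := H.dims.2
  have h3 := H.codim.2
  omega

lemma phi_mem {p : ℤ} {u : NA W X × (Fin (m + 1) → NA W Z)}
    (hu : u ∈ smG (gz W X) (spG (gz W Z) m) p) :
    Phi (pullN W π).toLinearMap (eN H) u ∈ gz W T p := by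
  rw [mem_smG] at hu
  obtain ⟨h1, h2⟩ := hu
  rw [mem_spG] at h2
  rw [Phi_apply]
  apply Submodule.add_mem
  · by_cases hp : p < 0
    · rw [gz_neg hp, Submodule.mem_bot] at h1
      rw [h1, map_zero]
      exact Submodule.zero_mem _
    · rw [mem_gz (by omega)] at h1 ⊢
      exact pullN_mem π h1
  · apply Submodule.sum_mem
    intro r _
    have h3 := h2 r
    by_cases hp : p - 1 - (r : ℕ) < 0
    · rw [gz_neg hp, Submodule.mem_bot] at h3
      rw [h3, map_zero]
      exact Submodule.zero_mem _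
    · rw [mem_gz (by omega)] at h3
      rw [mem_gz (by omega)]
      have h4 := eN_mem H (r := (r : ℕ)) h3
      rwa [show (p - 1 - ((r : ℕ) : ℤ)).toNat + (r : ℕ) + 1 = p.toNat by omega] at h4

lemma phi_surj_gr {p : ℤ} {u : NA W T} (hu : u ∈ gz W T p) :
    ∃ v ∈ smG (gz W X) (spG (gz W Z) m) p, Phi (pullN W π).toLinearMap (eN H) v = u := by
  by_cases hp : p < 0
  · rw [gz_neg hp, Submodule.mem_bot] at hu
    exact ⟨0, Submodule.zero_mem _, by rw [map_zero, hu]⟩
  · obtain ⟨l, rfl⟩ : ∃ l : ℕ, p = l := ⟨p.toNat, by omega⟩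
    rw [gz_nat] at hu
    obtain ⟨z, hz, rfl⟩ := mem_grN.1 hu
    obtain ⟨x, hx, y, hy, hcl⟩ := H.generated l z hz
    -- the classes
    have hA : ∀ r : Fin (m + 1), ∃ a : AQ W Z, (a : W.H Z) = W.cl Z (y r) ∧
        mkN W Z a ∈ gz W Z ((l : ℤ) - 1 - (r : ℕ)) := by
      intro r
      rcases hy r with ⟨h1, h2⟩ | h1
      · refine ⟨mkA (W := W) ⟨y r, h2, rfl⟩, rfl, ?_⟩
        rw [show ((l : ℤ) - 1 - ((r : ℕ) : ℤ)) = ((l - 1 - (r : ℕ) : ℕ) : ℤ) by omega, gz_nat]
        exact mem_grN.2 ⟨_, h2, rfl⟩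
      · refine ⟨0, ?_, ?_⟩
        · rw [h1, map_zero]; rfl
        · rw [map_zero]; exact Submodule.zero_mem _
    choose a ha ha' using hA
    refine ⟨(cN W X hx, fun r => mkN W Z (a r)), ?_, ?_⟩
    · rw [mem_smG, mem_spG]
      refine ⟨?_, ha'⟩
      show cN W X hx ∈ gz W X (l : ℤ)
      rw [gz_nat]
      exact cN_mem hx
    · rw [Phi_apply]
      have h1 : ∀ r : Fin (m + 1), ∃ b : AQ W T, eN H r (mkN W Z (a r)) = mkN W T b ∧
          (b : W.H T) = W.push j (W.map g (W.cl Z (y r)) * zeta W j ^ (r : ℕ)) := by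
        intro r
        obtain ⟨c, hc, hc'⟩ := ζN_pow H (r : ℕ)
        refine ⟨pushA W j (resA W g (a r) * c), ?_, ?_⟩
        · rw [eN_apply, hc, pullN_mk, ← map_mul, pushN_mk]
        · rw [pushA_coe, ← ha r, ← hc']
          rfl
      choose b hb hb' using h1
      have h2 : (pullN W π).toLinearMap (cN W X hx) =
          mkN W T (resA W π (mkA (W := W) ⟨x, hx, rfl⟩)) := rfl
      show (pullN W π).toLinearMap (cN W X hx) + ∑ r : Fin (m + 1), eN H r (mkN W Z (a r)) = _
      rw [h2, Finset.sum_congr rfl (fun r _ => hb r), ← map_sum, ← map_add]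
      congr 1
      apply Subtype.ext
      show _ = W.cl T z
      rw [hcl]
      unfold blowSum
      rw [Subalgebra.coe_add, AddSubmonoidClass.coe_finsetSum, Finset.sum_congr rfl
        (fun r _ => hb' r)]
      rfl

lemma phi_surj : Function.Surjective (Phi (m := m) (pullN W π).toLinearMap (eN H)) := by
  intro u
  refine NA_induction (p := fun u => ∃ v, Phi (m := m) (pullN W π).toLinearMap (eN H) v = u)
    ?_ ?_ u
  · intro l x hx
    obtain ⟨v, _, hv⟩ := phi_surj_gr H (p := (l : ℤ)) (by rw [gz_nat]; exact hx)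
    exact ⟨v, hv⟩
  · rintro _ _ ⟨v, rfl⟩ ⟨v', rfl⟩
    exact ⟨v + v', map_add _ _ _⟩

end

end Pool.Agent.H90.BU.Geo
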