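import Pool.Agent.H90.BU.GeoB

/-!
# Blow-ups: the blow-up datum
-/

open CategoryTheory AlgebraicGeometry

set_option autoImplicit false
set_option linter.unusedSectionVars false

universe u v

namespace Pool.Agent.H90.BU.Geo

open Pool.Agent.H914 Pool.Agent.H447 VarClass Obj WeilCohomology
open Pool.Agent.R910.Mix (ratAlg algSet AQ retr AQj mkA degQ degQ_apply resA resA_coe coe_smul')
open Pool.Agent.R910.Num (numI NA mkN degN grN mem_grN mem_numI mkN_surj mkN_eq_zero degN_mk
  AQ_induction cl_eq_zero numI_iff grN_mul nondegN finN coe_pow_mul)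

lemma sign_smul {A : Type*} [CommRing A] [Algebra ℚ A] (s : ℕ) (x : A) :
    x * (-1) ^ s = ((-1 : ℚ) ^ s) • x := by
  rcases Nat.even_or_odd s with h | h
  · rw [h.neg_one_pow, h.neg_one_pow, mul_one, one_smul]
  · rw [h.neg_one_pow, h.neg_one_pow, mul_neg, mul_one, neg_smul, one_smul]

variable {k : Type u} [Field k] {𝒱 : VarClass k} {ops : CycleOps 𝒱}
  {W : WeilCohomology.{u, v} ops}

attribute [local instance] ratAlg

variable {X Z T F : 𝒱.Obj} {i : Z ⟶ X} {π : T ⟶ X} {j : F ⟶ T} {g : F ⟶ Z} {m : ℕ}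

variable (H : IsBlowup W i π j g (m + 1))
include H

/-- **The blow-up datum on the numerical rings.** -/
theorem exists_blow {δ : NA W X} (hδ : δ ∈ grN W X 1) :
    ∃ (a : NA W Z →ₗ[ℚ] NA W X) (b : ℕ → NA W Z →ₗ[ℚ] NA W Z),
      Blow (X.dim : ℤ) m (gz W X) (bN W X) (LinearMap.mulLeft ℚ δ)
        (gz W Z) (bN W Z) (LinearMap.mulLeft ℚ (pullN W i δ)) (gz W T) (bN W T)
        (LinearMap.mulLeft ℚ (pullN W π δ)) (LinearMap.mulLeft ℚ (εN H))
        (pullN W π).toLinearMap (eN H) (pullN W i).toLinearMap a b := by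
  have hd := H.dims.1
  have hd' := H.dims.2
  have hc := H.codim.2
  obtain ⟨σ, hσ⟩ := (Phi (m := m) (pullN W π).toLinearMap (eN H)).exists_rightInverse_of_surjective
    (LinearMap.range_eq_top.2 (phi_surj H))
  refine ⟨LinearMap.fst ℚ _ _ ∘ₗ σ ∘ₗ eN H (m + 1), fun r =>
    if hr : r < m + 1 then LinearMap.proj ⟨r, hr⟩ ∘ₗ LinearMap.snd ℚ (NA W X)
      (Fin (m + 1) → NA W Z) ∘ₗ σ ∘ₗ eN H (m + 1) else 0, ?_⟩
  constructor
  · exact lsN hδ
  · have h1 := lsN (pullN_mem i hδ) (W := W) (X := Z)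
    rwa [show (Z.dim : ℤ) = (X.dim : ℤ) - 2 - (m : ℤ) by omega] at h1
  · intro t
    have h1 := lsN (W := W) (X := T) (δ := pullN W π δ - t • εN H)
      (Submodule.sub_mem _ (pullN_mem π hδ) (Submodule.smul_mem _ _ (εN_mem H)))
    rw [show (T.dim : ℤ) = (X.dim : ℤ) by omega] at h1
    have h2 : LinearMap.mulLeft ℚ (pullN W π δ - t • εN H) =
        LinearMap.mulLeft ℚ (pullN W π δ) - t • LinearMap.mulLeft ℚ (εN H) := by
      refine LinearMap.ext fun x => ?_
      show (pullN W π δ - t • εN H) * x = pullN W π δ * x - t • (εN H * x)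
      rw [sub_mul, smul_mul_assoc]
    rwa [h2] at h1
  · intro x
    show pullN W π δ * pullN W π x = pullN W π (δ * x)
    rw [map_mul]
  · intro x
    show εN H * pullN W π x = eN H 0 (pullN W i x)
    rw [eN_apply, pow_zero, mul_one, ← comm_pull H, εN_eq H, pushN_mul, one_mul]
  · intro r w _
    show pullN W π δ * eN H r w = eN H r (pullN W i δ * w)
    rw [eN_apply, eN_apply, mul_comm, pushN_mul, comm_pull H, map_mul (pullN W g)]
    congr 1
    ring
  · intro r w _
    show εN H * eN H r w = eN H (r + 1) w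
    rw [eN_apply, eN_apply, mul_comm, pushN_mul, pow_succ, ← mul_assoc]
    rfl
  · intro w
    have h1 := LinearMap.congr_fun hσ (eN H (m + 1) w)
    rw [LinearMap.comp_apply, Phi_apply] at h1
    rw [LinearMap.id_apply] at h1
    rw [← h1]
    congr 1
    apply Finset.sum_congr rfl
    intro r _
    rw [dif_pos r.2]
    rfl
  · intro x y
    show degN W T (pullN W π x * pullN W π y) = degN W X (x * y)
    rw [← map_mul, ← one_mul (pullN W π (x * y)), ← degN_push π, ← pushN_mul, push_π H, one_mul]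
  · intro x r w hr
    show degN W T (pullN W π x * eN H r w) = 0
    rw [deg_Pe, push_pow_lt H (by omega), mul_zero, map_zero]
  · intro r q w w' hrq
    show degN W T (eN H r w * eN H q w') = 0
    rw [deg_e, push_pow_lt H (by omega), mul_zero, map_zero]
  · intro r q w w' hrq
    show degN W T (eN H r w * eN H q w') = (-1) ^ (m + 1) * degN W Z (w * w')
    rw [deg_e, hrq, push_pow_eq H]
    have h1 : w * w' * (-1 : NA W Z) ^ (m + 1) = ((-1 : ℚ) ^ (m + 1)) • (w * w') := by
      exact sign_smul (m + 1) (w * w')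
    rw [h1, map_smul, smul_eq_mul]
  · intro p
    apply le_antisymm
    · rintro _ ⟨u, hu, rfl⟩
      exact phi_mem H hu
    · intro u hu
      obtain ⟨v, hv, hvu⟩ := phi_surj_gr H hu
      exact ⟨v, hv, hvu⟩


end Pool.Agent.H90.BU.Geo
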