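import Pool.Agent.H90.BU.GeoC

/-!
# Translation of the numerical statements
-/

open CategoryTheory AlgebraicGeometry

set_option autoImplicit false
set_option linter.unusedSectionVars false

universe u v

namespace Pool.Agent.H90.BU.Geo

open Pool.Agent.H914 Pool.Agent.H447 VarClass Obj WeilCohomology Module
open Pool.Agent.R910.Mix (ratAlg algSet AQ retr AQj mkA degQ degQ_apply resA resA_coe coe_smul')
open Pool.Agent.R910.Num (numI NA mkN degN grN mem_grN mem_numI mkN_surj mkN_eq_zero degN_mk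
  AQ_induction cl_eq_zero numI_iff grN_mul nondegN finN coe_pow_mul degQ_mk_mul)

variable {k : Type u} [Field k] {𝒱 : VarClass k} {ops : CycleOps 𝒱}
  {W : WeilCohomology.{u, v} ops} {X : 𝒱.Obj}

attribute [local instance] ratAlg

lemma cN_eq_zero {p : ℕ} {z : X.Cycles} (hz : X.IsCyc p z) :
    cN W X hz = 0 ↔ NumZero ops X p z := by
  unfold cN
  rw [mkN_eq_zero]
  exact numI_iff hz

lemma cN_sub {p : ℕ} {z w : X.Cycles} (hz : X.IsCyc p z) (hw : X.IsCyc p w)
    (hzw : X.IsCyc p (z - w)) : cN W X hzw = cN W X hz - cN W X hw := by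
  unfold cN
  rw [← map_sub]
  congr 1
  exact Subtype.ext (map_sub (W.cl X) z w)

lemma divPow_cyc {D : X.Cycles} (hD : X.IsCyc 1 D) {p q : ℕ} {z : X.Cycles} (hz : X.IsCyc p z)
    (m : ℕ) (h : p + m = q) : X.IsCyc q (divPow ops D m z) := by
  have := divPow_mem (ops := ops) hD m hz
  rwa [h] at this

lemma mulLeft_pow_apply {A : Type*} [CommRing A] [Algebra ℚ A] (δ x : A) (m : ℕ) :
    ((LinearMap.mulLeft ℚ δ) ^ m) x = δ ^ m * x := by
  rw [LinearMap.pow_mulLeft, LinearMap.mulLeft_apply]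

lemma cN_divPow {D : X.Cycles} (hD : X.IsCyc 1 D) {p q : ℕ} {z : X.Cycles} (hz : X.IsCyc p z)
    (m : ℕ) (h : p + m = q) : ((LinearMap.mulLeft ℚ (cN W X hD)) ^ m) (cN W X hz) =
      cN W X (divPow_cyc (ops := ops) hD hz m h) := by
  have h0 : ((LinearMap.mulLeft ℚ (cN W X hD)) ^ m) (cN W X hz) =
      mkN W X ((mkA (W := W) ⟨D, hD, rfl⟩) ^ m * (mkA (W := W) ⟨z, hz, rfl⟩)) := by
    rw [map_mul, map_pow]
    exact mulLeft_pow_apply _ _ _
  rw [h0]
  apply cN_mk
  exact coe_pow_mul rfl m z _ rfl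

lemma bN_cN {p q : ℕ} {z w : X.Cycles} (hz : X.IsCyc p z) (hw : X.IsCyc q w)
    (h : p + q = X.dim) : bN W X (cN W X hz) (cN W X hw) = X.V.degCycle (ops.mul z w) := by
  rw [bN_apply]
  unfold cN
  rw [← map_mul, degN_mk, degQ_mk_mul hz hw h]

lemma mem_gz_iff {p : ℕ} {x : NA W X} :
    x ∈ gz W X (p : ℤ) ↔ ∃ z, ∃ hz : X.IsCyc p z, cN W X hz = x := by
  rw [gz_nat, mem_grN]
  rfl

section

variable {D : X.Cycles} (hD : X.IsCyc 1 D)
include hD

lemma HL_of (h : NumLefschetz ops X D) :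
    HL (X.dim : ℤ) (gz W X) (LinearMap.mulLeft ℚ (cN W X hD)) := by
  intro j a hja x hx h0
  by_cases hj : j < 0
  · rw [gz_neg hj, Submodule.mem_bot] at hx
    exact hx
  · obtain ⟨p, rfl⟩ : ∃ p : ℕ, j = p := ⟨j.toNat, by omega⟩
    obtain ⟨z, hz, rfl⟩ := mem_gz_iff.1 hx
    have ha : a = X.dim - 2 * p := by omega
    subst ha
    rw [cN_divPow hD hz (X.dim - 2 * p) (q := X.dim - p) (by omega), cN_eq_zero] at h0
    rw [cN_eq_zero]
    exact (h p (by omega)).1 z hz h0

lemma NumLefschetz_of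
    (h : HL (X.dim : ℤ) (gz W X) (LinearMap.mulLeft ℚ (cN W X hD))) : NumLefschetz ops X D := by
  intro p hp
  constructor
  · intro z hz h0
    rw [← cN_eq_zero (W := W) hz]
    apply h (p : ℤ) (X.dim - 2 * p) (by omega) _ (mem_gz_iff.2 ⟨z, hz, rfl⟩)
    rw [cN_divPow hD hz (X.dim - 2 * p) (q := X.dim - p) (by omega), cN_eq_zero]
    exact h0
  · intro z' hz'
    have S := lsN (W := W) (X := X) (cN_mem (W := W) hD)
    have h1 : cN W X hz' ∈ gz W X ((p : ℤ) + ((X.dim - 2 * p : ℕ) : ℤ)) := by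
      rw [show (p : ℤ) + ((X.dim - 2 * p : ℕ) : ℤ) = ((X.dim - p : ℕ) : ℤ) by omega]
      exact mem_gz_iff.2 ⟨z', hz', rfl⟩
    obtain ⟨x, hx, hxy⟩ := S.surj h (j := (p : ℤ)) (a := X.dim - 2 * p) (by omega) h1
    obtain ⟨z, hz, rfl⟩ := mem_gz_iff.1 hx
    refine ⟨z, hz, ?_⟩
    rw [cN_divPow hD hz (X.dim - 2 * p) (q := X.dim - p) (by omega)] at hxy
    have h2 := divPow_cyc (ops := ops) hD hz (X.dim - 2 * p) (q := X.dim - p) (by omega)
    have h3 : X.IsCyc (X.dim - p) (divPow ops D (X.dim - 2 * p) z - z') := by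
      rw [sub_eq_add_neg]
      have := hz'.smul (-1)
      rw [neg_smul, one_smul] at this
      exact h2.add this
    rw [← cN_eq_zero (W := W) h3, cN_sub h2 hz', hxy, sub_self]

lemma prim_iff {p : ℕ} (hp : 2 * p ≤ X.dim) {z : X.Cycles} (hz : X.IsCyc p z) :
    cN W X hz ∈ prim (X.dim : ℤ) (gz W X) (LinearMap.mulLeft ℚ (cN W X hD)) (p : ℤ) ↔
      IsPrimitive ops X D p z := by
  rw [mem_prim (a := X.dim - 2 * p) (by omega),
    cN_divPow hD hz (X.dim - 2 * p + 1) (q := X.dim - p + 1) (by omega), cN_eq_zero]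
  constructor
  · rintro ⟨_, h⟩
    exact ⟨hp, hz, h⟩
  · rintro ⟨_, _, h⟩
    exact ⟨mem_gz_iff.2 ⟨z, hz, rfl⟩, h⟩

lemma form_eq {p : ℕ} (hp : 2 * p ≤ X.dim) {z : X.Cycles} (hz : X.IsCyc p z) :
    (sg (p : ℤ) • qf (bN W X) (LinearMap.mulLeft ℚ (cN W X hD)) (X.dim - 2 * p))
      (cN W X hz) (cN W X hz) = hodgeForm ops X D p z := by
  rw [LinearMap.smul_apply, LinearMap.smul_apply, qf_apply,
    cN_divPow hD hz (X.dim - 2 * p) (q := X.dim - p) (by omega), bN_cN hz _ (by omega),
    sg_natCast, smul_eq_mul]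
  rfl

lemma HRat_iff' {p : ℕ} (hp : 2 * p ≤ X.dim) :
    HRat (X.dim : ℤ) (gz W X) (bN W X) (LinearMap.mulLeft ℚ (cN W X hD)) (p : ℤ) ↔
      HodgeTypeIn ops X D p := by
  constructor
  · intro h z hz hne
    have h1 := (mem_prim (a := X.dim - 2 * p) (by omega)).1 ((prim_iff (W := W) hD hp hz.2.1).2 hz)
    have h2 := h (X.dim - 2 * p) (by omega) _ h1.1 h1.2 (fun h0 => hne ((cN_eq_zero _).1 h0))
    rw [← form_eq (W := W) hD hp hz.2.1]
    exact h2
  · intro h a ha x hx h0 hne
    obtain ⟨z, hz, rfl⟩ := mem_gz_iff.1 hx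
    have ha' : a = X.dim - 2 * p := by omega
    subst ha'
    have h1 : IsPrimitive ops X D p z := (prim_iff (W := W) hD hp hz).1
      ((mem_prim (a := X.dim - 2 * p) (by omega)).2 ⟨hx, h0⟩)
    have h2 := h z h1 (fun h0 => hne ((cN_eq_zero _).2 h0))
    rw [← form_eq (W := W) hD hp hz] at h2
    exact h2

lemma HRat_iff_all {p : ℕ} :
    HRat (X.dim : ℤ) (gz W X) (bN W X) (LinearMap.mulLeft ℚ (cN W X hD)) (p : ℤ) ↔
      HodgeTypeIn ops X D p := by
  by_cases hp : 2 * p ≤ X.dim
  · exact HRat_iff' hD hp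
  · constructor
    · intro _ z hz
      exact absurd hz.1 hp
    · intro _
      exact HRat_of_gt (by omega)

omit hD in
lemma isCyc_sum {p : ℕ} {m : ℕ} {z : Fin m → X.Cycles} (hz : ∀ i, X.IsCyc p (z i))
    (c : Fin m → ℚ) : X.IsCyc p (∑ i, c i • z i) := by
  have key : ∀ s : Finset (Fin m), X.IsCyc p (∑ i ∈ s, c i • z i) := by
    intro s
    induction s using Finset.cons_induction with
    | empty =>
      rw [Finset.sum_empty]
      exact SmVar.IsCyc.zero _ _
    | cons a s ha ih =>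
      rw [Finset.sum_cons]
      exact ((hz a).smul (c a)).add ih
  exact key _

omit hD in
lemma cN_sum {p : ℕ} {m : ℕ} {z : Fin m → X.Cycles} (hz : ∀ i, X.IsCyc p (z i))
    (c : Fin m → ℚ) (h : X.IsCyc p (∑ i, c i • z i)) :
    cN W X h = ∑ i, c i • cN W X (hz i) := by
  have h1 : ∀ i, c i • cN W X (hz i) = mkN W X (c i • mkA (W := W) ⟨z i, hz i, rfl⟩) := by
    intro i
    rw [map_smul]
    rfl
  rw [Finset.sum_congr rfl (fun i _ => h1 i), ← map_sum]
  symm
  apply cN_mk
  rw [AddSubmonoidClass.coe_finsetSum, map_sum]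
  apply Finset.sum_congr rfl
  intro i _
  rw [coe_smul', W.cl_smul]
  rfl

lemma negSquares_eq {p : ℕ} (hp : 2 * p ≤ X.dim) :
    pidx (X.dim : ℤ) (gz W X) (bN W X) (LinearMap.mulLeft ℚ (cN W X hD)) (p : ℤ) =
      negSquares ops X D p := by
  unfold pidx negIdx negSquares
  congr 1
  have htn : ((X.dim : ℤ) - 2 * (p : ℤ)).toNat = X.dim - 2 * p := by omega
  rw [htn]
  ext m
  simp only [Set.mem_ofPred_eq]
  constructor
  · rintro ⟨A, hA, hND, hm⟩
    have S := lsN (W := W) (X := X) (cN_mem (W := W) hD)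
    have hfin := S.fin_prim (p : ℤ)
    have hfinA : Module.Finite ℚ A := Module.Finite.of_injective (Submodule.inclusion hA)
      (Submodule.inclusion_injective hA)
    set b := Module.finBasisOfFinrankEq ℚ A hm with hb
    have h1 : ∀ i, ∃ z, ∃ hz : X.IsCyc p z, cN W X hz = (b i : NA W X) :=
      fun i => mem_gz_iff.1 (hA (b i).2).1
    choose z hz hzb using h1
    refine ⟨z, fun c hc => ?_⟩
    have h2 := isCyc_sum hz c
    have h3 : cN W X h2 = ((∑ i, c i • b i : A) : NA W X) := by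
      rw [cN_sum hz c h2, AddSubmonoidClass.coe_finsetSum]
      apply Finset.sum_congr rfl
      intro i _
      rw [hzb i]
      rfl
    have h4 : (∑ i, c i • b i : A) ≠ 0 := by
      intro h0
      apply hc
      funext i
      exact Fintype.linearIndependent_iff.1 b.linearIndependent c h0 i
    have h5 : cN W X h2 ∈ A := by rw [h3]; exact Subtype.property _
    have h6 : cN W X h2 ≠ 0 := by
      rw [h3]
      intro h0
      exact h4 (Subtype.ext h0)
    refine ⟨(prim_iff (W := W) hD hp h2).1 (hA h5), ?_⟩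
    rw [← form_eq (W := W) hD hp h2]
    exact hND _ h5 h6
  · rintro ⟨z, hz⟩
    rcases Nat.eq_zero_or_pos m with rfl | hm
    · exact ⟨⊥, bot_le, fun x hx hne => absurd ((Submodule.mem_bot ℚ).1 hx) hne,
        finrank_bot ℚ _⟩
    · have hcyc : ∀ i, X.IsCyc p (z i) := by
        intro i
        have h1 := (hz (Pi.single i 1) (by
          intro h0
          have := congrFun h0 i
          rw [Pi.single_eq_same] at this
          exact one_ne_zero this)).1.2.1
        rwa [Finset.sum_eq_single i (fun b _ hb => by rw [Pi.single_eq_of_ne hb, zero_smul])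
          (fun h => absurd (Finset.mem_univ i) h), Pi.single_eq_same, one_smul] at h1
      have key : ∀ c : Fin m → ℚ, c ≠ 0 →
          (∑ i, c i • cN W X (hcyc i)) ∈ prim (X.dim : ℤ) (gz W X)
            (LinearMap.mulLeft ℚ (cN W X hD)) (p : ℤ) ∧
          (sg (p : ℤ) • qf (bN W X) (LinearMap.mulLeft ℚ (cN W X hD)) (X.dim - 2 * p))
            (∑ i, c i • cN W X (hcyc i)) (∑ i, c i • cN W X (hcyc i)) < 0 := by
        intro c hc
        have h2 := isCyc_sum hcyc c
        obtain ⟨h3, h4⟩ := hz c hc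
        rw [← cN_sum hcyc c h2]
        refine ⟨(prim_iff (W := W) hD hp h2).2 h3, ?_⟩
        rw [form_eq (W := W) hD hp h2]
        exact h4
      have hli : LinearIndependent ℚ (fun i => cN W X (hcyc i)) := by
        rw [Fintype.linearIndependent_iff]
        intro c hc i
        by_contra hci
        have h5 := (key c (fun h0 => hci (congrFun h0 i))).2
        rw [hc, map_zero] at h5
        exact lt_irrefl _ h5
      refine ⟨Submodule.span ℚ (Set.range fun i => cN W X (hcyc i)), ?_, ?_, ?_⟩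
      · rw [Submodule.span_le]
        rintro _ ⟨i, rfl⟩
        have h1 := (key (Pi.single i 1) (by
          intro h0
          have := congrFun h0 i
          rw [Pi.single_eq_same] at this
          exact one_ne_zero this)).1
        rwa [Finset.sum_eq_single i (fun b _ hb => by rw [Pi.single_eq_of_ne hb, zero_smul])
          (fun h => absurd (Finset.mem_univ i) h), Pi.single_eq_same, one_smul] at h1
      · intro x hx hne
        obtain ⟨c, rfl⟩ := (Submodule.mem_span_range_iff_exists_fun ℚ).1 hx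
        exact (key c (fun h0 => hne (by
          rw [h0]
          simp))).2
      · rw [finrank_span_eq_card hli, Fintype.card_fin]

lemma total_eq (p : ℕ) :
    tidx (X.dim : ℤ) (gz W X) (bN W X) (LinearMap.mulLeft ℚ (cN W X hD)) p =
      totalNegSquares ops X D p := by
  unfold tidx totalNegSquares
  have h1 : (Finset.range (p + 1)).filter (fun i : ℕ => (i : ℤ) + p ≤ (X.dim : ℤ)) =
      (Finset.range (p + 1)).filter (fun q => q + p ≤ X.dim) := by
    apply Finset.filter_congr
    intro i _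
    omega
  rw [h1]
  apply Finset.sum_congr rfl
  intro q hq
  rw [Finset.mem_filter, Finset.mem_range] at hq
  exact negSquares_eq hD (by omega)

end

end Pool.Agent.H90.BU.Geo
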