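import Pool.Agent.H90.BU.GeoD

/-!
# The blow-up formula for the Hodge indices
-/

open CategoryTheory AlgebraicGeometry

set_option autoImplicit false
set_option linter.unusedSectionVars false

universe u v

namespace Pool.Agent.H90.BU.Geo

open Pool.Agent.H914 Pool.Agent.H447 VarClass Obj WeilCohomology Module
open Pool.Agent.R910.Mix (ratAlg algSet AQ retr AQj mkA degQ degQ_apply resA resA_coe coe_smul')
open Pool.Agent.R910.Num (numI NA mkN degN grN mem_grN mem_numI mkN_surj mkN_eq_zero degN_mk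
  AQ_induction cl_eq_zero numI_iff grN_mul nondegN finN coe_pow_mul degQ_mk_mul degN_pow)

variable {k : Type u} [Field k] {𝒱 : VarClass k} {ops : CycleOps 𝒱}
  (W : WeilCohomology.{u, v} ops)

attribute [local instance] ratAlg

section blow

variable {W} {X Z T F : 𝒱.Obj} {i : Z ⟶ X} {π : T ⟶ X} {j : F ⟶ T} {g : F ⟶ Z} {m : ℕ}

lemma blowDiv_cyc (H : IsBlowup W i π j g (m + 1)) {D : X.Cycles} (hD : X.IsCyc 1 D) (t : ℚ) :
    T.IsCyc 1 (blowDiv ops π j D t) := by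
  unfold blowDiv
  rw [sub_eq_add_neg, ← neg_smul]
  exact (ops.pull_mem π hD).add ((exc_cyc H).smul (-t))

lemma blowDiv_cN (H : IsBlowup W i π j g (m + 1)) {D : X.Cycles} (hD : X.IsCyc 1 D) (t : ℚ) :
    LinearMap.mulLeft ℚ (cN W T (blowDiv_cyc H hD t)) =
      LinearMap.mulLeft ℚ (pullN W π (cN W X hD)) - t • LinearMap.mulLeft ℚ (εN H) := by
  have h1 : cN W T (blowDiv_cyc H hD t) = pullN W π (cN W X hD) - t • εN H := by
    symm
    have h2 : pullN W π (cN W X hD) - t • εN H = mkN W T (resA W π (mkA (W := W) ⟨D, hD, rfl⟩) -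
        t • (mkA (W := W) ⟨exc ops j, exc_cyc H, rfl⟩)) := by
      rw [map_sub, map_smul]
      rfl
    rw [h2]
    apply cN_mk
    unfold blowDiv
    rw [Subalgebra.coe_sub, coe_smul', map_sub, W.cl_smul, W.cl_pull]
    rfl
  rw [h1]
  refine LinearMap.ext fun x => ?_
  show (pullN W π (cN W X hD) - t • εN H) * x = pullN W π (cN W X hD) * x - t • (εN H * x)
  rw [sub_mul, smul_mul_assoc]

lemma pull_cN {D : X.Cycles} (hD : X.IsCyc 1 D) :
    pullN W i (cN W X hD) = cN W Z (ops.pull_mem i hD) := by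
  unfold cN
  rw [pullN_mk]
  congr 1
  exact Subtype.ext (W.cl_pull i D).symm

/-- The blow-up formula. -/
theorem blow_main (H : IsBlowup W i π j g (m + 1)) {D : X.Cycles} (hD : X.IsCyc 1 D)
    (hX : NumLefschetz ops X D) (hZ : NumLefschetz ops Z (ops.pull i D)) :
    ∃ δ : ℚ, 0 < δ ∧ ∀ t : ℚ, 0 < t → t < δ → NumLefschetz ops T (blowDiv ops π j D t) ∧
      (∀ p, totalNegSquares ops T (blowDiv ops π j D t) p = totalNegSquares ops X D p +
        ∑ r ∈ (Finset.range (m + 1)).filter (· < p),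
          totalNegSquares ops Z (ops.pull i D) (p - 1 - r)) ∧
      ∀ J, (∀ p ≤ J, HodgeTypeIn ops T (blowDiv ops π j D t) p) ↔
        (∀ p ≤ J, HodgeTypeIn ops X D p) ∧ ∀ p < J, HodgeTypeIn ops Z (ops.pull i D) p := by
  obtain ⟨a, b, HB⟩ := exists_blow H (cN_mem (W := W) hD)
  have hdT := H.dims.1
  have hd' := H.dims.2
  have hc := H.codim.2
  have hn : (X.dim : ℤ) - 2 - (m : ℤ) = (Z.dim : ℤ) := by omega
  have hX' := HL_of (W := W) hD hX
  have hZ' := HL_of (W := W) (ops.pull_mem i hD) hZ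
  rw [← pull_cN hD] at hZ'
  have key := HB.formula hX' (by rw [hn]; exact hZ')
  rw [hn] at key
  obtain ⟨δ, hδ, hsub⟩ := (mem_nhdsGT_iff_exists_Ioo_subset (α := ℚ)).1 key
  refine ⟨δ, hδ, fun t ht0 htδ => ?_⟩
  obtain ⟨h1, h2, h3⟩ := hsub ⟨ht0, htδ⟩
  have hT : (X.dim : ℤ) = (T.dim : ℤ) := by omega
  rw [← blowDiv_cN H hD t, hT] at h1
  rw [← blowDiv_cN H hD t] at h2 h3
  refine ⟨NumLefschetz_of (blowDiv_cyc H hD t) h1, ?_, ?_⟩
  · intro p
    have h4 := h2 p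
    rw [total_eq hD, pull_cN hD] at h4
    have h5 : tidx (X.dim : ℤ) (gz W T) (bN W T)
        (LinearMap.mulLeft ℚ (cN W T (blowDiv_cyc H hD t))) p =
          totalNegSquares ops T (blowDiv ops π j D t) p := by
      rw [hT]
      exact total_eq (blowDiv_cyc H hD t) p
    rw [h5] at h4
    rw [h4]
    congr 1
    apply Finset.sum_congr rfl
    intro r _
    exact total_eq (ops.pull_mem i hD) _
  · intro J
    have h4 := h3 J
    rw [pull_cN hD] at h4
    have h5 : ∀ p : ℕ, HRat (X.dim : ℤ) (gz W T) (bN W T)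
        (LinearMap.mulLeft ℚ (cN W T (blowDiv_cyc H hD t))) (p : ℤ) ↔
          HodgeTypeIn ops T (blowDiv ops π j D t) p := by
      intro p
      rw [hT]
      exact HRat_iff_all (blowDiv_cyc H hD t)
    have h6 : ∀ p : ℕ, HRat (X.dim : ℤ) (gz W X) (bN W X)
        (LinearMap.mulLeft ℚ (cN W X hD)) (p : ℤ) ↔ HodgeTypeIn ops X D p :=
      fun p => HRat_iff_all hD
    have h7 : ∀ p : ℕ, HRat (Z.dim : ℤ) (gz W Z) (bN W Z)
        (LinearMap.mulLeft ℚ (cN W Z (ops.pull_mem i hD))) (p : ℤ) ↔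
          HodgeTypeIn ops Z (ops.pull i D) p := fun p => HRat_iff_all (ops.pull_mem i hD)
    constructor
    · intro h
      obtain ⟨h8, h9⟩ := h4.1 (fun p hp => (h5 p).2 (h p hp))
      exact ⟨fun p hp => (h6 p).1 (h8 p hp), fun p hp => (h7 p).1 (h9 p hp)⟩
    · rintro ⟨h8, h9⟩ p hp
      exact (h5 p).1 (h4.2 ⟨fun p hp => (h6 p).2 (h8 p hp), fun p hp => (h7 p).2 (h9 p hp)⟩ p hp)

end blow

section space

variable {P : 𝒱.Obj} {D : P.Cycles} (hD : P.IsCyc 1 D) (h : IsSpaceLike ops P D)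
include h

omit h in
lemma cN_pow_fund {p : ℕ} (hp : P.IsCyc p (divPow ops D p P.V.fundCycle)) :
    cN W P hp = cN W P hD ^ p := by
  have h1 : cN W P hD ^ p = mkN W P ((mkA (W := W) ⟨D, hD, rfl⟩) ^ p * 1) := by
    rw [mul_one, map_pow]
    rfl
  rw [h1]
  symm
  apply cN_mk
  exact coe_pow_mul rfl p P.V.fundCycle 1 (W.cl_fund P).symm

lemma space_gen {p : ℕ} {x : NA W P} (hx : x ∈ gz W P (p : ℤ)) :
    ∃ q : ℚ, x = q • cN W P hD ^ p := by
  obtain ⟨z, hz, rfl⟩ := mem_gz_iff.1 hx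
  obtain ⟨q, hq⟩ := h.2 p z hz
  have hp : P.IsCyc p (divPow ops D p P.V.fundCycle) :=
    divPow_cyc hD P.V.fundCycle_mem p (zero_add p)
  refine ⟨q, ?_⟩
  have h1 : P.IsCyc p (q • divPow ops D p P.V.fundCycle) := hp.smul q
  have h2 : P.IsCyc p (z - q • divPow ops D p P.V.fundCycle) := by
    rw [sub_eq_add_neg]
    have := h1.smul (-1)
    rw [neg_smul, one_smul] at this
    exact hz.add this
  rw [← cN_eq_zero (W := W) h2, cN_sub hz h1, sub_eq_zero] at hq
  have h3 : q • cN W P hp = mkN W P (q • mkA (W := W) ⟨_, hp, rfl⟩) := by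
    rw [map_smul]
    rfl
  rw [hq, ← cN_pow_fund W hD hp, h3]
  symm
  apply cN_mk
  rw [coe_smul', W.cl_smul]
  rfl

lemma space_deg : 0 < degN W P (cN W P hD ^ P.dim) := by
  have := degN_pow hD (W := W) (X := P) (a := mkA (W := W) ⟨D, hD, rfl⟩) rfl
  unfold cN
  rw [this]
  exact h.1

lemma space_zero {q : ℚ} {s r : ℕ} (hs : s + r = P.dim) (h0 : q • cN W P hD ^ s = 0) : q = 0 := by
  have h1 : degN W P (cN W P hD ^ r * (q • cN W P hD ^ s)) = 0 := by
    rw [h0, mul_zero, map_zero]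
  rw [mul_smul_comm, ← pow_add, add_comm r s, hs, map_smul, smul_eq_mul] at h1
  rcases mul_eq_zero.1 h1 with h2 | h2
  · exact h2
  · exact absurd h2 (space_deg W hD h).ne'

lemma space_HL : HL (P.dim : ℤ) (gz W P) (LinearMap.mulLeft ℚ (cN W P hD)) := by
  intro j a hja x hx h0
  by_cases hj : j < 0
  · rw [gz_neg hj, Submodule.mem_bot] at hx
    exact hx
  · obtain ⟨p, rfl⟩ : ∃ p : ℕ, j = p := ⟨j.toNat, by omega⟩
    obtain ⟨q, rfl⟩ := space_gen W hD h hx
    have h1 : cN W P hD ^ a * (q • cN W P hD ^ p) = 0 := by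
      rw [← mulLeft_pow_apply]
      exact h0
    rw [mul_smul_comm, ← pow_add] at h1
    rw [space_zero W hD h (s := a + p) (r := p) (by omega) h1, zero_smul]

lemma space_HR (p : ℕ) :
    HRat (P.dim : ℤ) (gz W P) (bN W P) (LinearMap.mulLeft ℚ (cN W P hD)) (p : ℤ) := by
  intro a ha x hx h0 hne
  obtain ⟨q, rfl⟩ := space_gen W hD h hx
  have h1 : cN W P hD ^ (a + 1) * (q • cN W P hD ^ p) = 0 := by
    rw [← mulLeft_pow_apply]
    exact h0
  rw [mul_smul_comm, ← pow_add] at h1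
  rcases Nat.eq_zero_or_pos p with rfl | hp
  · have hq : q ≠ 0 := by
      rintro rfl
      exact hne (zero_smul _ _)
    have haP : a = P.dim := by omega
    subst haP
    have h2 : bN W P (q • cN W P hD ^ 0) ((LinearMap.mulLeft ℚ (cN W P hD) ^ P.dim)
        (q • cN W P hD ^ 0)) = q ^ 2 * degN W P (cN W P hD ^ P.dim) := by
      rw [bN_apply, mulLeft_pow_apply, pow_zero, mul_smul_comm, mul_one, smul_mul_assoc,
        one_mul, smul_smul, map_smul, smul_eq_mul, sq]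
    rw [h2, sg_natCast, pow_zero, one_mul]
    exact mul_pos (by positivity) (space_deg W hD h)
  · exfalso
    apply hne
    rw [space_zero W hD h (s := a + 1 + p) (r := p - 1) (by omega) h1, zero_smul]

include W hD

/-- Hard Lefschetz for the spaces. -/
lemma space_lef : NumLefschetz ops P D := NumLefschetz_of hD (space_HL W hD h)

/-- The conjecture of Hodge type for the spaces. -/
lemma space_hodge (p : ℕ) : HodgeTypeIn ops P D p :=
  (HRat_iff_all (W := W) hD).1 (space_HR W hD h p)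

end space

/-- The iterated blow-ups. -/
theorem tower {Amp : ∀ X : 𝒱.Obj, Set X.Cycles} {𝒵 : Set 𝒱.Obj} {J : ℕ}
    (hAmp : ∀ X, ∀ D ∈ Amp X, X.IsCyc 1 D)
    (hZ : ∀ Z ∈ 𝒵, ∀ D ∈ Amp Z, NumLefschetz ops Z D ∧ ∀ p < J, HodgeTypeIn ops Z D p)
    {X T : 𝒱.Obj} (hT : IteratedBlowup W Amp 𝒵 X T) {D : X.Cycles} (hD : D ∈ Amp X)
    (hL : NumLefschetz ops X D) (hH : ∀ p ≤ J, HodgeTypeIn ops X D p) :
    ∃ D' ∈ Amp T, NumLefschetz ops T D' ∧ ∀ p ≤ J, HodgeTypeIn ops T D' p := by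
  induction hT with
  | refl => exact ⟨D, hD, hL, hH⟩
  | blow i π j g c hY hZ' h ih =>
    obtain ⟨D, hD, hL, hHT⟩ := ih
    obtain ⟨m, rfl⟩ : ∃ m, c = m + 1 := ⟨c - 1, by have := h.codim.1; omega⟩
    have hDZ := h.restrict D hD
    obtain ⟨hLZ, hHTZ⟩ := hZ _ hZ' _ hDZ
    obtain ⟨δ₁, hδ₁, h1⟩ := blow_main h.toIsBlowup (hAmp _ D hD) hL hLZ
    obtain ⟨δ₂, hδ₂, h2⟩ := h.perturb D hD
    have h3 : 0 < min δ₁ δ₂ := lt_min hδ₁ hδ₂
    have hpos : 0 < min δ₁ δ₂ / 2 := by positivity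
    have hlt1 : min δ₁ δ₂ / 2 < δ₁ := by
      have := min_le_left δ₁ δ₂
      linarith
    have hlt2 : min δ₁ δ₂ / 2 < δ₂ := by
      have := min_le_right δ₁ δ₂
      linarith
    obtain ⟨h3, _, h4⟩ := h1 _ hpos hlt1
    exact ⟨_, h2 _ hpos hlt2, h3, (h4 J).2 ⟨hHT, hHTZ⟩⟩

end Pool.Agent.H90.BU.Geo
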