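import Pool.Agent.H90.BU.GeoE

/-!
# The blow-up formula for the Hodge indices: conclusions
-/

open CategoryTheory AlgebraicGeometry

set_option autoImplicit false
set_option linter.unusedSectionVars false

universe u v

namespace Pool.Agent.H90.BU.Geo

open Pool.Agent.H914 Pool.Agent.H447 VarClass Obj WeilCohomology Module
open Pool.Agent.R910.Mix (ratAlg algSet AQ retr AQj mkA degQ degQ_apply resA resA_coe coe_smul')
open Pool.Agent.R910.Num (numI NA mkN degN grN mem_grN mem_numI mkN_surj mkN_eq_zero degN_mk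
  AQ_induction cl_eq_zero numI_iff grN_mul nondegN finN coe_pow_mul degQ_mk_mul degN_pow)

variable {k : Type u} [Field k] {𝒱 : VarClass k} {ops : CycleOps 𝒱}
  (W : WeilCohomology.{u, v} ops)

attribute [local instance] ratAlg

lemma LS.adj_pow {V : Type*} [AddCommGroup V] [Module ℚ V] {n : ℤ} {G : ℤ → Submodule ℚ V}
    {B : V →ₗ[ℚ] V →ₗ[ℚ] ℚ} {L : Module.End ℚ V} (S : LS n G B L) (a : ℕ) (x y : V) :
    B ((L ^ a) x) y = B x ((L ^ a) y) := by
  induction a generalizing x y with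
  | zero => rfl
  | succ a ih =>
    rw [pow_succ', Module.End.mul_apply, S.adj, ih, ← Module.End.mul_apply, ← pow_succ, pow_succ']

/-- The conjecture `A` implies hard Lefschetz modulo numerical equivalence. -/
theorem NumLefschetz_of_A {X : 𝒱.Obj} {D : X.Cycles} (hD : X.IsCyc 1 D)
    (h : LefschetzA W X D) : NumLefschetz ops X D := by
  apply NumLefschetz_of (W := W) hD
  intro j a hja x hx h0
  have S := lsN (W := W) (X := X) (cN_mem (W := W) hD)
  by_cases hj : j < 0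
  · rw [gz_neg hj, Submodule.mem_bot] at hx
    exact hx
  · obtain ⟨p, rfl⟩ : ∃ p : ℕ, j = p := ⟨j.toNat, by omega⟩
    have ha : a = X.dim - 2 * p := by omega
    subst ha
    apply S.nondeg _ x hx
    intro y hy
    rw [show (X.dim : ℤ) - (p : ℤ) = ((X.dim - p : ℕ) : ℤ) by omega] at hy
    obtain ⟨z, hz, rfl⟩ := mem_gz_iff.1 hy
    obtain ⟨z', hz', hcl⟩ := h p (by omega) z hz
    have h1 : cN W X hz = ((LinearMap.mulLeft ℚ (cN W X hD)) ^ (X.dim - 2 * p)) (cN W X hz') := by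
      rw [cN_divPow hD hz' (X.dim - 2 * p) (q := X.dim - p) (by omega)]
      exact cN_congr _ _ hcl.symm
    rw [h1, ← LS.adj_pow S, h0, map_zero, LinearMap.zero_apply]

/-- The whole theorem. -/
theorem main :
    (∀ (X : 𝒱.Obj) (D : X.Cycles), X.IsCyc 1 D → LefschetzA W X D → NumLefschetz ops X D) ∧
    (∀ {X Z T F : 𝒱.Obj} (i : Z ⟶ X) (π : T ⟶ X) (j : F ⟶ T) (g : F ⟶ Z) (c : ℕ),
      IsBlowup W i π j g c → ∀ D : X.Cycles, X.IsCyc 1 D → NumLefschetz ops X D →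
      NumLefschetz ops Z (ops.pull i D) → ∃ δ : ℚ, 0 < δ ∧ ∀ t : ℚ, 0 < t → t < δ →
        NumLefschetz ops T (blowDiv ops π j D t) ∧
        (∀ p, totalNegSquares ops T (blowDiv ops π j D t) p = totalNegSquares ops X D p +
          ∑ r ∈ (Finset.range c).filter (· < p),
            totalNegSquares ops Z (ops.pull i D) (p - 1 - r)) ∧
        (∀ J, (∀ p ≤ J, HodgeTypeIn ops T (blowDiv ops π j D t) p) ↔
          (∀ p ≤ J, HodgeTypeIn ops X D p) ∧ ∀ p < J, HodgeTypeIn ops Z (ops.pull i D) p) ∧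
        (IsSpaceLike ops X D → ∀ J, (∀ p ≤ J + 1, HodgeTypeIn ops T (blowDiv ops π j D t) p) ↔
          ∀ p ≤ J, HodgeTypeIn ops Z (ops.pull i D) p)) ∧
    (∀ (P : 𝒱.Obj) (D : P.Cycles), P.IsCyc 1 D → IsSpaceLike ops P D →
      NumLefschetz ops P D ∧ ∀ p, HodgeTypeIn ops P D p) ∧
    ∀ (Amp : ∀ X : 𝒱.Obj, Set X.Cycles) (𝒵 : Set 𝒱.Obj) (J : ℕ),
      (∀ X, ∀ D ∈ Amp X, X.IsCyc 1 D) →
      (∀ Z ∈ 𝒵, ∀ D ∈ Amp Z, NumLefschetz ops Z D ∧ ∀ p < J, HodgeTypeIn ops Z D p) →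
      ∀ X T, IteratedBlowup W Amp 𝒵 X T → ∀ D ∈ Amp X, NumLefschetz ops X D →
        (∀ p ≤ J, HodgeTypeIn ops X D p) →
        ∃ D' ∈ Amp T, NumLefschetz ops T D' ∧ ∀ p ≤ J, HodgeTypeIn ops T D' p := by
  refine ⟨fun X D hD h => NumLefschetz_of_A W hD h, ?_,
    fun P D hD hP => ⟨space_lef W hD hP, space_hodge W hD hP⟩,
    fun Amp 𝒵 J h1 h2 X T h3 D hD hL hH => tower W h1 h2 h3 hD hL hH⟩
  intro X Z T F i π j g c H D hD hX hZ
  obtain ⟨m, rfl⟩ : ∃ m, c = m + 1 := ⟨c - 1, by have := H.codim.1; omega⟩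
  obtain ⟨δ, hδ, h⟩ := blow_main H hD hX hZ
  refine ⟨δ, hδ, fun t ht0 ht => ?_⟩
  obtain ⟨h1, h2, h3⟩ := h t ht0 ht
  refine ⟨h1, h2, h3, fun hS J => ?_⟩
  rw [h3 (J + 1)]
  constructor
  · rintro ⟨_, h4⟩ p hp
    exact h4 p (by omega)
  · intro h4
    exact ⟨fun p _ => space_hodge W hD hS p, fun p hp => h4 p (by omega)⟩

end Pool.Agent.H90.BU.Geo
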