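import Pool.Agent.H90.BU.Split

/-!
# Indices of forms and of Lefschetz structures
-/

set_option autoImplicit false

namespace Pool.Agent.H90.BU

open Module

section form

variable {V : Type*} [AddCommGroup V] [Module ℚ V]

/-- The form `Q` is positive definite on `A`. -/
def PD (Q : V →ₗ[ℚ] V →ₗ[ℚ] ℚ) (A : Submodule ℚ V) : Prop := ∀ x ∈ A, x ≠ 0 → 0 < Q x x

/-- The form `Q` is negative definite on `A`. -/
def ND (Q : V →ₗ[ℚ] V →ₗ[ℚ] ℚ) (A : Submodule ℚ V) : Prop := ∀ x ∈ A, x ≠ 0 → Q x x < 0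

/-- The form `Q` on `S` is nondegenerate with `p` positive and `q` negative squares. -/
def HasSg (Q : V →ₗ[ℚ] V →ₗ[ℚ] ℚ) (S : Submodule ℚ V) (p q : ℕ) : Prop :=
  ∃ P N : Submodule ℚ V, P ⊔ N = S ∧ PD Q P ∧ ND Q N ∧ finrank ℚ P = p ∧ finrank ℚ N = q

/-- The number of negative squares of the form `Q` on `S`. -/
noncomputable def negIdx (Q : V →ₗ[ℚ] V →ₗ[ℚ] ℚ) (S : Submodule ℚ V) : ℕ :=
  sSup {m | ∃ A : Submodule ℚ V, A ≤ S ∧ ND Q A ∧ finrank ℚ A = m}

variable {Q : V →ₗ[ℚ] V →ₗ[ℚ] ℚ} {S : Submodule ℚ V}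

lemma PD.disjoint {A A' : Submodule ℚ V} (h : PD Q A) (h' : ND Q A') : A ⊓ A' = ⊥ := by
  rw [eq_bot_iff]
  rintro x ⟨hx, hx'⟩
  rw [Submodule.mem_bot]
  by_contra hne
  exact lt_asymm (h x hx hne) (h' x hx' hne)

lemma PD.finrank_le [Module.Finite ℚ S] {A A' : Submodule ℚ V} (hA : A ≤ S) (hA' : A' ≤ S)
    (h : PD Q A) (h' : ND Q A') : finrank ℚ A + finrank ℚ A' ≤ finrank ℚ S := by
  have : Module.Finite ℚ A :=
    Module.Finite.of_injective (Submodule.inclusion hA) (Submodule.inclusion_injective hA)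
  have : Module.Finite ℚ A' :=
    Module.Finite.of_injective (Submodule.inclusion hA') (Submodule.inclusion_injective hA')
  have h1 := Submodule.finrank_sup_add_finrank_inf_eq A A'
  rw [h.disjoint h', finrank_bot, add_zero] at h1
  rw [← h1]
  exact Submodule.finrank_mono (sup_le hA hA')

lemma HasSg.finrank_eq [Module.Finite ℚ S] {p q : ℕ} (h : HasSg Q S p q) :
    finrank ℚ S = p + q := by
  obtain ⟨P, N, h1, h2, h3, rfl, rfl⟩ := h
  have hP : P ≤ S := h1 ▸ le_sup_left
  have hN : N ≤ S := h1 ▸ le_sup_right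
  have : Module.Finite ℚ P :=
    Module.Finite.of_injective (Submodule.inclusion hP) (Submodule.inclusion_injective hP)
  have : Module.Finite ℚ N :=
    Module.Finite.of_injective (Submodule.inclusion hN) (Submodule.inclusion_injective hN)
  have h4 := Submodule.finrank_sup_add_finrank_inf_eq P N
  rw [h2.disjoint h3, finrank_bot, add_zero, h1] at h4
  exact h4

lemma HasSg.le_neg [Module.Finite ℚ S] {p q : ℕ} (h : HasSg Q S p q) {A : Submodule ℚ V}
    (hA : A ≤ S) (hA' : ND Q A) : finrank ℚ A ≤ q := by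
  have h0 := h.finrank_eq
  obtain ⟨P, N, h1, h2, h3, rfl, rfl⟩ := h
  have := PD.finrank_le (h1 ▸ le_sup_left) hA h2 hA'
  omega

lemma HasSg.le_pos [Module.Finite ℚ S] {p q : ℕ} (h : HasSg Q S p q) {A : Submodule ℚ V}
    (hA : A ≤ S) (hA' : PD Q A) : finrank ℚ A ≤ p := by
  have h0 := h.finrank_eq
  obtain ⟨P, N, h1, h2, h3, rfl, rfl⟩ := h
  have := PD.finrank_le hA (h1 ▸ le_sup_right) hA' h3
  omega

lemma HasSg.unique [Module.Finite ℚ S] {p q p' q' : ℕ} (h : HasSg Q S p q)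
    (h' : HasSg Q S p' q') : p = p' ∧ q = q' := by
  have h1 : p ≤ p' := by
    obtain ⟨P, N, h1, h2, h3, rfl, rfl⟩ := h
    exact h'.le_pos (h1 ▸ le_sup_left) h2
  have h2 : p' ≤ p := by
    obtain ⟨P, N, h4, h2, h3, rfl, rfl⟩ := h'
    exact h.le_pos (h4 ▸ le_sup_left) h2
  have h3 := h.finrank_eq
  have h4 := h'.finrank_eq
  omega

lemma HasSg.negIdx_eq [Module.Finite ℚ S] {p q : ℕ} (h : HasSg Q S p q) : negIdx Q S = q := by
  apply le_antisymm
  · apply csSup_le'
    rintro m ⟨A, hA, hA', rfl⟩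
    exact h.le_neg hA hA'
  · apply le_csSup
    · refine ⟨q, ?_⟩
      rintro m ⟨A, hA, hA', rfl⟩
      exact h.le_neg hA hA'
    · obtain ⟨P, N, h1, h2, h3, rfl, rfl⟩ := h
      exact ⟨N, h1 ▸ le_sup_right, h3, rfl⟩

lemma HasSg.neg {p q : ℕ} (h : HasSg Q S p q) : HasSg (-Q) S q p := by
  obtain ⟨P, N, h1, h2, h3, h4, h5⟩ := h
  refine ⟨N, P, by rw [sup_comm, h1], ?_, ?_, h5, h4⟩
  · intro x hx hx0
    rw [LinearMap.neg_apply, LinearMap.neg_apply]
    linarith [h3 x hx hx0]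
  · intro x hx hx0
    rw [LinearMap.neg_apply, LinearMap.neg_apply]
    linarith [h2 x hx hx0]

lemma exists_hasSg [Module.Finite ℚ S] (hs : ∀ x ∈ S, ∀ y ∈ S, Q x y = Q y x)
    (hn : ∀ x ∈ S, (∀ y ∈ S, Q x y = 0) → x = 0) : ∃ p q, HasSg Q S p q := by
  obtain ⟨P, N, h1, h2, h3, _⟩ := exists_split Q S hs hn
  exact ⟨_, _, P, N, h1, h2, h3, rfl, rfl⟩

/-- A form with a signature is nondegenerate. -/
lemma HasSg.nondeg {p q : ℕ} (h : HasSg Q S p q) (hs : ∀ x ∈ S, ∀ y ∈ S, Q x y = Q y x)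
    {x : V} (hx : x ∈ S) (h0 : ∀ y ∈ S, Q x y = 0) : x = 0 := by
  obtain ⟨P, N, h1, h2, h3, h4, h5⟩ := h
  rw [← h1] at hx
  obtain ⟨y, hy, z, hz, rfl⟩ := Submodule.mem_sup.1 hx
  have hyS : y ∈ S := h1 ▸ Submodule.mem_sup_left hy
  have hzS : z ∈ S := h1 ▸ Submodule.mem_sup_right hz
  have e1 := h0 y hyS
  have e2 := h0 z hzS
  rw [map_add, LinearMap.add_apply] at e1 e2
  have e3 := hs y hyS z hzS
  have hy0 : y = 0 := by
    by_contra hne
    have f1 := h2 y hy hne
    by_cases hz0 : z = 0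
    · subst hz0
      rw [map_zero, LinearMap.zero_apply] at e1
      linarith
    · have f2 := h3 z hz hz0
      linarith
  subst hy0
  rw [map_zero, LinearMap.zero_apply, zero_add] at e2
  rw [zero_add]
  by_contra hne
  exact (h3 z hz hne).ne e2

end form

section transport

variable {V V' : Type*} [AddCommGroup V] [Module ℚ V] [AddCommGroup V'] [Module ℚ V']

/-- Transport of signatures. -/
lemma HasSg.map {Q : V →ₗ[ℚ] V →ₗ[ℚ] ℚ} {S : Submodule ℚ V} {Q' : V' →ₗ[ℚ] V' →ₗ[ℚ] ℚ}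
    {S' : Submodule ℚ V'} (f : V →ₗ[ℚ] V') (hf : S.map f = S')
    (hQ : ∀ x ∈ S, Q' (f x) (f x) = Q x x) {p q : ℕ}
    (h : HasSg Q S p q) : HasSg Q' S' p q := by
  obtain ⟨P, N, h1, h2, h3, h4, h5⟩ := h
  have hPS : P ≤ S := h1 ▸ le_sup_left
  have hNS : N ≤ S := h1 ▸ le_sup_right
  have hinj : ∀ A : Submodule ℚ V, A ≤ S → (∀ x ∈ A, x ≠ 0 → Q x x ≠ 0) →
      finrank ℚ (A.map f) = finrank ℚ A := by
    intro A hA hne
    have hi : Function.Injective (f.domRestrict A) := by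
      rw [← LinearMap.ker_eq_bot, LinearMap.ker_eq_bot']
      rintro ⟨x, hx⟩ h0
      apply Subtype.ext
      by_contra hx0
      apply hne x hx hx0
      rw [← hQ x (hA hx)]
      have : f x = 0 := h0
      rw [this, map_zero]
    have e1 : A.map f = LinearMap.range (f.domRestrict A) := by
      ext y
      constructor
      · rintro ⟨x, hx, rfl⟩
        exact ⟨⟨x, hx⟩, rfl⟩
      · rintro ⟨⟨x, hx⟩, rfl⟩
        exact ⟨x, hx, rfl⟩
    rw [e1]
    exact LinearMap.finrank_range_of_inj hi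
  refine ⟨P.map f, N.map f, by rw [← Submodule.map_sup, h1, hf], ?_, ?_, ?_, ?_⟩
  · rintro _ ⟨x, hx, rfl⟩ hne
    rw [hQ x (hPS hx)]
    exact h2 x hx (fun h => hne (by rw [h, map_zero]))
  · rintro _ ⟨x, hx, rfl⟩ hne
    rw [hQ x (hNS hx)]
    exact h3 x hx (fun h => hne (by rw [h, map_zero]))
  · rw [hinj P hPS (fun x hx hne => (h2 x hx hne).ne'), h4]
  · rw [hinj N hNS (fun x hx hne => (h3 x hx hne).ne), h5]

end transport

section structure_

variable {V : Type*} [AddCommGroup V] [Module ℚ V]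

/-- The form `x, y ↦ B(x, L ^ a y)`. -/
noncomputable def qf (B : V →ₗ[ℚ] V →ₗ[ℚ] ℚ) (L : Module.End ℚ V) (a : ℕ) :
    V →ₗ[ℚ] V →ₗ[ℚ] ℚ := B.compl₂ (L ^ a)

@[simp] lemma qf_apply (B : V →ₗ[ℚ] V →ₗ[ℚ] ℚ) (L : Module.End ℚ V) (a : ℕ) (x y : V) :
    qf B L a x y = B x ((L ^ a) y) := rfl

/-- The number of negative squares of the form of the Hodge-Riemann relations in degree `j`. -/
noncomputable def pidx (n : ℤ) (G : ℤ → Submodule ℚ V) (B : V →ₗ[ℚ] V →ₗ[ℚ] ℚ)
    (L : Module.End ℚ V) (j : ℤ) : ℕ :=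
  negIdx (sg j • qf B L (n - 2 * j).toNat) (prim n G L j)

variable {n : ℤ} {G : ℤ → Submodule ℚ V} {B : V →ₗ[ℚ] V →ₗ[ℚ] ℚ} {L : Module.End ℚ V}

lemma prim_le {j : ℤ} : prim n G L j ≤ G j := fun _ hx => hx.1

lemma LS.fin_prim (S : LS n G B L) (j : ℤ) : Module.Finite ℚ (prim n G L j) := by
  have := S.fin j
  exact Module.Finite.of_injective (Submodule.inclusion prim_le)
    (Submodule.inclusion_injective prim_le)

lemma LS.qf_symm (S : LS n G B L) (a : ℕ) (x y : V) : qf B L a x y = qf B L a y x := by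
  rw [qf_apply, qf_apply, ← S.adj_pow, S.symm]

lemma LS.qf_nondeg (S : LS n G B L) (h : HL n G L) {j : ℤ} {a : ℕ} (hja : 2 * j + a = n) {x : V}
    (hx : x ∈ G j) (h0 : ∀ y ∈ G j, qf B L a x y = 0) : x = 0 := by
  apply S.nondeg j x hx
  intro y hy
  obtain ⟨z, hz, rfl⟩ := S.surj h hja (y := y) (by rwa [show j + a = n - j by omega])
  exact h0 z hz

/-- The signature of the form in degree `j` from the primitive part and degree `j - 1`. -/
lemma LS.hasSg_add (S : LS n G B L) (h : HL n G L) {j : ℤ} {a : ℕ} (hja : 2 * j + a = n)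
    {p q p' q' : ℕ} (h1 : HasSg (qf B L (a + 2)) (G (j - 1)) p q)
    (h2 : HasSg (qf B L a) (prim n G L j) p' q') :
    HasSg (qf B L a) (G j) (p' + p) (q' + q) := by
  obtain ⟨P, N, e1, e2, e3, e4, e5⟩ := h1
  obtain ⟨P', N', f1, f2, f3, f4, f5⟩ := h2
  have hL : ∀ x y, qf B L a (L x) (L y) = qf B L (a + 2) x y := by
    intro x y
    rw [qf_apply, qf_apply, S.adj, ← pow_succ_apply, ← pow_succ_apply' L (a + 1) y]
  have hc : ∀ x ∈ prim n G L j, ∀ y, qf B L a x (L y) = 0 := by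
    intro x hx y
    rw [qf_apply, ← pow_succ_apply', ← S.adj_pow, hx.2 a hja, map_zero, LinearMap.zero_apply]
  have hP : P ≤ G (j - 1) := e1 ▸ le_sup_left
  have hN : N ≤ G (j - 1) := e1 ▸ le_sup_right
  have hP' : P' ≤ prim n G L j := f1 ▸ le_sup_left
  have hN' : N' ≤ prim n G L j := f1 ▸ le_sup_right
  have := S.fin j
  have := S.fin (j - 1)
  have : Module.Finite ℚ P :=
    Module.Finite.of_injective (Submodule.inclusion hP) (Submodule.inclusion_injective hP)
  have : Module.Finite ℚ N :=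
    Module.Finite.of_injective (Submodule.inclusion hN) (Submodule.inclusion_injective hN)
  have := S.fin_prim j
  have : Module.Finite ℚ P' :=
    Module.Finite.of_injective (Submodule.inclusion hP') (Submodule.inclusion_injective hP')
  have : Module.Finite ℚ N' :=
    Module.Finite.of_injective (Submodule.inclusion hN') (Submodule.inclusion_injective hN')
  have hLinj : ∀ A : Submodule ℚ V, A ≤ G (j - 1) → finrank ℚ (A.map L) = finrank ℚ A := by
    intro A hA
    have hi : Function.Injective (L.domRestrict A) := by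
      rw [← LinearMap.ker_eq_bot, LinearMap.ker_eq_bot']
      rintro ⟨x, hx⟩ h0
      apply Subtype.ext
      exact S.inj h (by omega) (hA hx) h0
    have e1 : A.map L = LinearMap.range (L.domRestrict A) := by
      ext y
      constructor
      · rintro ⟨x, hx, rfl⟩
        exact ⟨⟨x, hx⟩, rfl⟩
      · rintro ⟨⟨x, hx⟩, rfl⟩
        exact ⟨x, hx, rfl⟩
    rw [e1]
    exact LinearMap.finrank_range_of_inj hi
  have hdisj : ∀ A A' : Submodule ℚ V, A ≤ prim n G L j → A' ≤ G (j - 1) →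
      A ⊓ A'.map L = ⊥ := by
    intro A A' hA hA'
    rw [eq_bot_iff]
    rintro _ ⟨hx, y, hy, rfl⟩
    rw [Submodule.mem_bot]
    have h3 := (hA hx).2 a hja
    rw [← pow_succ_apply'] at h3
    rw [h (j - 1) (a + 2) (by push_cast; omega) y (hA' hy) h3, map_zero]
  refine ⟨P' ⊔ P.map L, N' ⊔ N.map L, ?_, ?_, ?_, ?_, ?_⟩
  · have e6 : (P' ⊔ P.map L) ⊔ (N' ⊔ N.map L) = prim n G L j ⊔ (G (j - 1)).map L := by
      rw [← f1, ← e1, Submodule.map_sup]
      exact sup_sup_sup_comm _ _ _ _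
    rw [e6]
    apply le_antisymm
    · apply sup_le prim_le
      rintro _ ⟨x, hx, rfl⟩
      have := S.map _ _ hx
      rwa [sub_add_cancel] at this
    · intro x hx
      obtain ⟨y, hy, hxy⟩ := S.decomp h hja hx
      have h3 : x - L y ∈ prim n G L j := (mem_prim hja).2
        ⟨Submodule.sub_mem _ hx (by have := S.map _ _ hy; rwa [sub_add_cancel] at this), hxy⟩
      have h4 := Submodule.add_mem_sup h3 (Submodule.mem_map_of_mem (f := L) hy)
      rwa [sub_add_cancel] at h4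
  · intro x hx hx0
    obtain ⟨y, hy, _, ⟨z, hz, rfl⟩, rfl⟩ := Submodule.mem_sup.1 hx
    rw [map_add, map_add, LinearMap.add_apply, LinearMap.add_apply, hL, hc y (hP' hy) z,
      S.qf_symm a (L z) y, hc y (hP' hy) z, zero_add, add_zero]
    by_cases hy0 : y = 0
    · subst hy0
      rw [map_zero, zero_add]
      exact e2 z hz (fun h5 => hx0 (by rw [h5, map_zero, zero_add]))
    · have k1 := f2 y hy hy0
      by_cases hz0 : z = 0
      · subst hz0
        rw [map_zero, add_zero]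
        exact k1
      · have k2 := e2 z hz hz0
        linarith
  · intro x hx hx0
    obtain ⟨y, hy, _, ⟨z, hz, rfl⟩, rfl⟩ := Submodule.mem_sup.1 hx
    rw [map_add, map_add, LinearMap.add_apply, LinearMap.add_apply, hL, hc y (hN' hy) z,
      S.qf_symm a (L z) y, hc y (hN' hy) z, zero_add, add_zero]
    by_cases hy0 : y = 0
    · subst hy0
      rw [map_zero, zero_add]
      exact e3 z hz (fun h5 => hx0 (by rw [h5, map_zero, zero_add]))
    · have k1 := f3 y hy hy0
      by_cases hz0 : z = 0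
      · subst hz0
        rw [map_zero, add_zero]
        exact k1
      · have k2 := e3 z hz hz0
        linarith
  · have k := Submodule.finrank_sup_add_finrank_inf_eq P' (P.map L)
    rw [hdisj P' P hP' hP, finrank_bot, add_zero, hLinj P hP] at k
    rw [k, e4, f4]
  · have k := Submodule.finrank_sup_add_finrank_inf_eq N' (N.map L)
    rw [hdisj N' N hN' hN, finrank_bot, add_zero, hLinj N hN] at k
    rw [k, e5, f5]

/-- The dimension of the primitive part. -/
lemma LS.finrank_prim (S : LS n G B L) (h : HL n G L) {j : ℤ} {a : ℕ} (hja : 2 * j + a = n) :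
    finrank ℚ (prim n G L j) + finrank ℚ (G (j - 1)) = finrank ℚ (G j) := by
  have := S.fin j
  have := S.fin (j - 1)
  have := S.fin_prim j
  have hLinj : finrank ℚ ((G (j - 1)).map L) = finrank ℚ (G (j - 1)) := by
    have hi : Function.Injective (L.domRestrict (G (j - 1))) := by
      rw [← LinearMap.ker_eq_bot, LinearMap.ker_eq_bot']
      rintro ⟨x, hx⟩ h0
      apply Subtype.ext
      exact S.inj h (by omega) hx h0
    have e1 : (G (j - 1)).map L = LinearMap.range (L.domRestrict (G (j - 1))) := by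
      ext y
      constructor
      · rintro ⟨x, hx, rfl⟩
        exact ⟨⟨x, hx⟩, rfl⟩
      · rintro ⟨⟨x, hx⟩, rfl⟩
        exact ⟨x, hx, rfl⟩
    rw [e1]
    exact LinearMap.finrank_range_of_inj hi
  have hdisj : prim n G L j ⊓ (G (j - 1)).map L = ⊥ := by
    rw [eq_bot_iff]
    rintro _ ⟨hx, y, hy, rfl⟩
    rw [Submodule.mem_bot]
    have h3 := hx.2 a hja
    rw [← pow_succ_apply'] at h3
    rw [h (j - 1) (a + 2) (by push_cast; omega) y hy h3, map_zero]
  have hsup : prim n G L j ⊔ (G (j - 1)).map L = G j := by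
    apply le_antisymm
    · apply sup_le prim_le
      rintro _ ⟨x, hx, rfl⟩
      have := S.map _ _ hx
      rwa [sub_add_cancel] at this
    · intro x hx
      obtain ⟨y, hy, hxy⟩ := S.decomp h hja hx
      have h3 : x - L y ∈ prim n G L j := (mem_prim hja).2
        ⟨Submodule.sub_mem _ hx (by have := S.map _ _ hy; rwa [sub_add_cancel] at this), hxy⟩
      have h4 := Submodule.add_mem_sup h3 (Submodule.mem_map_of_mem (f := L) hy)
      rwa [sub_add_cancel] at h4
  have k := Submodule.finrank_sup_add_finrank_inf_eq (prim n G L j) ((G (j - 1)).map L)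
  rw [hdisj, hsup, finrank_bot, add_zero, hLinj] at k
  exact k.symm

namespace Split

variable {Gp Gm : ℤ → Submodule ℚ V}

lemma lep (T : Split n G B L Gp Gm) (j : ℤ) : Gp j ≤ G j := T.sup j ▸ le_sup_left

lemma lem (T : Split n G B L Gp Gm) (j : ℤ) : Gm j ≤ G j := T.sup j ▸ le_sup_right

lemma lsp (T : Split n G B L Gp Gm) (S : LS n G B L) : LS n Gp B L where
  fin j := by
    have := S.fin j
    exact Module.Finite.of_injective (Submodule.inclusion (T.lep j))
      (Submodule.inclusion_injective (T.lep j))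
  symm := S.symm
  adj := S.adj
  map := T.mapp
  neg j hj := by
    rw [eq_bot_iff, ← S.neg j hj]
    exact T.lep j
  nondeg j x hx h0 := by
    apply S.nondeg j x (T.lep j hx)
    intro y hy
    rw [← T.sup] at hy
    obtain ⟨y1, hy1, y2, hy2, rfl⟩ := Submodule.mem_sup.1 hy
    rw [map_add, h0 y1 hy1, T.orth j x hx y2 hy2, add_zero]

lemma lsm (T : Split n G B L Gp Gm) (S : LS n G B L) : LS n Gm (-B) L where
  fin j := by
    have := S.fin j
    exact Module.Finite.of_injective (Submodule.inclusion (T.lem j))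
      (Submodule.inclusion_injective (T.lem j))
  symm x y := by simp [S.symm x y]
  adj x y := by simp [S.adj x y]
  map := T.mapm
  neg j hj := by
    rw [eq_bot_iff, ← S.neg j hj]
    exact T.lem j
  nondeg j x hx h0 := by
    apply S.nondeg j x (T.lem j hx)
    intro y hy
    rw [← T.sup] at hy
    obtain ⟨y1, hy1, y2, hy2, rfl⟩ := Submodule.mem_sup.1 hy
    have h1 := h0 y2 hy2
    rw [LinearMap.neg_apply, LinearMap.neg_apply, neg_eq_zero] at h1
    have h2 := T.orth (n - j) y1 hy1 x (by rwa [sub_sub_cancel])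
    rw [map_add, h1, S.symm, h2, add_zero]

lemma disjoint (T : Split n G B L Gp Gm) (S : LS n G B L) (j : ℤ) : Gp j ⊓ Gm j = ⊥ := by
  rw [eq_bot_iff]
  rintro x ⟨hx, hx'⟩
  rw [Submodule.mem_bot]
  apply S.nondeg j x (T.lep j hx)
  intro y hy
  rw [← T.sup] at hy
  obtain ⟨y1, hy1, y2, hy2, rfl⟩ := Submodule.mem_sup.1 hy
  have h2 := T.orth (n - j) y1 hy1 x (by rwa [sub_sub_cancel])
  rw [map_add, T.orth j x hx y2 hy2, S.symm, h2, add_zero]

lemma hl (T : Split n G B L Gp Gm) (S : LS n G B L) : HL n G L := by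
  intro j a hja x hx h0
  rw [← T.sup] at hx
  obtain ⟨y, hy, z, hz, rfl⟩ := Submodule.mem_sup.1 hx
  rw [map_add] at h0
  have h1 : (L ^ a) y ∈ Gp (j + a) ⊓ Gm (j + a) := by
    refine ⟨(T.lsp S).pow_mem hy a, ?_⟩
    rw [eq_neg_of_add_eq_zero_left h0]
    exact Submodule.neg_mem _ ((T.lsm S).pow_mem hz a)
  rw [T.disjoint S, Submodule.mem_bot] at h1
  rw [h1, zero_add] at h0
  rw [T.hrp.hl j a hja y hy h1, T.hrm.hl j a hja z hz h0, add_zero]

lemma prim_eq (T : Split n G B L Gp Gm) (S : LS n G B L) {j : ℤ} {a : ℕ} (hja : 2 * j + a = n) :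
    prim n Gp L j ⊔ prim n Gm L j = prim n G L j := by
  apply le_antisymm
  · apply sup_le
    · intro x hx
      exact ⟨T.lep j hx.1, hx.2⟩
    · intro x hx
      exact ⟨T.lem j hx.1, hx.2⟩
  · intro x hx
    obtain ⟨hx1, hx2⟩ := (mem_prim hja).1 hx
    rw [← T.sup] at hx1
    obtain ⟨y, hy, z, hz, rfl⟩ := Submodule.mem_sup.1 hx1
    rw [map_add] at hx2
    have h1 : (L ^ (a + 1)) y ∈ Gp (j + (a + 1 : ℕ)) ⊓ Gm (j + (a + 1 : ℕ)) := by
      refine ⟨(T.lsp S).pow_mem hy (a + 1), ?_⟩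
      rw [eq_neg_of_add_eq_zero_left hx2]
      exact Submodule.neg_mem _ ((T.lsm S).pow_mem hz (a + 1))
    rw [T.disjoint S, Submodule.mem_bot] at h1
    rw [h1, zero_add] at hx2
    exact Submodule.add_mem_sup ((mem_prim hja).2 ⟨hy, h1⟩) ((mem_prim hja).2 ⟨hz, hx2⟩)

lemma hasSg_prim (T : Split n G B L Gp Gm) (S : LS n G B L) {j : ℤ} {a : ℕ}
    (hja : 2 * j + a = n) : HasSg (sg j • qf B L a) (prim n G L j)
      (finrank ℚ (prim n Gp L j)) (finrank ℚ (prim n Gm L j)) := by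
  refine ⟨prim n Gp L j, prim n Gm L j, T.prim_eq S hja, ?_, ?_, rfl, rfl⟩
  · intro x hx hx0
    exact T.hrp j a hja x hx.1 (hx.2 a hja) hx0
  · intro x hx hx0
    have := T.hrm j a hja x hx.1 (hx.2 a hja) hx0
    rw [LinearMap.neg_apply, LinearMap.neg_apply] at this
    rw [LinearMap.smul_apply, LinearMap.smul_apply, qf_apply, smul_eq_mul]
    linarith

/-- The index of the primitive part. -/
lemma pidx_eq (T : Split n G B L Gp Gm) (S : LS n G B L) {j : ℤ} (hj : 2 * j ≤ n) :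
    pidx n G B L j + finrank ℚ (Gm (j - 1)) = finrank ℚ (Gm j) := by
  have hja : 2 * j + ((n - 2 * j).toNat : ℤ) = n := by omega
  have := S.fin_prim j
  rw [pidx, (T.hasSg_prim S hja).negIdx_eq]
  exact (T.lsm S).finrank_prim T.hrm.hl hja

/-- The total index. -/
lemma sum_pidx (T : Split n G B L Gp Gm) (S : LS n G B L) (m : ℕ) (hm : 2 * (m : ℤ) ≤ n) :
    ∑ i ∈ Finset.range (m + 1), pidx n G B L i = finrank ℚ (Gm m) := by
  induction m with
  | zero =>
    rw [Finset.sum_range_succ, Finset.sum_range_zero, zero_add]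
    have h1 := T.pidx_eq S (j := ((0 : ℕ) : ℤ)) hm
    have h2 : Gm (((0 : ℕ) : ℤ) - 1) = ⊥ := by
      rw [eq_bot_iff, ← S.neg (((0 : ℕ) : ℤ) - 1) (by norm_num)]
      exact T.lem _
    rw [h2, finrank_bot, add_zero] at h1
    exact h1
  | succ m ih =>
    rw [Finset.sum_range_succ, ih (by push_cast at hm; omega)]
    have h1 := T.pidx_eq S (j := ((m + 1 : ℕ) : ℤ)) hm
    rw [show (((m + 1 : ℕ) : ℤ) - 1) = (m : ℤ) by push_cast; ring] at h1
    omega

end Split

/-- The total number of negative squares in degree `j`. -/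
noncomputable def tidx (n : ℤ) (G : ℤ → Submodule ℚ V) (B : V →ₗ[ℚ] V →ₗ[ℚ] ℚ)
    (L : Module.End ℚ V) (j : ℕ) : ℕ :=
  ∑ i ∈ (Finset.range (j + 1)).filter (fun i : ℕ => (i : ℤ) + j ≤ n), pidx n G B L i

lemma Split.tidx_eq {Gp Gm : ℤ → Submodule ℚ V} (T : Split n G B L Gp Gm) (S : LS n G B L)
    (j : ℕ) : tidx n G B L j = finrank ℚ (Gm j) := by
  unfold tidx
  by_cases hj : 2 * (j : ℤ) ≤ n
  · rw [Finset.filter_true_of_mem, T.sum_pidx S j hj]
    intro i hi
    rw [Finset.mem_range] at hi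
    omega
  · rw [(T.lsm S).finrank_eq j]
    by_cases hjn : (j : ℤ) ≤ n
    · obtain ⟨m, hm⟩ : ∃ m : ℕ, n - j = m := ⟨(n - j).toNat, by omega⟩
      rw [hm, ← T.sum_pidx S m (by omega)]
      apply Finset.sum_congr _ (fun _ _ => rfl)
      ext i
      rw [Finset.mem_filter, Finset.mem_range, Finset.mem_range]
      constructor
      · rintro ⟨h1, h2⟩; omega
      · intro h1; exact ⟨by omega, by omega⟩
    · rw [Finset.filter_false_of_mem, Finset.sum_empty]
      · have : Gm (n - j) = ⊥ := by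
          rw [eq_bot_iff, ← S.neg (n - j) (by omega)]
          exact T.lem _
        rw [this, finrank_bot]
      · intro i _
        omega

end structure_

section compare

variable {V V' : Type*} [AddCommGroup V] [Module ℚ V] [AddCommGroup V'] [Module ℚ V']
  {n : ℤ} {G : ℤ → Submodule ℚ V} {B : V →ₗ[ℚ] V →ₗ[ℚ] ℚ} {L : Module.End ℚ V}
  {G' : ℤ → Submodule ℚ V'} {B' : V' →ₗ[ℚ] V' →ₗ[ℚ] ℚ} {L' : Module.End ℚ V'}

/-- Two structures for which the forms have the same signatures have the same indices. -/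
theorem pidx_congr (S : LS n G B L) (h : HL n G L) (S' : LS n G' B' L') (h' : HL n G' L')
    (hsg : ∀ (j : ℤ) (a : ℕ), 2 * j + a = n → ∀ p q, HasSg (qf B L a) (G j) p q →
      HasSg (qf B' L' a) (G' j) p q) {j : ℤ} (hj : 2 * j ≤ n) :
    pidx n G B L j = pidx n G' B' L' j := by
  have := S.fin j
  have := S'.fin j
  have := S.fin_prim j
  have := S'.fin_prim j
  have := S.fin (j - 1)
  have hja : 2 * j + ((n - 2 * j).toNat : ℤ) = n := by omega
  unfold pidx
  generalize (n - 2 * j).toNat = a at hja ⊢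
  have hja' : 2 * (j - 1) + ((a + 2 : ℕ) : ℤ) = n := by push_cast; omega
  obtain ⟨p, q, e1⟩ := exists_hasSg (Q := qf B L (a + 2)) (S := G (j - 1))
    (fun x _ y _ => S.qf_symm _ x y) (fun x hx h0 => S.qf_nondeg h hja' hx h0)
  obtain ⟨p', q', e2⟩ := exists_hasSg (Q := qf B L a) (S := prim n G L j)
    (fun x _ y _ => S.qf_symm _ x y) (fun x hx h0 => S.prim_nondeg h hja hx h0)
  obtain ⟨p'', q'', e3⟩ := exists_hasSg (Q := qf B' L' a) (S := prim n G' L' j)
    (fun x _ y _ => S'.qf_symm _ x y) (fun x hx h0 => S'.prim_nondeg h' hja hx h0)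
  have e4 := hsg j a hja _ _ (S.hasSg_add h hja e1 e2)
  have e5 := S'.hasSg_add h' hja (hsg (j - 1) (a + 2) hja' _ _ e1) e3
  obtain ⟨e6, e7⟩ := e4.unique e5
  obtain rfl : p' = p'' := by omega
  obtain rfl : q' = q'' := by omega
  rcases (by
    have := sg_sq j
    have h1 : (sg j - 1) * (sg j + 1) = 0 := by linarith
    rcases mul_eq_zero.1 h1 with h2 | h2
    · exact Or.inl (by linarith)
    · exact Or.inr (by linarith) : sg j = 1 ∨ sg j = -1) with hs | hs
  · rw [hs, one_smul, one_smul, e2.negIdx_eq, e3.negIdx_eq]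
  · have k1 : (-1 : ℚ) • qf B L a = - qf B L a := by ext x y; simp
    have k2 : (-1 : ℚ) • qf B' L' a = - qf B' L' a := by ext x y; simp
    rw [hs, k1, k2, e2.neg.negIdx_eq, e3.neg.negIdx_eq]

end compare

end Pool.Agent.H90.BU
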