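import Mathlib

/-!
# Graded spaces with a symmetric form and a Lefschetz operator
-/

set_option autoImplicit false

namespace Pool.Agent.H90.BU

open Module

variable {V : Type*} [AddCommGroup V] [Module ℚ V]

/-- The sign `(-1) ^ j`. -/
noncomputable def sg (j : ℤ) : ℚ := (-1 : ℚ) ^ j

lemma sg_succ (j : ℤ) : sg (j + 1) = - sg j := by
  unfold sg
  rw [zpow_add_one₀ (by norm_num)]
  ring

lemma sg_pred (j : ℤ) : sg (j - 1) = - sg j := by
  have := sg_succ (j - 1)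
  rw [sub_add_cancel] at this
  rw [this, neg_neg]

lemma sg_sq (j : ℤ) : sg j * sg j = 1 := by
  unfold sg
  rw [← mul_zpow]
  norm_num

lemma sg_natCast (j : ℕ) : sg (j : ℤ) = (-1 : ℚ) ^ j := by
  unfold sg
  rw [zpow_natCast]

lemma sg_ne (j : ℤ) : sg j ≠ 0 := by
  intro h
  have := sg_sq j
  rw [h] at this
  norm_num at this

/-- A graded space with a symmetric form and a self-adjoint operator of degree one. -/
structure LS (n : ℤ) (G : ℤ → Submodule ℚ V) (B : V →ₗ[ℚ] V →ₗ[ℚ] ℚ) (L : Module.End ℚ V) :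
    Prop where
  fin : ∀ j, Module.Finite ℚ (G j)
  symm : ∀ x y, B x y = B y x
  adj : ∀ x y, B (L x) y = B x (L y)
  map : ∀ j, ∀ x ∈ G j, L x ∈ G (j + 1)
  neg : ∀ j, j < 0 → G j = ⊥
  nondeg : ∀ j, ∀ x ∈ G j, (∀ y ∈ G (n - j), B x y = 0) → x = 0

/-- The hard Lefschetz property. -/
def HL (n : ℤ) (G : ℤ → Submodule ℚ V) (L : Module.End ℚ V) : Prop :=
  ∀ (j : ℤ) (a : ℕ), 2 * j + a = n → ∀ x ∈ G j, (L ^ a) x = 0 → x = 0

/-- The Hodge-Riemann relations in degree `j`. -/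
def HRat (n : ℤ) (G : ℤ → Submodule ℚ V) (B : V →ₗ[ℚ] V →ₗ[ℚ] ℚ) (L : Module.End ℚ V)
    (j : ℤ) : Prop :=
  ∀ a : ℕ, 2 * j + a = n → ∀ x ∈ G j, (L ^ (a + 1)) x = 0 → x ≠ 0 →
    0 < sg j * B x ((L ^ a) x)

/-- The Hodge-Riemann relations. -/
def HR (n : ℤ) (G : ℤ → Submodule ℚ V) (B : V →ₗ[ℚ] V →ₗ[ℚ] ℚ) (L : Module.End ℚ V) : Prop :=
  ∀ j, HRat n G B L j

variable {n : ℤ} {G : ℤ → Submodule ℚ V} {B : V →ₗ[ℚ] V →ₗ[ℚ] ℚ} {L : Module.End ℚ V}

lemma pow_succ_apply (L : Module.End ℚ V) (a : ℕ) (x : V) : (L ^ (a + 1)) x = L ((L ^ a) x) := by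
  rw [pow_succ', Module.End.mul_apply]

lemma pow_succ_apply' (L : Module.End ℚ V) (a : ℕ) (x : V) : (L ^ (a + 1)) x = (L ^ a) (L x) := by
  rw [pow_succ, Module.End.mul_apply]

lemma HR.hl (h : HR n G B L) : HL n G L := by
  intro j a hja x hx h0
  by_contra hne
  have := h j a hja x hx (by rw [pow_succ_apply, h0, map_zero]) hne
  rw [h0, map_zero, mul_zero] at this
  exact lt_irrefl _ this

namespace LS

lemma pow_mem (S : LS n G B L) {j : ℤ} {x : V} (hx : x ∈ G j) (a : ℕ) :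
    (L ^ a) x ∈ G (j + a) := by
  induction a with
  | zero => simpa using hx
  | succ a ih =>
    rw [pow_succ_apply]
    have := S.map _ _ ih
    rwa [add_assoc, ← Nat.cast_succ] at this

lemma pow_mem' (S : LS n G B L) {i j : ℤ} {x : V} (hx : x ∈ G j) (a : ℕ) (h : i = j + a) :
    (L ^ a) x ∈ G i := by
  subst h
  exact S.pow_mem hx a

lemma adj_pow (S : LS n G B L) (a : ℕ) (x y : V) : B ((L ^ a) x) y = B x ((L ^ a) y) := by
  induction a generalizing x y with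
  | zero => simp
  | succ a ih => rw [pow_succ_apply, S.adj, ih, ← pow_succ_apply' L a y]

lemma nondeg' (S : LS n G B L) {j : ℤ} {x : V} (hx : x ∈ G (n - j))
    (h : ∀ y ∈ G j, B y x = 0) : x = 0 := by
  apply S.nondeg (n - j) x hx
  intro y hy
  rw [sub_sub_cancel] at hy
  rw [S.symm]
  exact h y hy

lemma finrank_le (S : LS n G B L) (j : ℤ) :
    finrank ℚ (G j) ≤ finrank ℚ (G (n - j)) := by
  have := S.fin j
  have := S.fin (n - j)
  rw [← Subspace.dual_finrank_eq (K := ℚ) (V := G (n - j))]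
  refine LinearMap.finrank_le_finrank_of_injective
    (f := (((G (n - j)).subtype.lcomp ℚ ℚ) ∘ₗ B ∘ₗ (G j).subtype : G j →ₗ[ℚ] Dual ℚ (G (n - j))))
    ?_
  rw [← LinearMap.ker_eq_bot, LinearMap.ker_eq_bot']
  rintro ⟨x, hx⟩ h0
  apply Subtype.ext
  apply S.nondeg j x hx
  intro y hy
  exact LinearMap.congr_fun h0 ⟨y, hy⟩

lemma finrank_eq (S : LS n G B L) (j : ℤ) :
    finrank ℚ (G j) = finrank ℚ (G (n - j)) := by
  apply le_antisymm (S.finrank_le j)
  have := S.finrank_le (n - j)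
  rwa [sub_sub_cancel] at this

/-- Hard Lefschetz, surjectivity. -/
lemma surj (S : LS n G B L) (h : HL n G L) {j : ℤ} {a : ℕ} (hja : 2 * j + a = n) {y : V}
    (hy : y ∈ G (j + a)) : ∃ x ∈ G j, (L ^ a) x = y := by
  have := S.fin j
  have := S.fin (j + a)
  let f : G j →ₗ[ℚ] G (j + a) := (L ^ a).restrict (fun x hx => S.pow_mem hx a)
  have hinj : Function.Injective f := by
    rw [← LinearMap.ker_eq_bot, LinearMap.ker_eq_bot']
    rintro ⟨x, hx⟩ h0
    apply Subtype.ext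
    exact h j a hja x hx (congrArg Subtype.val h0)
  have hd : finrank ℚ (G j) = finrank ℚ (G (j + a)) := by
    rw [S.finrank_eq j, show n - j = j + a by omega]
  have hs : Function.Surjective f :=
    (LinearMap.injective_iff_surjective_of_finrank_eq_finrank hd).1 hinj
  obtain ⟨⟨x, hx⟩, hxy⟩ := hs ⟨y, hy⟩
  exact ⟨x, hx, congrArg Subtype.val hxy⟩

/-- The Lefschetz decomposition. -/
lemma decomp (S : LS n G B L) (h : HL n G L) {j : ℤ} {a : ℕ} (hja : 2 * j + a = n) {x : V}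
    (hx : x ∈ G j) : ∃ y ∈ G (j - 1), (L ^ (a + 1)) (x - L y) = 0 := by
  obtain ⟨y, hy, hxy⟩ := S.surj h (j := j - 1) (a := a + 2) (by push_cast; omega)
    (y := (L ^ (a + 1)) x) (S.pow_mem' hx (a + 1) (by push_cast; ring))
  refine ⟨y, hy, ?_⟩
  rw [map_sub, ← pow_succ_apply', hxy, sub_self]

/-- Below the middle `L` is injective. -/
lemma inj (_S : LS n G B L) (h : HL n G L) {j : ℤ} (hj : 2 * j < n) {x : V} (hx : x ∈ G j)
    (h0 : L x = 0) : x = 0 := by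
  obtain ⟨a, ha⟩ : ∃ a : ℕ, 2 * j + (a + 1 : ℕ) = n := ⟨(n - 2 * j - 1).toNat, by push_cast; omega⟩
  apply h j (a + 1) ha x hx
  rw [pow_succ_apply', h0, map_zero]

end LS

end Pool.Agent.H90.BU
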