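import Pool.Agent.H90.BU.Ops

/-!
# Limits of forms
-/

set_option autoImplicit false

namespace Pool.Agent.H90.BU

open Module Filter Topology

section pers

variable {U : Type*} [AddCommGroup U] [Module ℚ U]

/-- The positive rational numbers near zero. -/
abbrev small : Filter ℚ := 𝓝[>] (0 : ℚ)

/-- Persistence of positivity. -/
theorem PD.persist {R : ℚ → U →ₗ[ℚ] U →ₗ[ℚ] ℚ} {R₀ : U →ₗ[ℚ] U →ₗ[ℚ] ℚ} {A : Submodule ℚ U}
    [Module.Finite ℚ A] (hs : ∀ x ∈ A, ∀ y ∈ A, R₀ x y = R₀ y x)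
    (hlim : ∀ x ∈ A, ∀ y ∈ A, Tendsto (fun t => R t x y) small (𝓝 (R₀ x y)))
    (h : PD R₀ A) : ∀ᶠ t in small, PD (R t) A := by
  classical
  let _ : Invertible (2 : ℚ) := invertibleOfNonzero two_ne_zero
  let Q' : LinearMap.BilinForm ℚ A := (R₀.compl₁₂ A.subtype A.subtype)
  obtain ⟨v, hv⟩ := LinearMap.BilinForm.exists_orthogonal_basis (K := ℚ) (V := A) (B := Q')
    ⟨fun x y => hs x x.2 y y.2⟩
  have hv' : ∀ i j, i ≠ j → R₀ (v i : U) (v j : U) = 0 := fun i j hij => hv hij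
  have hb : ∀ i, 0 < R₀ (v i : U) (v i : U) := fun i =>
    h _ (v i).2 (fun h0 => v.ne_zero i (Subtype.ext h0))
  set e : Fin (finrank ℚ A) → Fin (finrank ℚ A) → ℚ → ℚ := fun i j t => R t (v i : U) (v j : U) - R₀ (v i : U) (v j : U)
    with he
  have hel : ∀ i j, Tendsto (e i j) small (𝓝 0) := by
    intro i j
    have := (hlim _ (v i).2 _ (v j).2).sub_const (R₀ (v i : U) (v j : U))
    rwa [sub_self] at this
  have h1 : ∀ i, ∀ᶠ t in small,
      ∑ j, (|e i j t| + |e j i t|) / 2 < R₀ (v i : U) (v i : U) := by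
    intro i
    have h2 : Tendsto (fun t => ∑ j, (|e i j t| + |e j i t|) / 2) small
        (𝓝 (∑ _j : Fin (finrank ℚ A), (|(0 : ℚ)| + |(0 : ℚ)|) / 2)) :=
      tendsto_finsetSum _ fun j _ => (((hel i j).abs).add ((hel j i).abs)).div_const 2
    rw [show (∑ _j : Fin (finrank ℚ A), (|(0 : ℚ)| + |(0 : ℚ)|) / 2) = 0 by simp] at h2
    exact h2.eventually (gt_mem_nhds (hb i))
  have h2 := eventually_all.2 h1
  filter_upwards [h2] with t ht
  intro x hx hx0
  set c : Fin (finrank ℚ A) → ℚ := fun i => v.repr ⟨x, hx⟩ i with hc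
  have hxc : x = ∑ i, c i • (v i : U) := by
    have h3 : ((∑ i, v.repr ⟨x, hx⟩ i • v i : A) : U) = x :=
      congrArg Subtype.val (v.sum_repr ⟨x, hx⟩)
    rw [Submodule.coe_sum] at h3
    exact h3.symm
  have hQ : R t x x = ∑ i, ∑ j, c i * c j * R t (v i : U) (v j : U) := by
    have k1 : ∀ y, R t x y = ∑ i, c i * R t (v i : U) y := by
      intro y
      conv_lhs => rw [hxc]
      simp only [map_sum, LinearMap.sum_apply, map_smul, LinearMap.smul_apply, smul_eq_mul]
    rw [k1]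
    refine Finset.sum_congr rfl fun i _ => ?_
    have k2 : R t (v i : U) x = ∑ j, c j * R t (v i : U) (v j : U) := by
      conv_lhs => rw [hxc]
      simp only [map_sum, map_smul, smul_eq_mul]
    rw [k2, Finset.mul_sum]
    refine Finset.sum_congr rfl fun j _ => ?_
    ring
  have hQ2 : R t x x = ∑ i, c i * c i * R₀ (v i : U) (v i : U) +
      ∑ i, ∑ j, c i * c j * e i j t := by
    rw [hQ, ← Finset.sum_add_distrib]
    refine Finset.sum_congr rfl fun i _ => ?_
    have : c i * c i * R₀ (v i : U) (v i : U) = ∑ j, c i * c j * R₀ (v i : U) (v j : U) := by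
      rw [Finset.sum_eq_single i]
      · intro j _ hj
        rw [hv' i j (Ne.symm hj), mul_zero]
      · intro h; exact absurd (Finset.mem_univ i) h
    rw [this, ← Finset.sum_add_distrib]
    refine Finset.sum_congr rfl fun j _ => ?_
    rw [he]
    ring
  have hlow : ∀ i j, -(c i * c i + c j * c j) / 2 * |e i j t| ≤ c i * c j * e i j t := by
    intro i j
    have k1 : |c i * c j| ≤ (c i * c i + c j * c j) / 2 := by
      rw [abs_le]
      constructor
      · nlinarith [sq_nonneg (c i + c j)]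
      · nlinarith [sq_nonneg (c i - c j)]
    have k2 : |c i * c j * e i j t| ≤ (c i * c i + c j * c j) / 2 * |e i j t| := by
      rw [abs_mul]
      exact mul_le_mul_of_nonneg_right k1 (abs_nonneg _)
    have k3 := (abs_le.1 k2).1
    linarith
  have hsum : -∑ i, c i * c i * ∑ j, (|e i j t| + |e j i t|) / 2 ≤
      ∑ i, ∑ j, c i * c j * e i j t := by
    have k1 : ∑ i, ∑ j, -(c i * c i + c j * c j) / 2 * |e i j t| ≤
        ∑ i, ∑ j, c i * c j * e i j t :=
      Finset.sum_le_sum fun i _ => Finset.sum_le_sum fun j _ => hlow i j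
    refine le_trans (le_of_eq ?_) k1
    have k2 : ∑ i, c i * c i * ∑ j, (|e i j t| + |e j i t|) / 2 =
        ∑ i, ∑ j, c i * c i * |e i j t| / 2 + ∑ i, ∑ j, c i * c i * |e j i t| / 2 := by
      rw [← Finset.sum_add_distrib]
      refine Finset.sum_congr rfl fun i _ => ?_
      rw [← Finset.sum_add_distrib, Finset.mul_sum]
      refine Finset.sum_congr rfl fun j _ => ?_
      ring
    have k3 : ∑ i, ∑ j, c i * c i * |e j i t| / 2 = ∑ i, ∑ j, c j * c j * |e i j t| / 2 := by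
      rw [Finset.sum_comm]
    rw [k2, k3, ← Finset.sum_add_distrib, ← Finset.sum_neg_distrib]
    refine Finset.sum_congr rfl fun i _ => ?_
    rw [← Finset.sum_add_distrib, ← Finset.sum_neg_distrib]
    refine Finset.sum_congr rfl fun j _ => ?_
    ring
  have hpos : 0 < ∑ i, c i * c i *
      (R₀ (v i : U) (v i : U) - ∑ j, (|e i j t| + |e j i t|) / 2) := by
    have k1 : ∃ i, c i ≠ 0 := by
      by_contra hcon
      push Not at hcon
      apply hx0
      rw [hxc]
      exact Finset.sum_eq_zero fun i _ => by rw [hcon i, zero_smul]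
    obtain ⟨i, hi⟩ := k1
    apply Finset.sum_pos'
    · intro l _
      exact mul_nonneg (mul_self_nonneg _) (sub_nonneg.2 (ht l).le)
    · exact ⟨i, Finset.mem_univ _, mul_pos (mul_self_pos.2 hi) (sub_pos.2 (ht i))⟩
  rw [hQ2]
  have k4 : ∑ i, c i * c i * (R₀ (v i : U) (v i : U) - ∑ j, (|e i j t| + |e j i t|) / 2) =
      ∑ i, c i * c i * R₀ (v i : U) (v i : U) -
        ∑ i, c i * c i * ∑ j, (|e i j t| + |e j i t|) / 2 := by
    rw [← Finset.sum_sub_distrib]
    refine Finset.sum_congr rfl fun i _ => ?_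
    ring
  rw [k4] at hpos
  linarith

/-- Weak limits of vectors. -/
def Lim (f : ℚ → U) (v : U) : Prop :=
  ∀ φ : U →ₗ[ℚ] ℚ, Tendsto (fun t => φ (f t)) small (𝓝 (φ v))

lemma lim_const (v : U) : Lim (fun _ => v) v := fun _ => tendsto_const_nhds

lemma Lim.add {f g : ℚ → U} {v w : U} (hf : Lim f v) (hg : Lim g w) :
    Lim (fun t => f t + g t) (v + w) := by
  intro φ
  simp only [map_add]
  exact (hf φ).add (hg φ)

lemma Lim.map {U' : Type*} [AddCommGroup U'] [Module ℚ U'] {f : ℚ → U} {v : U} (hf : Lim f v)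
    (F : U →ₗ[ℚ] U') : Lim (fun t => F (f t)) (F v) := fun φ => hf (φ ∘ₗ F)

lemma Lim.smul {f : ℚ → U} {v : U} (hf : Lim f v) {c : ℚ → ℚ} {c₀ : ℚ}
    (hc : Tendsto c small (𝓝 c₀)) : Lim (fun t => c t • f t) (c₀ • v) := by
  intro φ
  simp only [map_smul, smul_eq_mul]
  exact hc.mul (hf φ)

lemma Lim.sum {ι : Type*} {s : Finset ι} {f : ι → ℚ → U} {v : ι → U}
    (hf : ∀ i ∈ s, Lim (f i) (v i)) : Lim (fun t => ∑ i ∈ s, f i t) (∑ i ∈ s, v i) := by
  intro φ
  simp only [map_sum]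
  exact tendsto_finsetSum _ fun i hi => hf i hi φ

lemma tendsto_pow_small (a : ℕ) (ha : a ≠ 0) :
    Tendsto (fun t : ℚ => (-t) ^ a) small (𝓝 0) := by
  have h1 : Tendsto (fun t : ℚ => (-t) ^ a) (𝓝 0) (𝓝 ((-0) ^ a)) :=
    (continuous_neg.pow a).tendsto 0
  rw [neg_zero, zero_pow ha] at h1
  exact h1.mono_left nhdsWithin_le_nhds

lemma tendsto_pow_small' (a : ℕ) (ha : a ≠ 0) :
    Tendsto (fun t : ℚ => t ^ a) small (𝓝 0) := by
  have h1 : Tendsto (fun t : ℚ => t ^ a) (𝓝 0) (𝓝 (0 ^ a)) := (continuous_pow a).tendsto 0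
  rw [zero_pow ha] at h1
  exact h1.mono_left nhdsWithin_le_nhds

end pers

end Pool.Agent.H90.BU
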