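import Pool.Agent.H90.BU.Idx

/-!
# Products with projective spaces and direct sums of Lefschetz structures
-/

set_option autoImplicit false

namespace Pool.Agent.H90.BU

open Module

section restrict

variable {V V' : Type*} [AddCommGroup V] [Module ℚ V] [AddCommGroup V'] [Module ℚ V']
  {n : ℤ} {G : ℤ → Submodule ℚ V} {B : V →ₗ[ℚ] V →ₗ[ℚ] ℚ} {L : Module.End ℚ V}
  {G' : ℤ → Submodule ℚ V'} {B' : V' →ₗ[ℚ] V' →ₗ[ℚ] ℚ} {L' : Module.End ℚ V'}

lemma pow_comm_of {f : V →ₗ[ℚ] V'} (hL : ∀ x, f (L x) = L' (f x)) (a : ℕ) (x : V) :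
    f ((L ^ a) x) = (L' ^ a) (f x) := by
  induction a generalizing x with
  | zero => simp
  | succ a ih => rw [pow_succ_apply', pow_succ_apply', ih, hL]

/-- Restriction of the Hodge-Riemann relations along an injective map. -/
lemma HR.restrict (h : HR n G' B' L') (f : V →ₗ[ℚ] V') (hf : ∀ x, f x = 0 → x = 0)
    (hG : ∀ j, ∀ x ∈ G j, f x ∈ G' j) (hL : ∀ x, f (L x) = L' (f x)) {c : ℚ} (hc : 0 < c)
    (hB : ∀ x y, B' (f x) (f y) = c * B x y) : HR n G B L := by
  intro j a hja x hx hp hx0
  have h1 := h j a hja (f x) (hG j x hx) (by rw [← pow_comm_of hL, hp, map_zero])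
    (fun h0 => hx0 (hf x h0))
  rw [← pow_comm_of hL, hB] at h1
  have h2 : sg j * (c * B x ((L ^ a) x)) = c * (sg j * B x ((L ^ a) x)) := by ring
  rw [h2] at h1
  exact (mul_pos_iff_of_pos_left hc).1 h1

end restrict

section line

variable {V : Type*} [AddCommGroup V] [Module ℚ V]

/-- The operator of the product with the projective line. -/
def lineL (L : Module.End ℚ V) : Module.End ℚ (V × V) where
  toFun x := (L x.1, L x.2 + x.1)
  map_add' x y := by
    ext
    · simp
    · simp only [Prod.snd_add, Prod.fst_add, map_add]; abel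
  map_smul' c x := by
    ext
    · simp
    · simp

/-- The form of the product with the projective line. -/
def lineB (B : V →ₗ[ℚ] V →ₗ[ℚ] ℚ) : (V × V) →ₗ[ℚ] (V × V) →ₗ[ℚ] ℚ :=
  LinearMap.mk₂ ℚ (fun x y => B x.1 y.2 + B x.2 y.1)
    (fun x x' y => by simp only [Prod.fst_add, Prod.snd_add, map_add, LinearMap.add_apply]; ring)
    (fun c x y => by
      simp only [Prod.smul_fst, Prod.smul_snd, map_smul, LinearMap.smul_apply, smul_eq_mul]; ring)
    (fun x y y' => by simp only [Prod.fst_add, Prod.snd_add, map_add]; ring)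
    (fun c x y => by simp only [Prod.smul_fst, Prod.smul_snd, map_smul, smul_eq_mul]; ring)

/-- The grading of the product with the projective line. -/
def lineG (G : ℤ → Submodule ℚ V) (j : ℤ) : Submodule ℚ (V × V) := (G j).prod (G (j - 1))

@[simp] lemma lineL_apply (L : Module.End ℚ V) (x : V × V) :
    lineL L x = (L x.1, L x.2 + x.1) := rfl

@[simp] lemma lineB_apply (B : V →ₗ[ℚ] V →ₗ[ℚ] ℚ) (x y : V × V) :
    lineB B x y = B x.1 y.2 + B x.2 y.1 := rfl

variable {n : ℤ} {G : ℤ → Submodule ℚ V} {B : V →ₗ[ℚ] V →ₗ[ℚ] ℚ} {L : Module.End ℚ V}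

lemma mem_lineG {j : ℤ} {x : V × V} : x ∈ lineG G j ↔ x.1 ∈ G j ∧ x.2 ∈ G (j - 1) :=
  Submodule.mem_prod

lemma lineL_pow (L : Module.End ℚ V) (a : ℕ) (x : V × V) : (lineL L ^ (a + 1)) x =
    ((L ^ (a + 1)) x.1, (L ^ (a + 1)) x.2 + ((a : ℚ) + 1) • (L ^ a) x.1) := by
  induction a with
  | zero => simp
  | succ a ih =>
    rw [pow_succ_apply, ih, lineL_apply]
    ext
    · exact (pow_succ_apply L (a + 1) x.1).symm
    · simp only [map_add, map_smul]
      rw [← pow_succ_apply L (a + 1) x.2, ← pow_succ_apply L a x.1]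
      push_cast
      module

/-- The product with the projective line satisfies the Hodge-Riemann relations. -/
theorem HR.line (S : LS n G B L) (h : HR n G B L) : HR (n + 1) (lineG G) (lineB B) (lineL L) := by
  have hl := h.hl
  intro j a hja x hx hp hx0
  obtain ⟨hx1, hx2⟩ := mem_lineG.1 hx
  rw [lineL_pow] at hp
  have hp1 : (L ^ (a + 1)) x.1 = 0 := congrArg Prod.fst hp
  have hp2 : (L ^ (a + 1)) x.2 + ((a : ℚ) + 1) • (L ^ a) x.1 = 0 := congrArg Prod.snd hp
  rcases a with _ | a
  · -- the middle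
    rw [zero_add, pow_one] at hp1
    simp only [zero_add, pow_one, pow_zero, Module.End.one_apply, Nat.cast_zero, one_smul] at hp2
    have e1 : x.1 = - L x.2 := by
      rw [add_comm] at hp2
      exact eq_neg_of_add_eq_zero_left hp2
    have e2 : (L ^ (1 + 1)) x.2 = 0 := by
      rw [pow_succ_apply, pow_one]
      rw [e1, map_neg, neg_eq_zero] at hp1
      exact hp1
    have hx20 : x.2 ≠ 0 := by
      intro h0
      apply hx0
      ext
      · rw [e1, h0, map_zero, neg_zero]; rfl
      · exact h0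
    have h1 := h (j - 1) 1 (by push_cast at hja ⊢; omega) x.2 hx2 e2 hx20
    rw [pow_one, sg_pred] at h1
    rw [pow_zero, Module.End.one_apply, lineB_apply, e1, map_neg, LinearMap.neg_apply, map_neg,
      S.symm (L x.2) x.2]
    linarith
  · -- the other degrees
    obtain ⟨y, hy, hxy⟩ := S.decomp hl (j := j) (a := a) (by push_cast at hja; omega) hx1
    set p := x.1 - L y with hpd
    have e0 : x.1 = p + L y := by rw [hpd, sub_add_cancel]
    have e1 : (L ^ (a + 1)) x.1 = (L ^ (a + 2)) y := by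
      rw [e0, map_add, hxy, zero_add, ← pow_succ_apply']
    have e2 : (L ^ (a + 2)) (x.2 + ((a : ℚ) + 2) • y) = 0 := by
      rw [map_add, map_smul, ← e1]
      rw [← hp2]
      push_cast
      congr 1
      congr 1
      ring
    have e3 : x.2 + ((a : ℚ) + 2) • y = 0 :=
      hl (j - 1) (a + 2) (by push_cast at hja ⊢; omega) _
        (Submodule.add_mem _ hx2 (Submodule.smul_mem _ _ hy)) e2
    have e4 : x.2 = - (((a : ℚ) + 2) • y) := eq_neg_of_add_eq_zero_left e3
    have e5 : (L ^ (a + 2 + 1)) y = 0 := by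
      rw [pow_succ_apply, ← e1, ← pow_succ_apply]
      exact hp1
    -- the form
    have f1 : B p ((L ^ (a + 1)) y) = 0 := by
      rw [← S.adj_pow, hxy, map_zero, LinearMap.zero_apply]
    have f2 : B (L y) ((L ^ (a + 1)) y) = B y ((L ^ (a + 2)) y) := by
      rw [S.adj, ← pow_succ_apply]
    have f3 : B (L y) ((L ^ a) p) = 0 := by
      rw [S.adj, ← pow_succ_apply, hxy, map_zero]
    have f4 : B (L y) ((L ^ a) (L y)) = B y ((L ^ (a + 2)) y) := by
      rw [S.adj, ← pow_succ_apply' L a y, ← pow_succ_apply L (a + 1) y]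
    have f5 : B p ((L ^ a) (L y)) = 0 := by
      rw [← pow_succ_apply' L a y, f1]
    have key : lineB B x ((lineL L ^ (a + 1)) x) =
        ((a : ℚ) + 1) * B p ((L ^ a) p) - ((a : ℚ) + 3) * B y ((L ^ (a + 2)) y) := by
      rw [lineL_pow, lineB_apply]
      simp only
      rw [e1, e4, map_neg, map_smul, e0]
      simp only [map_add, map_neg, map_smul, LinearMap.add_apply, LinearMap.neg_apply,
        LinearMap.smul_apply, smul_eq_mul]
      rw [f1, f2, f3, f4, f5]
      ring
    rw [key]
    have hj1 : 2 * j + (a : ℤ) = n := by push_cast at hja; omega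
    have hj2 : 2 * (j - 1) + ((a + 2 : ℕ) : ℤ) = n := by push_cast at hja ⊢; omega
    have hpG : p ∈ G j := by
      have := S.map _ _ hy
      rw [sub_add_cancel] at this
      exact Submodule.sub_mem _ hx1 this
    have ha : (0 : ℚ) ≤ a := Nat.cast_nonneg a
    by_cases hp0 : p = 0
    · have hy0 : y ≠ 0 := by
        intro h0
        apply hx0
        ext
        · rw [e0, hp0, h0, map_zero, add_zero]; rfl
        · rw [e4, h0, smul_zero, neg_zero]; rfl
      have g2 := h (j - 1) (a + 2) hj2 y hy e5 hy0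
      rw [sg_pred] at g2
      rw [hp0, map_zero, LinearMap.zero_apply]
      nlinarith
    · have g1 := h j a hj1 p hpG hxy hp0
      by_cases hy0 : y = 0
      · rw [hy0, map_zero, LinearMap.zero_apply, mul_zero, sub_zero]
        nlinarith
      · have g2 := h (j - 1) (a + 2) hj2 y hy e5 hy0
        rw [sg_pred] at g2
        nlinarith

end line

section space

variable {V : Type*} [AddCommGroup V] [Module ℚ V] {m : ℕ}

/-- Multiplication by the hyperplane class. -/
def shift (m : ℕ) : (Fin (m + 1) → V) →ₗ[ℚ] (Fin (m + 1) → V) where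
  toFun w := Fin.cases 0 (fun r : Fin m => w r.castSucc)
  map_add' w w' := by
    ext r
    refine Fin.cases ?_ (fun r => ?_) r
    · simp
    · simp
  map_smul' c w := by
    ext r
    refine Fin.cases ?_ (fun r => ?_) r
    · simp
    · simp

@[simp] lemma shift_zero (w : Fin (m + 1) → V) : shift m w 0 = 0 := rfl

@[simp] lemma shift_succ (w : Fin (m + 1) → V) (r : Fin m) : shift m w r.succ = w r.castSucc :=
  rfl

/-- The operator of the product with the projective space of dimension `m`. -/
def spL (L : Module.End ℚ V) (m : ℕ) : Module.End ℚ (Fin (m + 1) → V) :=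
  L.compLeft (Fin (m + 1)) + shift m

@[simp] lemma spL_apply (L : Module.End ℚ V) (w : Fin (m + 1) → V) (r : Fin (m + 1)) :
    spL L m w r = L (w r) + shift m w r := rfl

/-- The form of the product with the projective space of dimension `m`. -/
def spB (B : V →ₗ[ℚ] V →ₗ[ℚ] ℚ) (m : ℕ) :
    (Fin (m + 1) → V) →ₗ[ℚ] (Fin (m + 1) → V) →ₗ[ℚ] ℚ :=
  LinearMap.mk₂ ℚ (fun w w' => ∑ r, B (w r) (w' r.rev))
    (fun w w' u => by
      simp only [Pi.add_apply, map_add, LinearMap.add_apply, Finset.sum_add_distrib])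
    (fun c w u => by
      simp only [Pi.smul_apply, map_smul, LinearMap.smul_apply, Finset.smul_sum])
    (fun w u u' => by simp only [Pi.add_apply, map_add, Finset.sum_add_distrib])
    (fun c w u => by simp only [Pi.smul_apply, map_smul, Finset.smul_sum])

@[simp] lemma spB_apply (B : V →ₗ[ℚ] V →ₗ[ℚ] ℚ) (w w' : Fin (m + 1) → V) :
    spB B m w w' = ∑ r, B (w r) (w' r.rev) := rfl

/-- The grading of the product with the projective space of dimension `m`. -/
def spG (G : ℤ → Submodule ℚ V) (m : ℕ) (j : ℤ) : Submodule ℚ (Fin (m + 1) → V) :=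
  Submodule.pi Set.univ (fun r : Fin (m + 1) => G (j - (r : ℕ)))

variable {n : ℤ} {G : ℤ → Submodule ℚ V} {B : V →ₗ[ℚ] V →ₗ[ℚ] ℚ} {L : Module.End ℚ V}

lemma mem_spG {j : ℤ} {w : Fin (m + 1) → V} :
    w ∈ spG G m j ↔ ∀ r : Fin (m + 1), w r ∈ G (j - (r : ℕ)) := by
  unfold spG
  rw [Submodule.mem_pi]
  exact ⟨fun h r => h r (Set.mem_univ _), fun h r _ => h r⟩

/-- The pieces of the product. -/
noncomputable def spEquiv (G : ℤ → Submodule ℚ V) (m : ℕ) (j : ℤ) :
    spG G m j ≃ₗ[ℚ] (∀ r : Fin (m + 1), G (j - (r : ℕ))) where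
  toFun w r := ⟨w.1 r, mem_spG.1 w.2 r⟩
  map_add' _ _ := rfl
  map_smul' _ _ := rfl
  invFun u := ⟨fun r => (u r : V), mem_spG.2 fun r => (u r).2⟩
  left_inv _ := rfl
  right_inv _ := rfl

lemma LS.sp (S : LS n G B L) (m : ℕ) : LS (n + m) (spG G m) (spB B m) (spL L m) where
  fin j := by
    have : ∀ j, Module.Finite ℚ (G j) := S.fin
    exact Module.Finite.equiv (spEquiv G m j).symm
  symm w w' := by
    rw [spB_apply, spB_apply, ← Equiv.sum_comp Fin.revPerm]
    apply Finset.sum_congr rfl
    intro r _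
    rw [Fin.revPerm_apply, Fin.rev_rev, S.symm]
  adj w w' := by
    simp only [spB_apply, spL_apply, map_add, LinearMap.add_apply, Finset.sum_add_distrib]
    congr 1
    · exact Finset.sum_congr rfl fun r _ => S.adj _ _
    · rw [Fin.sum_univ_succ, Fin.sum_univ_castSucc (f := fun r => B (w r) (shift m w' r.rev))]
      simp only [shift_zero, map_zero, LinearMap.zero_apply, shift_succ, Fin.rev_succ,
        Fin.rev_castSucc, Fin.rev_last, zero_add, add_zero]
  map j w hw := by
    rw [mem_spG] at hw ⊢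
    intro r
    rw [spL_apply]
    apply Submodule.add_mem
    · have := S.map _ _ (hw r)
      rwa [show j - ((r : ℕ) : ℤ) + 1 = j + 1 - ((r : ℕ) : ℤ) by ring] at this
    · refine Fin.cases ?_ (fun r => ?_) r
      · exact Submodule.zero_mem _
      · rw [shift_succ]
        have := hw r.castSucc
        rwa [show j - ((r.castSucc : ℕ) : ℤ) = j + 1 - ((r.succ : ℕ) : ℤ) by
          rw [Fin.val_castSucc, Fin.val_succ]; push_cast; ring] at this
  neg j hj := by
    rw [eq_bot_iff]
    intro w hw
    rw [Submodule.mem_bot]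
    ext r
    have := mem_spG.1 hw r
    rw [S.neg _ (by omega), Submodule.mem_bot] at this
    exact this
  nondeg j w hw h0 := by
    ext r
    apply S.nondeg _ _ (mem_spG.1 hw r)
    intro y hy
    have h1 := h0 (Pi.single r.rev y) (by
      rw [mem_spG]
      intro s
      by_cases hs : s = r.rev
      · subst hs
        rw [Pi.single_eq_same]
        have : n - (j - ((r : ℕ) : ℤ)) = n + m - j - ((r.rev : ℕ) : ℤ) := by
          rw [Fin.val_rev]
          have := r.2
          omega
        rwa [this] at hy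
      · rw [Pi.single_eq_of_ne hs]
        exact Submodule.zero_mem _)
    rw [spB_apply, Finset.sum_eq_single r] at h1
    · rwa [Pi.single_eq_same] at h1
    · intro s _ hs
      rw [Pi.single_eq_of_ne (fun h => hs (Fin.rev_injective h)), map_zero]
    · intro h; exact absurd (Finset.mem_univ r) h

/-- The map to the product with a projective line. -/
def kap (m : ℕ) : (Fin (m + 2) → V) →ₗ[ℚ] (Fin (m + 1) → V) × (Fin (m + 1) → V) where
  toFun w := (fun r => w r.castSucc, fun r => (((r : ℕ) : ℚ) + 1) • w r.succ)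
  map_add' w w' := by
    ext r
    · rfl
    · simp [smul_add]
  map_smul' c w := by
    ext r
    · rfl
    · simp only [Pi.smul_apply, RingHom.id_apply, Prod.smul_snd]
      rw [smul_comm]

lemma kap_fst (w : Fin (m + 2) → V) (r : Fin (m + 1)) : (kap m w).1 r = w r.castSucc := rfl

lemma kap_snd (w : Fin (m + 2) → V) (r : Fin (m + 1)) :
    (kap m w).2 r = (((r : ℕ) : ℚ) + 1) • w r.succ := rfl

lemma kap_L (w : Fin (m + 2) → V) : kap m (spL L (m + 1) w) = lineL (spL L m) (kap m w) := by
  rw [lineL_apply]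
  apply Prod.ext
  · funext r
    show spL L (m + 1) w r.castSucc = spL L m (kap m w).1 r
    rw [spL_apply, spL_apply, kap_fst]
    congr 1
    refine Fin.cases rfl (fun s => ?_) r
    rw [Fin.castSucc_succ, shift_succ, shift_succ, kap_fst]
  · funext r
    show (((r : ℕ) : ℚ) + 1) • spL L (m + 1) w r.succ = spL L m (kap m w).2 r + (kap m w).1 r
    rw [spL_apply, spL_apply, kap_fst, kap_snd, shift_succ, map_smul, smul_add, add_assoc]
    congr 1
    have : shift m (kap m w).2 r = ((r : ℕ) : ℚ) • w r.castSucc := by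
      refine Fin.cases ?_ (fun s => ?_) r
      · simp
      · rw [shift_succ, kap_snd, ← Fin.castSucc_succ, Fin.val_succ, Fin.val_castSucc]
        push_cast
        rfl
    rw [this]
    module

lemma kap_B (w w' : Fin (m + 2) → V) :
    lineB (spB B m) (kap m w) (kap m w') = ((m : ℚ) + 1) * spB B (m + 1) w w' := by
  rw [lineB_apply, spB_apply, spB_apply, spB_apply]
  have e1 : ∑ r : Fin (m + 1), B ((kap m w).1 r) ((kap m w').2 r.rev) =
      ∑ s : Fin (m + 2), (((m : ℚ) + 1) - ((s : ℕ) : ℚ)) * B (w s) (w' s.rev) := by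
    rw [Fin.sum_univ_castSucc (n := m + 1)]
    rw [Fin.val_last]
    push_cast
    rw [sub_self, zero_mul, add_zero]
    apply Finset.sum_congr rfl
    intro r _
    rw [kap_fst, kap_snd, map_smul, smul_eq_mul, Fin.rev_castSucc, Fin.val_rev, Fin.val_castSucc]
    congr 1
    have := r.2
    rw [Nat.cast_sub (by omega)]
    push_cast
    ring
  have e2 : ∑ r : Fin (m + 1), B ((kap m w).2 r) ((kap m w').1 r.rev) =
      ∑ s : Fin (m + 2), ((s : ℕ) : ℚ) * B (w s) (w' s.rev) := by
    rw [Fin.sum_univ_succ (n := m + 1)]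
    rw [Fin.val_zero]
    push_cast
    rw [zero_mul, zero_add]
    apply Finset.sum_congr rfl
    intro r _
    rw [kap_fst, kap_snd, map_smul, LinearMap.smul_apply, smul_eq_mul, Fin.rev_succ,
      Fin.val_succ]
    push_cast
    ring
  rw [e1, e2, ← Finset.sum_add_distrib, Finset.mul_sum]
  apply Finset.sum_congr rfl
  intro s _
  ring

/-- The product with a projective space satisfies the Hodge-Riemann relations. -/
theorem HR.sp (S : LS n G B L) (h : HR n G B L) (m : ℕ) :
    HR (n + m) (spG G m) (spB B m) (spL L m) := by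
  induction m with
  | zero =>
    -- the map to `V`
    have := h.restrict (V := Fin 1 → V) (G := spG G 0) (B := spB B 0) (L := spL L 0)
      (LinearMap.proj 0) (fun x hx => by
        funext r
        obtain rfl : r = 0 := Subsingleton.elim _ _
        exact hx) (fun j x hx => by
        have := mem_spG.1 hx 0
        simpa using this) (fun x => by
        show spL L 0 x 0 = L (x 0)
        rw [spL_apply, shift_zero, add_zero]) one_pos (fun x y => by
        rw [spB_apply]
        simp)
    rwa [Nat.cast_zero, add_zero]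
  | succ m ih =>
    have h1 := ih.line (S.sp m)
    have h2 := h1.restrict (V := Fin (m + 2) → V) (G := spG G (m + 1)) (B := spB B (m + 1))
      (L := spL L (m + 1)) (kap m) (fun w hw => by
        have e1 : ∀ r : Fin (m + 1), w r.castSucc = 0 := fun r => by
          rw [← kap_fst w r, hw]; rfl
        have e2 : ∀ r : Fin (m + 1), w r.succ = 0 := fun r => by
          have := kap_snd w r
          rw [hw] at this
          have h3 : (((r : ℕ) : ℚ) + 1) • w r.succ = 0 := this.symm
          rcases smul_eq_zero.1 h3 with h4 | h4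
          · exact absurd h4 (by positivity)
          · exact h4
        funext r
        refine Fin.cases ?_ (fun s => ?_) r
        · exact e1 0
        · exact e2 s) (fun j w hw => by
        rw [mem_lineG, mem_spG, mem_spG]
        constructor
        · intro r
          exact mem_spG.1 hw r.castSucc
        · intro r
          rw [kap_snd]
          apply Submodule.smul_mem
          have := mem_spG.1 hw r.succ
          rwa [Fin.val_succ, show j - ((((r : ℕ) + 1 : ℕ)) : ℤ) = j - 1 - ((r : ℕ) : ℤ) by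
            push_cast; ring] at this) kap_L (c := (m : ℚ) + 1) (by positivity) kap_B
    rwa [show n + ((m + 1 : ℕ) : ℤ) = n + m + 1 by push_cast; ring]

lemma spB_neg : spB (-B) m = - spB B m := by
  ext w w'
  simp

/-- The splitting of the product. -/
theorem Split.sp {Gp Gm : ℤ → Submodule ℚ V} (T : Split n G B L Gp Gm) (S : LS n G B L) (m : ℕ) :
    Split (n + m) (spG G m) (spB B m) (spL L m) (spG Gp m) (spG Gm m) where
  sup j := by
    apply le_antisymm
    · apply sup_le
      · intro w hw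
        rw [mem_spG] at hw ⊢
        exact fun r => T.lep _ (hw r)
      · intro w hw
        rw [mem_spG] at hw ⊢
        exact fun r => T.lem _ (hw r)
    · intro w hw
      rw [mem_spG] at hw
      have h1 : ∀ r : Fin (m + 1), ∃ y ∈ Gp (j - (r : ℕ)), ∃ z ∈ Gm (j - (r : ℕ)),
          y + z = w r := by
        intro r
        have := hw r
        rw [← T.sup] at this
        exact Submodule.mem_sup.1 this
      choose y hy z hz hyz using h1
      rw [show w = y + z from funext fun r => (hyz r).symm]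
      exact Submodule.add_mem_sup (mem_spG.2 hy) (mem_spG.2 hz)
  mapp := ((T.lsp S).sp m).map
  mapm := ((T.lsm S).sp m).map
  orth j w hw w' hw' := by
    rw [spB_apply]
    apply Finset.sum_eq_zero
    intro r _
    apply T.orth _ _ (mem_spG.1 hw r)
    have := mem_spG.1 hw' r.rev
    rwa [show n + m - j - ((r.rev : ℕ) : ℤ) = n - (j - ((r : ℕ) : ℤ)) by
      rw [Fin.val_rev]
      have := r.2
      omega] at this
  hrp := HR.sp (T.lsp S) T.hrp m
  hrm := by
    rw [← spB_neg]
    exact HR.sp (T.lsm S) T.hrm m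

lemma finrank_spG (S : LS n G B L) (m : ℕ) (j : ℤ) :
    finrank ℚ (spG G m j) = ∑ r : Fin (m + 1), finrank ℚ (G (j - (r : ℕ))) := by
  have : ∀ j, Module.Finite ℚ (G j) := S.fin
  rw [(spEquiv G m j).finrank_eq, Module.finrank_pi_fintype]

end space

section sum

variable {V V' : Type*} [AddCommGroup V] [Module ℚ V] [AddCommGroup V'] [Module ℚ V']
  {n : ℤ} {G : ℤ → Submodule ℚ V} {B : V →ₗ[ℚ] V →ₗ[ℚ] ℚ} {L : Module.End ℚ V}
  {G' : ℤ → Submodule ℚ V'} {B' : V' →ₗ[ℚ] V' →ₗ[ℚ] ℚ} {L' : Module.End ℚ V'}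

/-- The operator on the sum. -/
def smL (L : Module.End ℚ V) (L' : Module.End ℚ V') : Module.End ℚ (V × V') := L.prodMap L'

@[simp] lemma smL_apply (L : Module.End ℚ V) (L' : Module.End ℚ V') (x : V × V') :
    smL L L' x = (L x.1, L' x.2) := rfl

/-- The form `B - B'` on the sum. -/
def smB (B : V →ₗ[ℚ] V →ₗ[ℚ] ℚ) (B' : V' →ₗ[ℚ] V' →ₗ[ℚ] ℚ) :
    (V × V') →ₗ[ℚ] (V × V') →ₗ[ℚ] ℚ :=
  LinearMap.mk₂ ℚ (fun x y => B x.1 y.1 - B' x.2 y.2)
    (fun x x' y => by simp only [Prod.fst_add, Prod.snd_add, map_add, LinearMap.add_apply]; ring)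
    (fun c x y => by
      simp only [Prod.smul_fst, Prod.smul_snd, map_smul, LinearMap.smul_apply, smul_eq_mul]; ring)
    (fun x y y' => by simp only [Prod.fst_add, Prod.snd_add, map_add]; ring)
    (fun c x y => by simp only [Prod.smul_fst, Prod.smul_snd, map_smul, smul_eq_mul]; ring)

@[simp] lemma smB_apply (B : V →ₗ[ℚ] V →ₗ[ℚ] ℚ) (B' : V' →ₗ[ℚ] V' →ₗ[ℚ] ℚ) (x y : V × V') :
    smB B B' x y = B x.1 y.1 - B' x.2 y.2 := rfl

/-- The grading of the sum, with a shift by one. -/
def smG (G : ℤ → Submodule ℚ V) (G' : ℤ → Submodule ℚ V') (j : ℤ) : Submodule ℚ (V × V') :=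
  (G j).prod (G' (j - 1))

lemma mem_smG {j : ℤ} {x : V × V'} : x ∈ smG G G' j ↔ x.1 ∈ G j ∧ x.2 ∈ G' (j - 1) :=
  Submodule.mem_prod

lemma smL_pow (a : ℕ) (x : V × V') : (smL L L' ^ a) x = ((L ^ a) x.1, (L' ^ a) x.2) := by
  induction a with
  | zero => simp
  | succ a ih => rw [pow_succ_apply, ih, smL_apply, pow_succ_apply, pow_succ_apply]

/-- The pieces of the sum. -/
def smEquiv (G : ℤ → Submodule ℚ V) (G' : ℤ → Submodule ℚ V') (j : ℤ) :
    smG G G' j ≃ₗ[ℚ] (G j × G' (j - 1)) where
  toFun w := (⟨w.1.1, (mem_smG.1 w.2).1⟩, ⟨w.1.2, (mem_smG.1 w.2).2⟩)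
  map_add' _ _ := rfl
  map_smul' _ _ := rfl
  invFun u := ⟨(u.1.1, u.2.1), mem_smG.2 ⟨u.1.2, u.2.2⟩⟩
  left_inv _ := rfl
  right_inv _ := rfl

lemma LS.sm (S : LS n G B L) (S' : LS (n - 2) G' B' L') :
    LS n (smG G G') (smB B B') (smL L L') where
  fin j := by
    have := S.fin j
    have := S'.fin (j - 1)
    exact Module.Finite.equiv (smEquiv G G' j).symm
  symm x y := by rw [smB_apply, smB_apply, S.symm, S'.symm]
  adj x y := by
    rw [smB_apply, smB_apply, smL_apply, smL_apply, S.adj, S'.adj]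
  map j x hx := by
    rw [mem_smG] at hx ⊢
    refine ⟨S.map _ _ hx.1, ?_⟩
    have := S'.map _ _ hx.2
    rwa [show j - 1 + 1 = j + 1 - 1 by ring] at this
  neg j hj := by
    rw [smG, S.neg j hj, S'.neg (j - 1) (by omega), Submodule.prod_bot]
  nondeg j x hx h0 := by
    rw [mem_smG] at hx
    ext
    · apply S.nondeg j _ hx.1
      intro y hy
      have := h0 (y, 0) (mem_smG.2 ⟨hy, Submodule.zero_mem _⟩)
      rw [smB_apply, map_zero, sub_zero] at this
      exact this
    · apply S'.nondeg (j - 1) _ hx.2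
      intro y hy
      have := h0 (0, y) (mem_smG.2 ⟨Submodule.zero_mem _, by
        rwa [show n - j - 1 = n - 2 - (j - 1) by ring]⟩)
      rw [smB_apply, map_zero, zero_sub, neg_eq_zero] at this
      exact this

lemma HR.sm (h : HR n G B L) (h' : HR (n - 2) G' B' L') :
    HR n (smG G G') (smB B B') (smL L L') := by
  intro j a hja x hx hp hx0
  rw [mem_smG] at hx
  rw [smL_pow] at hp
  have hp1 : (L ^ (a + 1)) x.1 = 0 := congrArg Prod.fst hp
  have hp2 : (L' ^ (a + 1)) x.2 = 0 := congrArg Prod.snd hp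
  rw [smL_pow, smB_apply]
  by_cases h1 : x.1 = 0
  · have h2 : x.2 ≠ 0 := fun h2 => hx0 (Prod.ext h1 h2)
    have := h' (j - 1) a (by omega) x.2 hx.2 hp2 h2
    rw [sg_pred] at this
    simp only [h1, map_zero]
    linarith
  · have k1 := h j a hja x.1 hx.1 hp1 h1
    by_cases h2 : x.2 = 0
    · simp only [h2, map_zero, sub_zero]
      exact k1
    · have := h' (j - 1) a (by omega) x.2 hx.2 hp2 h2
      rw [sg_pred] at this
      simp only
      linarith

lemma smB_neg : smB (-B) (-B') = - smB B B' := by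
  apply LinearMap.ext
  intro x
  apply LinearMap.ext
  intro y
  rw [LinearMap.neg_apply, LinearMap.neg_apply, smB_apply, smB_apply]
  simp only [LinearMap.neg_apply]
  ring

theorem Split.sm {Gp Gm : ℤ → Submodule ℚ V} {Gp' Gm' : ℤ → Submodule ℚ V'}
    (T : Split n G B L Gp Gm) (T' : Split (n - 2) G' B' L' Gp' Gm') :
    Split n (smG G G') (smB B B') (smL L L') (smG Gp Gp') (smG Gm Gm') where
  sup j := by
    rw [smG, smG, smG, ← T.sup, ← T'.sup, Submodule.prod_sup_prod]
  mapp j x hx := by
    rw [mem_smG] at hx ⊢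
    refine ⟨T.mapp _ _ hx.1, ?_⟩
    have := T'.mapp _ _ hx.2
    rwa [show j - 1 + 1 = j + 1 - 1 by ring] at this
  mapm j x hx := by
    rw [mem_smG] at hx ⊢
    refine ⟨T.mapm _ _ hx.1, ?_⟩
    have := T'.mapm _ _ hx.2
    rwa [show j - 1 + 1 = j + 1 - 1 by ring] at this
  orth j x hx y hy := by
    rw [mem_smG] at hx hy
    rw [smB_apply, T.orth j _ hx.1 _ hy.1, T'.orth (j - 1) _ hx.2 _ (by
      have := hy.2
      rwa [show n - j - 1 = n - 2 - (j - 1) by ring] at this), sub_zero]
  hrp := T.hrp.sm T'.hrp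
  hrm := by
    rw [← smB_neg]
    exact T.hrm.sm T'.hrm

lemma finrank_smG (S : LS n G B L) (S' : LS (n - 2) G' B' L') (j : ℤ) :
    finrank ℚ (smG G G' j) = finrank ℚ (G j) + finrank ℚ (G' (j - 1)) := by
  have := S.fin j
  have := S'.fin (j - 1)
  rw [(smEquiv G G' j).finrank_eq, Module.finrank_prod]

end sum

end Pool.Agent.H90.BU
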