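import Pool.Agent.H90.BU.Lef

/-!
# Splitting a Lefschetz structure into a positive and a negative one
-/

set_option autoImplicit false

namespace Pool.Agent.H90.BU

open Module

variable {V : Type*} [AddCommGroup V] [Module ℚ V]

/-- Diagonalisation of a nondegenerate form on a subspace. -/
lemma exists_split (Q : V →ₗ[ℚ] V →ₗ[ℚ] ℚ) (S : Submodule ℚ V) [Module.Finite ℚ S]
    (hs : ∀ x ∈ S, ∀ y ∈ S, Q x y = Q y x) (hn : ∀ x ∈ S, (∀ y ∈ S, Q x y = 0) → x = 0) :
    ∃ P N : Submodule ℚ V, P ⊔ N = S ∧ (∀ x ∈ P, x ≠ 0 → 0 < Q x x) ∧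
      (∀ x ∈ N, x ≠ 0 → Q x x < 0) ∧ ∀ x ∈ P, ∀ y ∈ N, Q x y = 0 := by
  classical
  let _ : Invertible (2 : ℚ) := invertibleOfNonzero two_ne_zero
  let Q' : LinearMap.BilinForm ℚ S := (Q.compl₁₂ S.subtype S.subtype)
  have hQ' : ∀ x y : S, Q' x y = Q x y := fun x y => rfl
  obtain ⟨v, hv⟩ := LinearMap.BilinForm.exists_orthogonal_basis (K := ℚ) (V := S) (B := Q')
    ⟨fun x y => by
      show Q' x y = Q' y x
      rw [hQ', hQ']; exact hs x x.2 y y.2⟩
  have hv' : ∀ i j, i ≠ j → Q (v i : V) (v j : V) = 0 := fun i j hij => hv hij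
  set b : Fin (finrank ℚ S) → ℚ := fun i => Q (v i : V) (v i : V) with hb
  have hexp : ∀ x y : S, Q (x : V) (y : V) = ∑ i, v.repr x i * v.repr y i * b i := by
    intro x y
    have h0 : Q' x y = ∑ i, v.repr x i * Q' (v i) y := by
      conv_lhs => rw [← v.sum_repr x]
      simp only [map_sum, LinearMap.sum_apply, map_smul, LinearMap.smul_apply, smul_eq_mul]
    have h1 : ∀ i, Q' (v i) y = v.repr y i * b i := by
      intro i
      conv_lhs => rw [← v.sum_repr y]
      simp only [map_sum, map_smul, smul_eq_mul]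
      rw [Finset.sum_eq_single i]
      · rfl
      · intro j _ hj
        rw [hQ', hv' i j (Ne.symm hj)]; ring
      · intro h; exact absurd (Finset.mem_univ i) h
    rw [← hQ', h0]
    refine Finset.sum_congr rfl fun i _ => ?_
    rw [h1]; ring
  have hb0 : ∀ i, b i ≠ 0 := by
    intro i h0
    have : (v i : V) = 0 := by
      apply hn _ (v i).2
      intro y hy
      rw [hexp (v i) ⟨y, hy⟩]
      apply Finset.sum_eq_zero
      intro l _
      by_cases hl : l = i
      · subst hl; rw [h0, mul_zero]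
      · rw [v.repr_self, Finsupp.single_apply, if_neg (Ne.symm hl)]; ring
    exact v.ne_zero i (Subtype.ext this)
  let P' : Submodule ℚ S :=
    { carrier := {x | ∀ i, b i < 0 → v.repr x i = 0}
      add_mem' := by
        intro x y hx hy i hi
        rw [map_add, Finsupp.add_apply, hx i hi, hy i hi, add_zero]
      zero_mem' := by intro i _; rw [map_zero, Finsupp.zero_apply]
      smul_mem' := by
        intro c x hx i hi
        rw [map_smul, Finsupp.smul_apply, hx i hi, smul_zero] }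
  let N' : Submodule ℚ S :=
    { carrier := {x | ∀ i, 0 < b i → v.repr x i = 0}
      add_mem' := by
        intro x y hx hy i hi
        rw [map_add, Finsupp.add_apply, hx i hi, hy i hi, add_zero]
      zero_mem' := by intro i _; rw [map_zero, Finsupp.zero_apply]
      smul_mem' := by
        intro c x hx i hi
        rw [map_smul, Finsupp.smul_apply, hx i hi, smul_zero] }
  refine ⟨P'.map S.subtype, N'.map S.subtype, ?_, ?_, ?_, ?_⟩
  · rw [← Submodule.map_sup]
    have : P' ⊔ N' = ⊤ := by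
      rw [eq_top_iff]
      intro x _
      rw [← v.sum_repr x]
      apply Submodule.sum_mem
      intro i _
      apply Submodule.smul_mem
      rcases lt_or_gt_of_ne (hb0 i) with h | h
      · apply Submodule.mem_sup_right
        intro l hl
        rw [v.repr_self, Finsupp.single_apply, if_neg]
        rintro rfl
        exact absurd h (not_lt.2 hl.le)
      · apply Submodule.mem_sup_left
        intro l hl
        rw [v.repr_self, Finsupp.single_apply, if_neg]
        rintro rfl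
        exact absurd h (not_lt.2 hl.le)
    rw [this, Submodule.map_top, Submodule.range_subtype]
  · rintro _ ⟨x, hx, rfl⟩ hne
    have hx0 : x ≠ 0 := fun h => hne (by rw [h, map_zero])
    show 0 < Q (x : V) (x : V)
    rw [hexp]
    have h1 : ∃ i, v.repr x i ≠ 0 := by
      by_contra h
      push Not at h
      exact hx0 (v.repr.map_eq_zero_iff.1 (Finsupp.ext h))
    obtain ⟨i, hi⟩ := h1
    apply Finset.sum_pos'
    · intro l _
      by_cases hl : b l < 0
      · rw [hx l hl]; simp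
      · exact mul_nonneg (mul_self_nonneg _) (not_lt.1 hl)
    · refine ⟨i, Finset.mem_univ _, mul_pos (mul_self_pos.2 hi) ?_⟩
      rcases lt_or_gt_of_ne (hb0 i) with h | h
      · exact absurd (hx i h) hi
      · exact h
  · rintro _ ⟨x, hx, rfl⟩ hne
    have hx0 : x ≠ 0 := fun h => hne (by rw [h, map_zero])
    show Q (x : V) (x : V) < 0
    rw [hexp, ← neg_pos, ← Finset.sum_neg_distrib]
    have h1 : ∃ i, v.repr x i ≠ 0 := by
      by_contra h
      push Not at h
      exact hx0 (v.repr.map_eq_zero_iff.1 (Finsupp.ext h))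
    obtain ⟨i, hi⟩ := h1
    apply Finset.sum_pos'
    · intro l _
      by_cases hl : 0 < b l
      · rw [hx l hl]; simp
      · have : 0 ≤ (v.repr x l * v.repr x l) * (- b l) :=
          mul_nonneg (mul_self_nonneg _) (by linarith [not_lt.1 hl])
        linarith
    · refine ⟨i, Finset.mem_univ _, ?_⟩
      have h2 : b i < 0 := by
        rcases lt_or_gt_of_ne (hb0 i) with h | h
        · exact h
        · exact absurd (hx i h) hi
      have : 0 < (v.repr x i * v.repr x i) * (- b i) :=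
        mul_pos (mul_self_pos.2 hi) (by linarith)
      linarith
  · rintro _ ⟨x, hx, rfl⟩ _ ⟨y, hy, rfl⟩
    show Q (x : V) (y : V) = 0
    rw [hexp]
    apply Finset.sum_eq_zero
    intro i _
    rcases lt_or_gt_of_ne (hb0 i) with h | h
    · rw [hx i h]; ring
    · rw [hy i h]; ring

variable {n : ℤ} {G : ℤ → Submodule ℚ V} {B : V →ₗ[ℚ] V →ₗ[ℚ] ℚ} {L : Module.End ℚ V}

/-- The primitive subspace. -/
def prim (n : ℤ) (G : ℤ → Submodule ℚ V) (L : Module.End ℚ V) (j : ℤ) : Submodule ℚ V where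
  carrier := {x | x ∈ G j ∧ ∀ a : ℕ, 2 * j + a = n → (L ^ (a + 1)) x = 0}
  add_mem' := by
    rintro x y ⟨hx, hx'⟩ ⟨hy, hy'⟩
    exact ⟨Submodule.add_mem _ hx hy, fun a ha => by rw [map_add, hx' a ha, hy' a ha, add_zero]⟩
  zero_mem' := ⟨Submodule.zero_mem _, fun a _ => map_zero _⟩
  smul_mem' := by
    rintro c x ⟨hx, hx'⟩
    exact ⟨Submodule.smul_mem _ _ hx, fun a ha => by rw [map_smul, hx' a ha, smul_zero]⟩

lemma mem_prim {j : ℤ} {a : ℕ} (ha : 2 * j + a = n) {x : V} :
    x ∈ prim n G L j ↔ x ∈ G j ∧ (L ^ (a + 1)) x = 0 := by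
  constructor
  · rintro ⟨h1, h2⟩
    exact ⟨h1, h2 a ha⟩
  · rintro ⟨h1, h2⟩
    refine ⟨h1, fun a' ha' => ?_⟩
    obtain rfl : a' = a := by omega
    exact h2

/-- A decomposition into a positive part and a negative part. -/
structure Split (n : ℤ) (G : ℤ → Submodule ℚ V) (B : V →ₗ[ℚ] V →ₗ[ℚ] ℚ) (L : Module.End ℚ V)
    (Gp Gm : ℤ → Submodule ℚ V) : Prop where
  sup : ∀ j, Gp j ⊔ Gm j = G j
  mapp : ∀ j, ∀ x ∈ Gp j, L x ∈ Gp (j + 1)
  mapm : ∀ j, ∀ x ∈ Gm j, L x ∈ Gm (j + 1)
  orth : ∀ j, ∀ x ∈ Gp j, ∀ y ∈ Gm (n - j), B x y = 0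
  hrp : HR n Gp B L
  hrm : HR n Gm (-B) L

/-- The subspaces generated by the families of primitive subspaces. -/
noncomputable def gen (L : Module.End ℚ V) (P : ℤ → Submodule ℚ V) (j : ℤ) : Submodule ℚ V :=
  ⨆ i : ℕ, (P (j - i)).map (L ^ i)

lemma gen_map {P : ℤ → Submodule ℚ V} {j : ℤ} {x : V} (hx : x ∈ gen L P j) :
    L x ∈ gen L P (j + 1) := by
  have h1 : gen L P j ≤ (gen L P (j + 1)).comap L := by
    apply iSup_le
    rintro i _ ⟨y, hy, rfl⟩
    show L ((L ^ i) y) ∈ gen L P (j + 1)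
    apply Submodule.mem_iSup_of_mem (i + 1)
    refine ⟨y, ?_, pow_succ_apply L i y⟩
    have : (j + 1 - ((i + 1 : ℕ) : ℤ)) = j - i := by push_cast; ring
    rw [this]
    exact hy
  exact h1 hx

lemma gen_le {P : ℤ → Submodule ℚ V} (j : ℤ) :
    gen L P j ≤ P j ⊔ (gen L P (j - 1)).map L := by
  apply iSup_le
  rintro (_ | i)
  · rintro _ ⟨y, hy, rfl⟩
    apply Submodule.mem_sup_left
    simpa using hy
  · rintro _ ⟨y, hy, rfl⟩
    apply Submodule.mem_sup_right
    refine ⟨(L ^ i) y, ?_, (pow_succ_apply L i y).symm⟩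
    apply Submodule.mem_iSup_of_mem i
    refine ⟨y, ?_, rfl⟩
    have : (j - ((i + 1 : ℕ) : ℤ)) = j - 1 - i := by push_cast; ring
    rw [this] at hy
    exact hy

lemma le_gen {P : ℤ → Submodule ℚ V} (j : ℤ) : P j ≤ gen L P j := by
  intro x hx
  apply Submodule.mem_iSup_of_mem 0
  exact ⟨x, by simpa using hx, by simp⟩

lemma gen_pow {P : ℤ → Submodule ℚ V} {j : ℤ} {x : V} (hx : x ∈ gen L P j) (a : ℕ) :
    (L ^ a) x ∈ gen L P (j + a) := by
  induction a with
  | zero => simpa using hx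
  | succ a ih =>
    rw [pow_succ_apply]
    have := gen_map ih
    rwa [add_assoc, ← Nat.cast_succ] at this

/-- Nondegeneracy of the form on the primitive part. -/
lemma LS.prim_nondeg (S : LS n G B L) (h : HL n G L) {j : ℤ} {a : ℕ} (hja : 2 * j + a = n)
    {x : V} (hx : x ∈ prim n G L j) (h0 : ∀ y ∈ prim n G L j, B x ((L ^ a) y) = 0) : x = 0 := by
  obtain ⟨hxG, hxp⟩ := (mem_prim hja).1 hx
  apply S.nondeg j x hxG
  intro y hy
  obtain ⟨z, hz, rfl⟩ := S.surj h hja (y := y) (by rwa [show j + a = n - j by omega])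
  obtain ⟨w, hw, hwz⟩ := S.decomp h hja hz
  have h1 := h0 (z - L w) ((mem_prim hja).2
    ⟨Submodule.sub_mem _ hz (by have := S.map _ _ hw; rwa [sub_add_cancel] at this), hwz⟩)
  rw [map_sub, map_sub, sub_eq_zero] at h1
  rw [h1, ← pow_succ_apply', ← S.adj_pow, hxp, map_zero, LinearMap.zero_apply]

/-- Every structure with the hard Lefschetz property splits. -/
theorem LS.exists_split (S : LS n G B L) (h : HL n G L) :
    ∃ Gp Gm, Split n G B L Gp Gm := by
  classical
  have hP : ∀ j : ℤ, ∃ P N : Submodule ℚ V, (2 * j ≤ n → P ⊔ N = prim n G L j) ∧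
      (n < 2 * j → P = ⊥ ∧ N = ⊥) ∧
      (∀ a : ℕ, 2 * j + a = n → (∀ x ∈ P, x ≠ 0 → 0 < sg j * B x ((L ^ a) x)) ∧
        (∀ x ∈ N, x ≠ 0 → sg j * B x ((L ^ a) x) < 0) ∧
        ∀ x ∈ P, ∀ y ∈ N, B x ((L ^ a) y) = 0) := by
    intro j
    by_cases hj : 2 * j ≤ n
    · obtain ⟨a, ha⟩ : ∃ a : ℕ, 2 * j + a = n := ⟨(n - 2 * j).toNat, by omega⟩
      set Q : V →ₗ[ℚ] V →ₗ[ℚ] ℚ := sg j • B.compl₂ (L ^ a) with hQ
      have hQa : ∀ x y, Q x y = sg j * B x ((L ^ a) y) := fun x y => rfl
      have hle : prim n G L j ≤ G j := fun x (hx : x ∈ prim n G L j) => hx.1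
      have := S.fin j
      have : Module.Finite ℚ (prim n G L j) :=
        Module.Finite.of_injective (Submodule.inclusion hle) (Submodule.inclusion_injective hle)
      obtain ⟨P, N, h1, h2, h3, h4⟩ := Pool.Agent.H90.BU.exists_split Q (prim n G L j)
        (fun x _ y _ => by rw [hQa, hQa, ← S.adj_pow, S.symm]) (by
          intro x hx h0
          apply S.prim_nondeg h ha hx
          intro y hy
          have := h0 y hy
          rw [hQa] at this
          exact (mul_eq_zero.1 this).resolve_left (sg_ne j))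
      refine ⟨P, N, fun _ => h1, fun h' => absurd h' (by omega), fun a' ha' => ?_⟩
      obtain rfl : a' = a := by omega
      refine ⟨fun x hx hx0 => ?_, fun x hx hx0 => ?_, fun x hx y hy => ?_⟩
      · rw [← hQa]; exact h2 x hx hx0
      · rw [← hQa]; exact h3 x hx hx0
      · have := h4 x hx y hy
        rw [hQa] at this
        exact (mul_eq_zero.1 this).resolve_left (sg_ne j)
    · exact ⟨⊥, ⊥, fun h' => absurd h' hj, fun _ => ⟨rfl, rfl⟩, fun a ha => by omega⟩
  choose P N h1 h2 h3 using hP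
  have hPp : ∀ j x, x ∈ P j → x ∈ prim n G L j ∧ (2 * j ≤ n ∨ x = 0) := by
    intro j x hx
    by_cases hj : 2 * j ≤ n
    · exact ⟨(h1 j hj) ▸ Submodule.mem_sup_left hx, Or.inl hj⟩
    · rw [(h2 j (by omega)).1, Submodule.mem_bot] at hx
      subst hx
      exact ⟨Submodule.zero_mem _, Or.inr rfl⟩
  have hNp : ∀ j x, x ∈ N j → x ∈ prim n G L j ∧ (2 * j ≤ n ∨ x = 0) := by
    intro j x hx
    by_cases hj : 2 * j ≤ n
    · exact ⟨(h1 j hj) ▸ Submodule.mem_sup_right hx, Or.inl hj⟩
    · rw [(h2 j (by omega)).2, Submodule.mem_bot] at hx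
      subst hx
      exact ⟨Submodule.zero_mem _, Or.inr rfl⟩
  have hkill : ∀ l x, x ∈ prim n G L l → (2 * l ≤ n ∨ x = 0) → ∀ i : ℕ, n - 2 * l < i →
      (L ^ i) x = 0 := by
    intro l x hx hl i hi
    rcases hl with hl | rfl
    · obtain ⟨a, ha⟩ : ∃ a : ℕ, 2 * l + a = n := ⟨(n - 2 * l).toNat, by omega⟩
      obtain ⟨m, rfl⟩ : ∃ m, i = m + (a + 1) := ⟨i - (a + 1), by omega⟩
      rw [pow_add, Module.End.mul_apply, hx.2 a ha, map_zero]
    · exact map_zero _
  have hGle : ∀ (R : ℤ → Submodule ℚ V), (∀ j x, x ∈ R j → x ∈ prim n G L j ∧ (2 * j ≤ n ∨ x = 0)) →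
      ∀ j, gen L R j ≤ G j := by
    intro R hR j
    apply iSup_le
    rintro i _ ⟨y, hy, rfl⟩
    exact S.pow_mem' (hR _ _ hy).1.1 i (by ring)
  have hlow : ∀ m : ℕ, ∀ j : ℤ, j < m → 2 * j ≤ n → G j ≤ gen L P j ⊔ gen L N j := by
    intro m
    induction m with
    | zero =>
      intro j hj _
      rw [S.neg j (by exact_mod_cast hj)]
      exact bot_le
    | succ m ih =>
      intro j hj hj2 x hx
      obtain ⟨a, ha⟩ : ∃ a : ℕ, 2 * j + a = n := ⟨(n - 2 * j).toNat, by omega⟩
      obtain ⟨y, hy, hxy⟩ := S.decomp h ha hx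
      have hy' := ih (j - 1) (by push_cast at hj; omega) (by omega) hy
      obtain ⟨yp, hyp, ym, hym, rfl⟩ := Submodule.mem_sup.1 hy'
      have hq : x - L (yp + ym) ∈ prim n G L j := (mem_prim ha).2
        ⟨Submodule.sub_mem _ hx (by have := S.map _ _ hy; rwa [sub_add_cancel] at this), hxy⟩
      rw [← h1 j hj2] at hq
      obtain ⟨p, hp, q, hq, hpq⟩ := Submodule.mem_sup.1 hq
      have e1 : x = (p + L yp) + (q + L ym) := by
        have : x = (p + q) + L (yp + ym) := by rw [hpq, sub_add_cancel]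
        rw [this, map_add]
        abel
      rw [e1]
      have e2 := gen_map hyp
      have e3 := gen_map hym
      rw [sub_add_cancel] at e2 e3
      exact Submodule.add_mem_sup (Submodule.add_mem _ (le_gen j hp) e2)
        (Submodule.add_mem _ (le_gen j hq) e3)
  have hsup : ∀ j, gen L P j ⊔ gen L N j = G j := by
    intro j
    apply le_antisymm (sup_le (hGle P hPp j) (hGle N hNp j))
    by_cases hj : 2 * j ≤ n
    · exact hlow (j.toNat + 1) j (by push_cast; omega) hj
    · intro x hx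
      obtain ⟨y, hy, rfl⟩ := S.surj h (j := n - j) (a := (2 * j - n).toNat) (by omega)
        (y := x) (by rwa [show n - j + ((2 * j - n).toNat : ℤ) = j by omega])
      have hy' := hlow ((n - j).toNat + 1) (n - j) (by push_cast; omega) (by omega) hy
      obtain ⟨yp, hyp, ym, hym, rfl⟩ := Submodule.mem_sup.1 hy'
      rw [map_add]
      have e2 := gen_pow hyp (2 * j - n).toNat
      have e3 := gen_pow hym (2 * j - n).toNat
      rw [show n - j + ((2 * j - n).toNat : ℤ) = j by omega] at e2 e3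
      exact Submodule.add_mem_sup e2 e3
  refine ⟨gen L P, gen L N, hsup, fun j x hx => gen_map hx, fun j x hx => gen_map hx, ?_, ?_, ?_⟩
  · intro j
    have key : ∀ i i' : ℕ, ∀ p ∈ P (j - i), ∀ q ∈ N (n - j - i'),
        B ((L ^ i) p) ((L ^ i') q) = 0 := by
      intro i i' p hp q hq
      rw [S.adj_pow, ← Module.End.mul_apply, ← pow_add]
      obtain ⟨hp1, hp2⟩ := hPp _ _ hp
      obtain ⟨hq1, hq2⟩ := hNp _ _ hq
      rcases lt_trichotomy (j - (i : ℤ)) (n - j - i') with hlt | heq | hgt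
      · rw [hkill _ _ hq1 hq2 (i + i') (by push_cast; omega), map_zero]
      · refine (h3 (j - i) (i + i') (by push_cast; omega)).2.2 p hp q ?_
        rwa [heq]
      · rw [← S.adj_pow, hkill _ _ hp1 hp2 (i + i') (by push_cast; omega), map_zero,
          LinearMap.zero_apply]
    intro x hx y hy
    have k1 : gen L P j ≤ (LinearMap.ker (B.flip y)) := by
      apply iSup_le
      rintro i _ ⟨p, hp, rfl⟩
      rw [LinearMap.mem_ker, LinearMap.flip_apply]
      have k2 : gen L N (n - j) ≤ LinearMap.ker (B ((L ^ i) p)) := by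
        apply iSup_le
        rintro i' _ ⟨q, hq, rfl⟩
        rw [LinearMap.mem_ker]
        exact key i i' p hp q hq
      exact k2 hy
    exact k1 hx
  · intro j a ha x hx hxp hx0
    obtain ⟨p, hp, _, ⟨y, hy, rfl⟩, rfl⟩ := Submodule.mem_sup.1 (gen_le j hx)
    obtain ⟨hp1, hp2⟩ := hPp _ _ hp
    have hy0 : y = 0 := by
      apply h (j - 1) (a + 2) (by push_cast; omega) y (hGle P hPp _ hy)
      rw [map_add, hkill _ _ hp1 hp2 (a + 1) (by push_cast; omega), zero_add,
        ← pow_succ_apply'] at hxp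
      exact hxp
    subst hy0
    rw [map_zero, add_zero] at hx0 ⊢
    exact (h3 j a ha).1 p hp hx0
  · intro j a ha x hx hxp hx0
    obtain ⟨p, hp, _, ⟨y, hy, rfl⟩, rfl⟩ := Submodule.mem_sup.1 (gen_le j hx)
    obtain ⟨hp1, hp2⟩ := hNp _ _ hp
    have hy0 : y = 0 := by
      apply h (j - 1) (a + 2) (by push_cast; omega) y (hGle N hNp _ hy)
      rw [map_add, hkill _ _ hp1 hp2 (a + 1) (by push_cast; omega), zero_add,
        ← pow_succ_apply'] at hxp
      exact hxp
    subst hy0
    rw [map_zero, add_zero] at hx0 ⊢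
    have := (h3 j a ha).2.1 p hp hx0
    rw [LinearMap.neg_apply, LinearMap.neg_apply, mul_neg]
    linarith

end Pool.Agent.H90.BU
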